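import Mathlib

/-!
# Project ZERO, part F: definitions

Long thin families on the cocompact part of a flow space (note 3758).
-/

set_option autoImplicit false

namespace Pool.Agent.ZF

open MeasureTheory Set

/-- `C` is `s`-null for the distance function `d`: `0`-null means empty, `(s + 1)`-null means that
there are countable covers with arbitrarily small sum of the `(s + 1)`-st powers of the diameters. -/
def NullD {X : Type} (d : X → X → ℝ) : ℕ → Set X → Prop
  | 0, C => C = ∅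
  | s + 1, C => ∀ ε : ℝ, 0 < ε → ∃ (A : ℕ → Set X) (r : ℕ → ℝ), (∀ i, 0 ≤ r i) ∧
      C ⊆ ⋃ i, A i ∧ (∀ i, ∀ x ∈ A i, ∀ y ∈ A i, d x y ≤ r i) ∧
      Summable (fun i => r i ^ (s + 1)) ∧ ∑' i, r i ^ (s + 1) ≤ ε

/-- A flow on a pseudo-metric space. -/
structure PFl (X : Type) [PseudoMetricSpace X] (Φ : ℝ → X → X) : Prop where
  zero : ∀ c, Φ 0 c = c
  add : ∀ s t c, Φ (s + t) c = Φ s (Φ t c)
  tim : ∀ s t c, dist (Φ s c) (Φ t c) ≤ |s - t|
  lip : ∀ T : ℝ, ∃ κ : ℝ, 1 ≤ κ ∧ ∀ t c c', |t| ≤ T → dist (Φ t c) (Φ t c') ≤ κ * dist c c'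

/-- A flow space with a proper isometric action of `G`. -/
structure Fl (G X : Type) [Group G] [MetricSpace X] [MulAction G X] (Φ : ℝ → X → X) : Prop where
  iso : ∀ (g : G) (x y : X), dist (g • x) (g • y) = dist x y
  zero : ∀ c, Φ 0 c = c
  add : ∀ s t c, Φ (s + t) c = Φ s (Φ t c)
  comm : ∀ (g : G) t c, Φ t (g • c) = g • Φ t c
  geo : ∀ s t c, dist (Φ s c) (Φ t c) = |s - t|
  lip : ∀ T : ℝ, ∃ κ : ℝ, 1 ≤ κ ∧ ∀ t c c', |t| ≤ T → dist (Φ t c) (Φ t c') ≤ κ * dist c c'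
  prp : ∀ (c : X) (R : ℝ), {g : G | dist (g • c) c ≤ R}.Finite

/-- the middle of the time block number `l` -/
noncomputable def tt (n : ℝ) (l : ℕ) : ℝ := (2 * n + 2) * l + n + 1

/-- the time block number `l` -/
def blk (n : ℝ) (l : ℕ) : Set ℝ := Set.Icc (tt n l - n) (tt n l + n)

/-- all blocks `l < s` are in `[0, LL s n]` -/
noncomputable def LL (s : ℕ) (n : ℝ) : ℝ := s * (2 * n + 2)

/-- the window -/
noncomputable def WW (s : ℕ) (n : ℝ) : ℝ := 2 * LL s n + n

section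

variable {X : Type} [PseudoMetricSpace X] (Φ : ℝ → X → X) (n : ℝ)

/-- the distance from the marker `Φ_(t_l) P` -/
noncomputable def vv (l : ℕ) (P : Set X) (c : X) : ℝ := Metric.infDist (Φ (-(tt n l)) c) P

/-- the smallest value of `vv` on the orbit of `c` in the block number `l'` -/
noncomputable def ww (l : ℕ) (P : Set X) (l' : ℕ) (c : X) : ℝ :=
  sInf ((fun t => vv Φ n l P (Φ t c)) '' blk n l')

end

/-- markers -/
structure Mk (X : Type) where
  k : ℕ
  l : ℕ
  P : Set X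
  ρ : ℝ

section

variable {X : Type} [PseudoMetricSpace X] (Φ : ℝ → X → X) (n : ℝ)

/-- general position -/
def GP (s : ℕ) (S : Set (Mk X)) : Prop :=
  ∀ J : Finset (Mk X × ℕ), (∀ x ∈ J, x.1 ∈ S) → (∀ x ∈ J, x.2 < s) →
    (∀ x ∈ J, ∀ y ∈ J, x.1 = y.1 → x = y) → J.card ≤ s →
    NullD (fun x y : X => dist x y) (s - J.card)
      {c | ∀ x ∈ J, ww Φ n x.1.l x.1.P x.2 c = x.1.ρ}

/-- no return to the `η`-neighbourhood of `Q k` in the window, except for short times -/
def NR (W η : ℝ) (Q : Set X) (θ : ℝ) : Prop :=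
  ∀ (c : X) (t : ℝ), |t| ≤ W → Metric.infDist c Q ≤ η → Metric.infDist (Φ t c) Q ≤ η → |t| ≤ θ

/-- the hypotheses about the small sets `Q k` -/
structure HQ (s : ℕ) (Q : Set X) (θ η : ℝ) : Prop where
  cpt : IsCompact Q
  ne : Q.Nonempty
  pos : 0 < θ
  le : θ ≤ 1
  nr : NR Φ (WW s n) η Q θ

/-- a good family of markers for the first `m` sets `Q k` -/
structure Gd (s : ℕ) (Q : ℕ → Set X) (θ : ℕ → ℝ) (η : ℝ) (m : ℕ) (S : Set (Mk X)) : Prop where
  fin : S.Finite
  klt : ∀ μ ∈ S, μ.k < m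
  llt : ∀ μ ∈ S, μ.l < s
  sub : ∀ μ ∈ S, μ.P ⊆ Q μ.k
  ne : ∀ μ ∈ S, μ.P.Nonempty
  pos : ∀ μ ∈ S, 0 < μ.ρ
  lt : ∀ μ ∈ S, μ.ρ < η
  sep : ∀ μ ∈ S, ∀ ν ∈ S, ∀ (c : X) (t : ℝ), |t| ≤ n → vv Φ n μ.l μ.P c ≤ μ.ρ →
    vv Φ n ν.l ν.P (Φ t c) ≤ ν.ρ → μ = ν ∧ |t| ≤ θ μ.k
  gp : GP Φ n s S
  cov : ∀ k < m, ∀ c ∈ Q k, ∃ μ ∈ S, ∃ t : ℝ, 0 ≤ t ∧ t ≤ LL s n ∧
    vv Φ n μ.l μ.P (Φ t c) < μ.ρ

end

/-- sup-convolution along the flow -/
noncomputable def slw {X : Type} (Φ : ℝ → X → X) (b : X → ℝ) (L α : ℝ) (c : X) : ℝ :=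
  sSup (Set.range fun t : ℝ => max 0 (b (Φ t c) - max 0 (|t| - L) / α))

/-- the space `X` with the pseudo-metric `inf_g d(x, g y)` -/
def OX (_G X : Type) : Type := X

section

variable {G X : Type} [Group G] [MetricSpace X] [MulAction G X]

/-- the pseudo-distance `inf_g d(x, g y)` -/
noncomputable def od (G : Type) {X : Type} [Group G] [MetricSpace X] [MulAction G X] (x y : X) : ℝ :=
  ⨅ g : G, dist x (g • y)

theorem od_bdd (x y : X) : BddBelow (Set.range fun g : G => dist x (g • y)) :=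
  ⟨0, by rintro _ ⟨g, rfl⟩; exact dist_nonneg⟩

theorem od_le (g : G) (x y : X) : od G x y ≤ dist x (g • y) := ciInf_le (od_bdd x y) g

theorem od_nonneg (x y : X) : 0 ≤ od G x y := le_ciInf fun _ => dist_nonneg

theorem od_le_dist (x y : X) : od G x y ≤ dist x y := by
  have h := od_le (1 : G) x y
  rwa [one_smul] at h

theorem od_lt {x y : X} {r : ℝ} (h : od G x y < r) : ∃ g : G, dist x (g • y) < r :=
  exists_lt_of_ciInf_lt h

variable [IsIsometricSMul G X]

noncomputable instance : PseudoMetricSpace (OX G X) where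
  dist x y := od G (X := X) x y
  dist_self x := le_antisymm ((od_le_dist (G := G) (X := X) x x).trans (dist_self _).le)
    (od_nonneg _ _)
  dist_comm x y := by
    have key : ∀ a b : X, od G a b ≤ od G b a := fun a b => le_ciInf fun g => by
      have h := od_le g⁻¹ a b
      have h2 : dist a (g⁻¹ • b) = dist b (g • a) := by
        rw [← dist_smul g a (g⁻¹ • b), smul_inv_smul, dist_comm]
      rwa [h2] at h
    exact le_antisymm (key x y) (key y x)
  dist_triangle x y z := by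
    have key : ∀ a b c : X, od G a c ≤ od G a b + od G b c := fun a b c => by
      refine le_of_forall_pos_le_add fun ε hε => ?_
      obtain ⟨g, hg⟩ := od_lt (G := G) (x := a) (y := b) (r := od G a b + ε / 2) (by linarith)
      obtain ⟨h, hh⟩ := od_lt (G := G) (x := b) (y := c) (r := od G b c + ε / 2) (by linarith)
      have h1 := od_le (g * h) a c
      have h2 : dist a ((g * h) • c) ≤ dist a (g • b) + dist (g • b) ((g * h) • c) :=
        dist_triangle _ _ _
      rw [mul_smul] at h2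
      rw [dist_smul] at h2
      rw [mul_smul] at h1
      linarith
    exact key x y z

theorem dist_OX (x y : OX G X) : dist x y = od G (X := X) x y := rfl

end

end Pool.Agent.ZF
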