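import Mathlib
import Pool.Agent.Lib.MP_8f66f0_al_ZF.Defs

/-!
# Project ZERO, part F, blocks I-III: statements with complete proofs

Every statement `S_X` is proved in `Lib/MP_8f66f0_al_ZF/X.lean` as `theorem t_X : S_X` (or
`theorem t_X (h1 : S_Y) ... : S_X` if the docstring says `uses`). Note 3758 has the whole proof.
-/

set_option autoImplicit false

namespace Pool.Agent.ZF

open MeasureTheory Set

/-! ## Marker lemma -/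

/-- **Slice** (helper22, `Null.lean`). Slicing of null sets.

Proof. For a cover `A i, r i` of `C` let `J i = ∅` if `A i = ∅` and otherwise
`J i = [h x_i - Lc r_i, h x_i + Lc r_i]`, `x_i ∈ A i`; `h '' A i ⊆ J i`, `volume (J i) ≤ 2 Lc r_i`.
`s = 0`: the set is contained in `h '' C ⊆ ⋃ J i`, so its measure is at most `2 Lc Σ r_i ≤ 2 Lc ε`.
`s ≥ 1`: for `m` let `B_m` be the set of the `ρ` such that `C ∩ {h = ρ}` has no cover with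
`Σ r^s ≤ 1/(m+1)`; it is enough that `B_m` is null. For a cover of `C` with `Σ r^(s+1) ≤ ε` let
`g ρ = Σ_i [ρ ∈ J i] r_i^s` (in `ENNReal`): `∫⁻ g ≤ 2 Lc ε` and `g ρ ≥ 1/(m+1)` on `B_m` (if
`g ρ < 1/(m+1)` the sets `A i` with `ρ ∈ J i`, and `∅` with `r = 0` for the others, are a cover). So
`volume B_m ≤ (m+1) 2 Lc ε`. -/
def S_Slice : Prop :=
  ∀ (X : Type) (d : X → X → ℝ) (s : ℕ) (C : Set X), NullD d (s + 1) C → ∀ (h : X → ℝ) (Lc : ℝ),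
    0 < Lc → (∀ x y, |h x - h y| ≤ Lc * d x y) →
    volume {ρ : ℝ | ¬ NullD d s (C ∩ {x | h x = ρ})} = 0

/-- **Wb** (80 lines). Basic properties of `ww` and `vv`.

Proof. `t ↦ vv (Φ t c)` is `1`-Lipschitz (`PFl.tim`, `Φ (-(tt)) (Φ t c) = Φ (t - tt) c`,
`Metric.infDist` is `1`-Lipschitz: `Metric.infDist_le_infDist_add_dist`), so continuous; the block is
compact and nonempty (`n ≥ 0`): the infimum is attained (1), (2). (3): `vv (Φ t ·)` is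
`κ`-Lipschitz for `|t| ≤ T` with `κ` from `PFl.lip` for `T + |tt n l|`. (4) from (3) with
`T = |tt n l'| + n` and (1), (2). (5), (6) arithmetic. -/
def S_Wb : Prop :=
  ∀ (X : Type) [PseudoMetricSpace X] (Φ : ℝ → X → X), PFl X Φ → ∀ n : ℝ, 1 ≤ n →
    (∀ (l : ℕ) (P : Set X) (l' : ℕ) (c : X), ∃ t ∈ blk n l', vv Φ n l P (Φ t c) = ww Φ n l P l' c) ∧
    (∀ (l : ℕ) (P : Set X) (l' : ℕ) (c : X), ∀ t ∈ blk n l', ww Φ n l P l' c ≤ vv Φ n l P (Φ t c)) ∧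
    (∀ (l : ℕ) (T : ℝ), ∃ κ : ℝ, 1 ≤ κ ∧ ∀ (P : Set X) (t : ℝ) (c c' : X), |t| ≤ T →
      |vv Φ n l P (Φ t c) - vv Φ n l P (Φ t c')| ≤ κ * dist c c') ∧
    (∀ (l l' : ℕ), ∃ κ : ℝ, 1 ≤ κ ∧ ∀ (P : Set X) (c c' : X),
      |ww Φ n l P l' c - ww Φ n l P l' c'| ≤ κ * dist c c') ∧
    (∀ (s l : ℕ), l < s → ∀ t ∈ blk n l, 1 ≤ t ∧ t ≤ LL s n - 1) ∧
    (∀ (l l' : ℕ), l ≠ l' → 2 * n + 2 ≤ |tt n l - tt n l'| ∧
      ∀ t ∈ blk n l, ∀ t' ∈ blk n l', 2 ≤ |t - t'|)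

/-- **GPx** (100 lines, uses `S_Slice`, `S_Wb`). General position after adding one marker.

Proof. Let `C_J = {c | ∀ x ∈ J, ww .. c = x.1.ρ}`. The set of the bad `ρ` is contained in the union,
over the finitely many finsets `J'` of elements of `S ×ˢ range s` which satisfy the conditions of
`GP` and have `J'.card + 1 ≤ s`, and over `l' < s`, of
`{ρ | ¬ NullD dist (s - J'.card - 1) (C_J' ∩ {c | ww Φ n l P l' c = ρ})}`, which is null by `S_Slice`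
(`s - J'.card = (s - J'.card - 1) + 1`, `Wb` (4)). Indeed let `J` be as in `GP` for
`insert ⟨k, l, P, ρ⟩ S`. If no `x ∈ J` has `x.1 = ⟨k, l, P, ρ⟩` then all `x.1 ∈ S`: `GP` for `S`.
Otherwise there is exactly one such `x = (⟨k, l, P, ρ⟩, l')`; `J' = J.erase x` and
`C_J = C_J' ∩ {ww .. l' = ρ}`. -/
def S_GPx : Prop :=
  ∀ (X : Type) [PseudoMetricSpace X] (Φ : ℝ → X → X), PFl X Φ → ∀ n : ℝ, 1 ≤ n →
    ∀ (s : ℕ) (S : Set (Mk X)), S.Finite → GP Φ n s S → ∀ (k l : ℕ) (P : Set X),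
      volume {ρ : ℝ | ¬ GP Φ n s (insert ⟨k, l, P, ρ⟩ S)} = 0

/-- **Add** (70 lines, uses `S_GPx`). Adding one marker for every `l < s`, with small `ρ`.

Proof. Induction on `j ≤ s` for the sets `S ∪ {μ | ∃ l < j, (P l).Nonempty ∧ μ = ⟨k, l, P l, ρ l⟩}`
(finite): in the step take `ρ j ∈ (0, δ)` outside of the null set of `S_GPx` (`volume (Ioo 0 δ) > 0`,
`Function.update`); if `P j` is empty nothing changes. -/
def S_Add : Prop :=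
  ∀ (X : Type) [PseudoMetricSpace X] (Φ : ℝ → X → X), PFl X Φ → ∀ n : ℝ, 1 ≤ n →
    ∀ (s : ℕ) (S : Set (Mk X)), S.Finite → GP Φ n s S → ∀ (k : ℕ) (P : ℕ → Set X) (δ : ℝ), 0 < δ →
      ∃ ρ : ℕ → ℝ, (∀ l, 0 < ρ l ∧ ρ l < δ) ∧
        GP Φ n s (S ∪ {μ | ∃ l < s, (P l).Nonempty ∧ μ = ⟨k, l, P l, ρ l⟩})

/-- **Kap** (60 lines, uses `S_Wb`). Compactness.

Proof. `IsCompact.induction_on` for the property `p E` of subsets `E` of `Q'`: there is `κ > 0` such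
that for all `c ∈ E` there is `l < s` with `μ.ρ + κ ≤ ww .. l c` for all `μ ∈ S`. Locally: given
`c` and `l`, there is `κ > 0` with `μ.ρ + κ < ww .. l c` for all `μ ∈ S` (`S` finite), and by
continuity (`Wb` (4)) the same holds near `c`. -/
def S_Kap : Prop :=
  ∀ (X : Type) [PseudoMetricSpace X] (Φ : ℝ → X → X), PFl X Φ → ∀ n : ℝ, 1 ≤ n →
    ∀ (s : ℕ) (S : Set (Mk X)), S.Finite → ∀ Q' : Set X, IsCompact Q' →
      (∀ c ∈ Q', ∃ l < s, ∀ μ ∈ S, μ.ρ < ww Φ n μ.l μ.P l c) →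
      ∃ κ : ℝ, 0 < κ ∧ ∀ c ∈ Q', ∃ l < s, ∀ μ ∈ S, μ.ρ + κ ≤ ww Φ n μ.l μ.P l c

/-- **Clm** (90 lines, uses `S_Wb`). An uncovered point has a free block.

Proof. Otherwise for all `l < s` there is `μ_l ∈ S` with `ww .. l c = μ_l.ρ`. If `μ_l = μ_l' = μ` for
`l ≠ l'` then by `Wb` (1) there are `t ∈ blk n l`, `t' ∈ blk n l'` with
`vv (Φ t c) = μ.ρ = vv (Φ t' c)`, `2 ≤ |t - t'| ≤ WW s n` (`Wb` (5), (6)). Let
`c₁ = Φ (-(tt n μ.l)) (Φ t c)`; `infDist c₁ μ.P = μ.ρ ≤ η`, so `infDist c₁ (Q μ.k) ≤ η`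
(`Metric.infDist_le_infDist_of_subset`), and the same for `Φ (t' - t) c₁`; `NR` gives
`|t' - t| ≤ θ ≤ 1`. So `J = {(μ_l, l) | l < s}` satisfies the conditions of `GP`, `J.card = s`, and `c`
is in a `0`-null set. -/
def S_Clm : Prop :=
  ∀ (X : Type) [PseudoMetricSpace X] (Φ : ℝ → X → X), PFl X Φ → ∀ n : ℝ, 1 ≤ n →
    ∀ (s : ℕ) (Q : ℕ → Set X) (θ : ℕ → ℝ) (η : ℝ) (m : ℕ) (S : Set (Mk X)),
      (∀ k < m, HQ Φ n s (Q k) (θ k) η) → Gd Φ n s Q θ η m S →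
      ∀ c : X, (∀ μ ∈ S, ∀ l < s, μ.ρ ≤ ww Φ n μ.l μ.P l c) →
        ∃ l < s, ∀ μ ∈ S, μ.ρ < ww Φ n μ.l μ.P l c

/-- **Stp** (200 lines, uses `S_Wb`, `S_Add`, `S_Kap`, `S_Clm`). The inductive step.

Proof. `Q' = {c ∈ Q m | ∀ μ ∈ S, ∀ l < s, μ.ρ ≤ ww .. l c}`: closed in `Q m`, compact. `κ` from
`S_Clm`, `S_Kap`; `P l = {c ∈ Q' | ∀ μ ∈ S, μ.ρ + κ ≤ ww .. l c}`. Let `Λ ≥ 1` be a Lipschitz constant
of `vv μ.l μ.P (Φ t ·)`, `|t| ≤ LL s n + n`, for all `μ.l < s` (`Wb` (3), finitely many `l`),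
`δ = min η (κ / (Λ + 1))`. `S_Add` gives `ρ`; the new set is `S ∪ N`,
`N = {⟨m, l, P l, ρ l⟩ | l < s, P l ≠ ∅}`. All fields except `sep`, `cov` are clear (`gp` by `S_Add`).
`cov`: for `k < m` old; for `c ∈ Q m`: if `c ∉ Q'` then some `μ ∈ S`, `l < s` has `ww .. l c < μ.ρ`, use
`Wb` (1), (5); if `c ∈ Q'` then `c ∈ P l` for some `l < s`, and `vv (Φ (tt n l) c) = infDist c (P l) = 0`.
`sep`. CASE `μ = ⟨m, l, P l, ρ l⟩ ∈ N`, `ν ∈ S`, `vv μ c ≤ μ.ρ`, `vv ν (Φ t c) ≤ ν.ρ`, `|t| ≤ n`: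
`c₁ = Φ (-(tt n l)) c`, `infDist c₁ (P l) ≤ ρ l < κ/(Λ+1)`, so there is `c₂ ∈ P l` with
`dist c₁ c₂ < κ/(Λ+1)` (`Metric.infDist_lt_iff`). `tt n l + t ∈ blk n l`, so
`vv ν (Φ (tt n l + t) c₂) ≥ ww ν l c₂ ≥ ν.ρ + κ` and
`vv ν (Φ t c) = vv ν (Φ (tt n l + t) c₁) ≥ ν.ρ + κ - Λ κ/(Λ+1) > ν.ρ`: impossible. CASE `μ ∈ S`,
`ν ∈ N`: the previous case for the points `Φ t c`, `c` and the time `-t`: impossible. CASE both in
`N`, with `l`, `l'`: `c₁ = Φ (-(tt n l)) c` and `Φ (t + tt n l - tt n l') c₁ = Φ (-(tt n l')) (Φ t c)`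
have `infDist` at most `ρ < η` from `P l`, `P l'`, so from `Q m`; `|t + tt n l - tt n l'| ≤ WW s n`; `NR`
gives `|t + tt n l - tt n l'| ≤ θ m ≤ 1`; `l ≠ l'` is impossible by `Wb` (6) as `|t| ≤ n`; so `l = l'` and
`|t| ≤ θ m`. CASE both in `S`: old. -/
def S_Stp : Prop :=
  ∀ (X : Type) [PseudoMetricSpace X] (Φ : ℝ → X → X), PFl X Φ → ∀ n : ℝ, 1 ≤ n →
    ∀ (s : ℕ) (Q : ℕ → Set X) (θ : ℕ → ℝ) (η : ℝ), 0 < η → ∀ (m : ℕ) (S : Set (Mk X)),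
      (∀ k < m + 1, HQ Φ n s (Q k) (θ k) η) → Gd Φ n s Q θ η m S →
      ∃ S' : Set (Mk X), Gd Φ n s Q θ η (m + 1) S'

/-- **Mrk** (40 lines, uses `S_Stp`). The marker lemma.

Proof. Induction on `m`; `m = 0`: `S = ∅`, in `GP` the finset `J` is empty. -/
def S_Mrk : Prop :=
  ∀ (X : Type) [PseudoMetricSpace X] (Φ : ℝ → X → X), PFl X Φ → ∀ n : ℝ, 1 ≤ n →
    ∀ s : ℕ, NullD (fun x y : X => dist x y) s univ →
    ∀ (Q : ℕ → Set X) (θ : ℕ → ℝ) (η : ℝ), 0 < η → ∀ m : ℕ,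
      (∀ k < m, HQ Φ n s (Q k) (θ k) η) → ∃ S : Set (Mk X), Gd Φ n s Q θ η m S

/-! ## The version with a group -/

/-- **Orb** (70 lines). The space `X` with the pseudo-metric `inf_g d(x, g y)`.

Proof. (1) `PFl.tim` from `od_le_dist` and `Fl.geo`; `lip`: for all `g`
`od (Φ t c) (Φ t c') ≤ dist (Φ t c) (g • Φ t c') = dist (Φ t c) (Φ t (g • c')) ≤ κ dist c (g • c')`, take
the infimum. (2) `od ≤ dist`, induction is not needed: cases on `s`. (3) the identity `X → OX G X` is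
continuous (`1`-Lipschitz), `IsCompact.image`. (4) only finitely many `g` have
`dist x (g • y) ≤ od x y + 1` (`Fl.prp`: `dist (g • y) y ≤ dist (g • y) x + dist x y`), so the infimum is a
minimum. -/
def S_Orb : Prop :=
  ∀ (G X : Type) [Group G] [MetricSpace X] [MulAction G X] [IsIsometricSMul G X]
    (Φ : ℝ → X → X), Fl G X Φ →
    PFl (OX G X) Φ ∧
    (∀ s : ℕ, NullD (fun x y : X => dist x y) s univ →
      NullD (fun x y : OX G X => dist x y) s univ) ∧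
    (∀ K : Set X, IsCompact K → @IsCompact (OX G X) _ K) ∧
    ∀ x y : X, ∃ g : G, od G x y = dist x (g • y)

/-- **Ctr** (90 lines, uses `S_Orb`). The radius at a point without short periods.

Proof. By `Fl.prp` there is `sep > 0` with `dist (g • c₀) c₀ < sep → g • c₀ = c₀` (finitely many `g` with
distance at most `1`). `θ = min 1 (sep / 4)`. The function `t ↦ od (Φ t c₀) c₀` is `1`-Lipschitz
(`od_le_dist`, triangle inequality of `od`), so it has a minimum `ω` on the compact set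
`{t | θ ≤ |t| ≤ W}` (if it is empty take `ω = 1`). `ω > 0`: if `od (Φ t c₀) c₀ = 0` then by `S_Orb` (4)
`Φ t c₀ = g • c₀` for some `g`; `t > 0`: excluded by the hypothesis; `t < 0`: `g⁻¹ • c₀ = Φ (-t) c₀`,
excluded too. Let `κ` be from `Fl.lip` for `W` and `ε > 0` with `ε < sep / 24`, `3 (1 + κ) ε < ω`.
If `dist c (g • c₀) ≤ 3 ε`, `dist (Φ t c) (g' • c₀) ≤ 3 ε`, `|t| ≤ W`, `θ < |t|` then
`od (Φ t c₀) c₀ ≤ dist (Φ t (g • c₀)) (g' • c₀) ≤ κ 3 ε + 3 ε < ω`, contradiction. -/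
def S_Ctr : Prop :=
  ∀ (G X : Type) [Group G] [MetricSpace X] [MulAction G X] [IsIsometricSMul G X]
    (Φ : ℝ → X → X), Fl G X Φ → ∀ (W : ℝ) (c₀ : X),
    (∀ (g : G) (t : ℝ), 0 < t → t ≤ W → g • c₀ ≠ Φ t c₀) →
    ∃ ε θ : ℝ, 0 < ε ∧ 0 < θ ∧ θ ≤ 1 ∧
      (∀ (c : X) (t : ℝ) (g g' : G), |t| ≤ W → dist c (g • c₀) ≤ 3 * ε →
        dist (Φ t c) (g' • c₀) ≤ 3 * ε → |t| ≤ θ) ∧
      ∀ g : G, dist (g • c₀) c₀ ≤ 4 * ε + θ → g • c₀ = c₀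

/-- **Cov** (100 lines, uses `S_Orb`, `S_Ctr`). The finitely many small sets.

Proof. Choose `ε`, `θ` for every `c₀ ∈ K` (`S_Ctr` with `W = WW s n`). Finitely many open balls
`ball (c_k) (ε_k)` with `c_k ∈ K`, `k < m`, cover `K` (list the elements of the finset; `m = 0` if `K` is
empty). `Q k = K ∩ closedBall (c_k) (ε_k)` (closed ball for `dist`): compact, contains `c_k`.
`η = min ε_k` (`1` if `m = 0`). `NR` in `OX G X`: let `infDist c (Q k) ≤ η ≤ ε_k` (in `OX`): there is `q ∈ Q k`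
with `od c q < 2 ε_k`, so `dist c (g • q) < 2 ε_k` for some `g`, and
`dist c (g • c_k) ≤ dist c (g • q) + dist q c_k ≤ 3 ε_k`. The same for `Φ t c`. Use the property of
`ε_k`, `θ_k`. -/
def S_Cov : Prop :=
  ∀ (G X : Type) [Group G] [MetricSpace X] [MulAction G X] [IsIsometricSMul G X]
    (Φ : ℝ → X → X), Fl G X Φ → Nonempty X → ∀ (n : ℝ), 1 ≤ n → ∀ (s : ℕ) (K : Set X), IsCompact K →
    (∀ c ∈ K, ∀ (g : G) (t : ℝ), 0 < t → t ≤ WW s n → g • c ≠ Φ t c) →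
    ∃ (m : ℕ) (x : ℕ → X) (ε θ : ℕ → ℝ) (Q : ℕ → Set X) (η : ℝ), 0 < η ∧
      (∀ k < m, @HQ (OX G X) _ Φ n s (Q k) (θ k) η) ∧ (∀ c ∈ K, ∃ k < m, c ∈ Q k) ∧
      (∀ k < m, η ≤ ε k) ∧ (∀ k < m, ∀ c ∈ Q k, dist c (x k) ≤ ε k) ∧
      ∀ k < m, ∀ g : G, dist (g • x k) (x k) ≤ 4 * ε k + θ k → g • x k = x k

/-- **Slw** (130 lines). The sup-convolution.

Proof. The set in the definition of `slw` is bounded by `1` and contains `0 ≤ max 0 _` (1). (2): the term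
of `t` for `Φ s c` is the term of `t + s` for `c` up to `|s| / α`. (3): terms with `|t| ≥ L + α` are `0`; for
`|t| < L + α` use `κ` for `T = L + α` and `Λ`. (4) some term is positive. (5) clear. (6) equal sets. -/
def S_Slw : Prop :=
  ∀ (X : Type) [PseudoMetricSpace X] (Φ : ℝ → X → X), PFl X Φ → ∀ (L α : ℝ), 0 ≤ L → 0 < α →
    (∀ b : X → ℝ, (∀ c, 0 ≤ b c ∧ b c ≤ 1) → (∀ c, 0 ≤ slw Φ b L α c ∧ slw Φ b L α c ≤ 1) ∧
      (∀ (c : X) (t : ℝ), |slw Φ b L α (Φ t c) - slw Φ b L α c| ≤ |t| / α) ∧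
      (∀ c, slw Φ b L α c ≠ 0 → ∃ t : ℝ, |t| < L + α ∧ 0 < b (Φ t c)) ∧
      ∀ (c : X) (t : ℝ), |t| ≤ L → b (Φ t c) ≤ slw Φ b L α c) ∧
    (∀ Λ : ℝ, 0 ≤ Λ → ∃ Λ' : ℝ, 0 ≤ Λ' ∧ ∀ b : X → ℝ, (∀ c, 0 ≤ b c ∧ b c ≤ 1) →
      (∀ c c', |b c - b c'| ≤ Λ * dist c c') →
      ∀ c c', |slw Φ b L α c - slw Φ b L α c'| ≤ Λ' * dist c c') ∧
    ∀ (b b' : X → ℝ) (ψ : X → X), (∀ t c, Φ t (ψ c) = ψ (Φ t c)) → (∀ c, b' (ψ c) = b c) →
      ∀ c, slw Φ b' L α (ψ c) = slw Φ b L α c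

/-- **Cnt** (50 lines). Counting separated times.

Proof. `v ↦ ⌊τ v / n⌋` is injective on `A` (equal floors: `|τ v - τ w| < n`) with values in `[-N, N)`. -/
def S_Cnt : Prop :=
  ∀ (V : Type) (A : Set V) (τ : V → ℝ) (n : ℝ) (N : ℕ), 0 < n → (∀ v ∈ A, |τ v| < N * n) →
    (∀ v ∈ A, ∀ w ∈ A, v ≠ w → n < |τ v - τ w|) → A.Finite ∧ A.ncard ≤ 2 * N

/-- **Mar** (60 lines, uses `S_Wb`). A margin in the covering property.

Proof. `IsCompact.induction_on`: locally, if `vv (Φ t c) < μ.ρ - σ` then the same holds near `c`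
(`Wb` (3)). -/
def S_Mar : Prop :=
  ∀ (X : Type) [PseudoMetricSpace X] (Φ : ℝ → X → X), PFl X Φ → ∀ n : ℝ, 1 ≤ n →
    ∀ (L : ℝ) (S : Set (Mk X)) (K : Set X), IsCompact K →
      (∀ c ∈ K, ∃ μ ∈ S, ∃ t : ℝ, 0 ≤ t ∧ t ≤ L ∧ vv Φ n μ.l μ.P (Φ t c) < μ.ρ) →
      ∃ σ : ℝ, 0 < σ ∧ ∀ c ∈ K, ∃ μ ∈ S, ∃ t : ℝ, 0 ≤ t ∧ t ≤ L ∧
        vv Φ n μ.l μ.P (Φ t c) ≤ μ.ρ - σ

/-- the lift of `P ⊆ closedBall x₀ ε` at the point `x` of the orbit of `x₀` -/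
def lift (G : Type) {X : Type} [Group G] [MulAction G X] (P : Set X) (x₀ x : X) : Set X :=
  {p | ∃ h : G, h • x₀ = x ∧ ∃ p' ∈ P, p = h • p'}

open Classical in
/-- the bump function of the marker `(l, P, ρ)` at the point `x` of the orbit of `x₀` -/
noncomputable def bmp (G : Type) {X : Type} [Group G] [MetricSpace X] [MulAction G X]
    (Φ : ℝ → X → X) (n : ℝ) (l : ℕ) (P : Set X) (ρ σ : ℝ) (x₀ x : X) (c : X) : ℝ :=
  if (lift G P x₀ x).Nonempty then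
    min 1 (max 0 ((ρ - Metric.infDist (Φ (-(tt n l)) c) (lift G P x₀ x)) / σ)) else 0

/-- **Bmp** (130 lines, uses `S_Orb`). The bump functions.

Proof. (1) clear. (2) `infDist` is `1`-Lipschitz, `κ` for `T = |tt n l|`. (3)
`lift P x₀ (g • x) = g • lift P x₀ x`, `infDist (g • c) (g • A) = infDist c A`, `Φ` commutes with `g`. (4) if
`bmp c > 0` then `lift` is nonempty, `infDist (Φ ..) (lift ..) < ρ`, so some `h • p'` with `h • x₀ = x` has distance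
`< ρ` from `Φ (-(tt n l)) c`: `vv` in `OX G X` is smaller than `ρ` (`od_le`), and
`dist (Φ ..) x ≤ dist (Φ ..) (h • p') + dist p' x₀ < ρ + ε`. (5) `vv` in `OX G X` is
`inf` over `p ∈ P` of `od (Φ ..) p`; if it is `≤ ρ - σ`: for every `δ > 0` there are `p ∈ P` and (by `S_Orb` (4))
`h` with `dist (Φ ..) (h • p) ≤ ρ - σ + δ`. There are only finitely many points `h • x₀`, `h ∈ G`, in a ball,
so some `x = h • x₀` works for arbitrarily small `δ`: `infDist (Φ ..) (lift P x₀ x) ≤ ρ - σ`, `bmp = 1`.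
(Or: state and prove (5) directly: choose for `δ = 1/(j+1)` points `x_j`; they are in the finite set
`{x | ∃ h, x = h • x₀ ∧ dist (Φ ..) x ≤ ρ + 1 + ε}`; one value occurs infinitely often.) -/
def S_Bmp : Prop :=
  ∀ (G X : Type) [Group G] [MetricSpace X] [MulAction G X] [IsIsometricSMul G X]
    (Φ : ℝ → X → X), Fl G X Φ → ∀ (n : ℝ) (l : ℕ),
    (∀ (P : Set X) (ρ σ : ℝ) (x₀ x c : X), 0 ≤ bmp G Φ n l P ρ σ x₀ x c ∧
      bmp G Φ n l P ρ σ x₀ x c ≤ 1) ∧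
    (∀ σ : ℝ, 0 < σ → ∃ Λ : ℝ, 0 ≤ Λ ∧ ∀ (P : Set X) (ρ : ℝ) (x₀ x c c' : X),
      |bmp G Φ n l P ρ σ x₀ x c - bmp G Φ n l P ρ σ x₀ x c'| ≤ Λ * dist c c') ∧
    (∀ (P : Set X) (ρ σ : ℝ) (x₀ x c : X) (g : G),
      bmp G Φ n l P ρ σ x₀ (g • x) (g • c) = bmp G Φ n l P ρ σ x₀ x c) ∧
    (∀ (P : Set X) (ρ σ ε : ℝ) (x₀ x c : X), 0 < σ → (∀ p ∈ P, dist p x₀ ≤ ε) →
      0 < bmp G Φ n l P ρ σ x₀ x c → @vv (OX G X) _ Φ n l P c < ρ ∧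
        dist (Φ (-(tt n l)) c) x < ρ + ε ∧ ∃ h : G, h • x₀ = x) ∧
    ∀ (P : Set X) (ρ σ ε : ℝ) (x₀ c : X), 0 < σ → P.Nonempty → (∀ p ∈ P, dist p x₀ ≤ ε) →
      @vv (OX G X) _ Φ n l P c ≤ ρ - σ → ∃ x : X, bmp G Φ n l P ρ σ x₀ x c = 1

/-- **III** (180 lines, uses `S_Mrk`, `S_Orb`, `S_Cov`, `S_Slw`, `S_Cnt`, `S_Wb`, `S_Mar`, `S_Bmp`). Long thin
families on a compact set without short periods.

Proof. `[IsIsometricSMul G X]` from `Fl.iso`. `n = α`, `S_Cov` gives `m, x, ε, θ, Q, η`, `S_Mrk` in `OX G X` gives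
`S` with `Gd`; `S_Mar` in `OX G X` for `K'` (compact by `S_Orb` (3), `cov`, every `c ∈ K'` is in some `Q k`) gives
`σ`, `L = LL s α`. `V = {μ // μ ∈ S} × X` with `g • (μ, y) = (μ, g • y)`,
`b (μ, y) = bmp G Φ α μ.l μ.P μ.ρ σ (x μ.k) y`, `f (μ, y) = slw Φ (b (μ, y)) L α`. Equivariance: `S_Slw` (last),
`S_Bmp` (3). Slow, `0 ≤ f ≤ 1`: `S_Slw`. Lipschitz: `S_Bmp` (2) for the finitely many `μ ∈ S` (maximum of the
constants), `S_Slw`. `c ∈ K'`: `σ` gives `μ ∈ S`, `t ∈ [0, L]` with `vv (Φ t c) ≤ μ.ρ - σ`, `S_Bmp` (5) gives `y`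
with `b (μ, y) (Φ t c) = 1`, so `f (μ, y) c = 1`. MULTIPLICITY: if `f (μ, y) c ≠ 0` choose `τ (μ, y)` with
`|τ| < L + α`, `0 < b (μ, y) (Φ τ c)`; `L + α ≤ (4 s + 1) α` (`LL s α = s (2 α + 2) ≤ 4 s α`). Two such `v = (μ, y)`,
`w = (ν, z)` with `|τ v - τ w| ≤ α`: `S_Bmp` (4) and `Gd.sep` (at the point `Φ (τ v) c`, time `τ w - τ v`) give `μ = ν`,
`|τ v - τ w| ≤ θ μ.k`, and `dist (Φ (τ v - tt) c) y < μ.ρ + ε`, `dist (Φ (τ w - tt) c) z < μ.ρ + ε`,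
`μ.ρ < η ≤ ε μ.k`, so `dist y z < 4 ε + θ`; `y = h • x μ.k`, `z = h' • x μ.k`, so
`dist ((h'⁻¹ h) • x μ.k) (x μ.k) ≤ 4 ε + θ` and `y = z` (`S_Cov`, last). So `S_Cnt` with `N = 4 s + 1`.
STABILIZER of `(μ, y)` with `f (μ, y) c ≠ 0`: `{g | g • y = y}`, finite by `Fl.prp`. -/
def S_III : Prop :=
  ∀ (G X : Type) [Group G] [MetricSpace X] [MulAction G X] (Φ : ℝ → X → X), Fl G X Φ →
    ∀ s : ℕ, NullD (fun x y : X => dist x y) s univ → ∀ α : ℝ, 1 ≤ α → ∀ K' : Set X, IsCompact K' →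
    (∀ c ∈ K', ∀ (g : G) (t : ℝ), 0 < t → t ≤ WW s α → g • c ≠ Φ t c) →
    ∃ (V : Type) (_ : MulAction G V) (f : V → X → ℝ) (Λ : ℝ),
      (∀ v c, 0 ≤ f v c ∧ f v c ≤ 1) ∧ (∀ (g : G) v c, f (g • v) (g • c) = f v c) ∧
      (∀ v c t, |f v (Φ t c) - f v c| ≤ |t| / α) ∧
      (∀ v c c', |f v c - f v c'| ≤ Λ * dist c c') ∧
      (∀ c, {v | f v c ≠ 0}.Finite ∧ {v | f v c ≠ 0}.ncard ≤ 8 * s + 12) ∧
      (∀ c ∈ K', ∃ v, f v c = 1) ∧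
      ∀ v c, f v c ≠ 0 → {g : G | g • v = v}.Finite

end Pool.Agent.ZF
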