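import Mathlib
import Pool.Agent.Lib.MP_8f66f0_al_ZF.Spec

/-!
# Project ZERO, part F, block Bmp: the bump functions
-/

set_option autoImplicit false

namespace Pool.Agent.ZF

open MeasureTheory Set

namespace BmpAux

theorem clamp_lip (a b : ℝ) : |min 1 (max 0 a) - min 1 (max 0 b)| ≤ |a - b| := by
  have h1 := abs_min_sub_min_le_max 1 (max 0 a) 1 (max 0 b)
  have h2 := abs_max_sub_max_le_max 0 a 0 b
  rw [sub_self, abs_zero] at h1 h2
  rw [max_eq_right (abs_nonneg (max 0 a - max 0 b))] at h1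
  rw [max_eq_right (abs_nonneg (a - b))] at h2
  exact h1.trans h2

section

variable {G X : Type} [Group G] [MetricSpace X] [MulAction G X]

theorem infDist_lip (x y : X) (s : Set X) : |Metric.infDist x s - Metric.infDist y s| ≤ dist x y := by
  have h1 := Metric.infDist_le_infDist_add_dist (s := s) (x := x) (y := y)
  have h2 := Metric.infDist_le_infDist_add_dist (s := s) (x := y) (y := x)
  rw [dist_comm y x] at h2
  rw [abs_le]
  constructor <;> linarith

omit [MetricSpace X] in
theorem lift_smul (P : Set X) (x₀ x : X) (g : G) :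
    lift G P x₀ (g • x) = (fun y => g • y) '' lift G P x₀ x := by
  ext p
  constructor
  · rintro ⟨h, hh, p', hp', rfl⟩
    refine ⟨(g⁻¹ * h) • p', ⟨g⁻¹ * h, ?_, p', hp', rfl⟩, ?_⟩
    · rw [mul_smul, hh, inv_smul_smul]
    · change g • ((g⁻¹ * h) • p') = h • p'
      rw [mul_smul, smul_inv_smul]
  · rintro ⟨_, ⟨h, hh, p', hp', rfl⟩, rfl⟩
    refine ⟨g * h, ?_, p', hp', ?_⟩
    · rw [mul_smul, hh]
    · change g • (h • p') = (g * h) • p'
      rw [mul_smul]

end

end BmpAux

open BmpAux in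
theorem t_Bmp (h1 : S_Orb) : S_Bmp := by
  intro G X _ _ _ _ Φ hΦ n l
  have _ := h1
  refine ⟨?_, ?_, ?_, ?_, ?_⟩
  · intro P ρ σ x₀ x c
    unfold bmp
    split_ifs
    · exact ⟨le_min zero_le_one (le_max_left _ _), min_le_left _ _⟩
    · exact ⟨le_rfl, zero_le_one⟩
  · intro σ hσ
    obtain ⟨κ, hκ, hκ'⟩ := hΦ.lip |(-(tt n l))|
    have hκ0 : 0 ≤ κ := by linarith
    refine ⟨κ / σ, div_nonneg hκ0 hσ.le, fun P ρ x₀ x c c' => ?_⟩
    unfold bmp
    split_ifs with hne
    · refine (clamp_lip _ _).trans ?_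
      rw [← sub_div, abs_div, abs_of_pos hσ, div_mul_eq_mul_div]
      refine div_le_div_of_nonneg_right ?_ hσ.le
      have e : ρ - Metric.infDist (Φ (-(tt n l)) c) (lift G P x₀ x) -
          (ρ - Metric.infDist (Φ (-(tt n l)) c') (lift G P x₀ x)) =
          -(Metric.infDist (Φ (-(tt n l)) c) (lift G P x₀ x) -
            Metric.infDist (Φ (-(tt n l)) c') (lift G P x₀ x)) := by ring
      rw [e, abs_neg]
      exact (infDist_lip _ _ _).trans (hκ' _ _ _ le_rfl)
    · rw [sub_self, abs_zero]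
      positivity
  · intro P ρ σ x₀ x c g
    unfold bmp
    rw [lift_smul, hΦ.comm, Metric.infDist_image (isometry_smul X g), Set.image_nonempty]
  · intro P ρ σ ε x₀ x c hσ hP hpos
    unfold bmp at hpos
    split_ifs at hpos with hne
    · have h2 : 0 < (ρ - Metric.infDist (Φ (-(tt n l)) c) (lift G P x₀ x)) / σ := by
        by_contra hcon
        rw [not_lt] at hcon
        rw [max_eq_left hcon, min_eq_right zero_le_one] at hpos
        exact lt_irrefl _ hpos
      have h3 : Metric.infDist (Φ (-(tt n l)) c) (lift G P x₀ x) < ρ := by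
        have := (div_pos_iff_of_pos_right hσ).1 h2
        linarith
      obtain ⟨q, ⟨h, hh, p, hp, rfl⟩, hq⟩ := (Metric.infDist_lt_iff hne).1 h3
      refine ⟨?_, ?_, h, hh⟩
      · have h4 : @vv (OX G X) _ Φ n l P c ≤ od G (Φ (-(tt n l)) c) p :=
          @Metric.infDist_le_dist_of_mem (OX G X) _ P (Φ (-(tt n l)) c) p hp
        exact h4.trans_lt ((od_le h _ _).trans_lt hq)
      · have h4 := dist_triangle (Φ (-(tt n l)) c) (h • p) x
        rw [← hh, dist_smul] at h4
        rw [← hh]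
        have h5 := hP p hp
        linarith
    · exact absurd hpos (lt_irrefl _)
  · intro P ρ σ ε x₀ c hσ hPne hP hle
    obtain ⟨y, hy⟩ : ∃ y : X, y = Φ (-(tt n l)) c := ⟨_, rfl⟩
    have hex : ∀ j : ℕ, ∃ g : G, ∃ p ∈ P, dist y (g • p) < ρ - σ + 1 / ((j : ℝ) + 1) := by
      intro j
      have hj : (0 : ℝ) < 1 / ((j : ℝ) + 1) := by positivity
      have h2 : @Metric.infDist (OX G X) _ y P < ρ - σ + 1 / ((j : ℝ) + 1) := by
        have : @vv (OX G X) _ Φ n l P c = @Metric.infDist (OX G X) _ y P := by rw [hy]; rfl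
        rw [← this]
        linarith
      obtain ⟨p, hp, hlt⟩ := (@Metric.infDist_lt_iff (OX G X) _ P y _ hPne).1 h2
      rw [dist_OX] at hlt
      obtain ⟨g, hg⟩ := od_lt hlt
      exact ⟨g, p, hp, hg⟩
    choose g p hp hg using hex
    have hF := hΦ.prp x₀ (ρ - σ + 1 + ε + dist y x₀)
    have hmem : ∀ j, g j ∈ {g : G | dist (g • x₀) x₀ ≤ ρ - σ + 1 + ε + dist y x₀} := by
      intro j
      have h2 : 1 / ((j : ℝ) + 1) ≤ 1 := by
        rw [div_le_one (by positivity)]
        have : (0 : ℝ) ≤ j := Nat.cast_nonneg j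
        linarith
      have h3 := dist_triangle (g j • x₀) (g j • p j) x₀
      have h4 := dist_triangle (g j • p j) y x₀
      rw [dist_smul, dist_comm x₀ (p j)] at h3
      rw [dist_comm (g j • p j) y] at h4
      have h5 := hP (p j) (hp j)
      have h6 := hg j
      change dist (g j • x₀) x₀ ≤ _
      linarith
    have := hF.to_subtype
    let f : ℕ → {g : G | dist (g • x₀) x₀ ≤ ρ - σ + 1 + ε + dist y x₀} := fun j => ⟨g j, hmem j⟩
    obtain ⟨h, hinf⟩ := Finite.exists_infinite_fiber f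
    have hinf' : (f ⁻¹' {h}).Infinite := Set.infinite_coe_iff.1 hinf
    refine ⟨(h : G) • x₀, ?_⟩
    have hin : ∀ j ∈ f ⁻¹' {h}, (h : G) • p j ∈ lift G P x₀ ((h : G) • x₀) := fun j _ =>
      ⟨h, rfl, p j, hp j, rfl⟩
    have hne : (lift G P x₀ ((h : G) • x₀)).Nonempty := by
      obtain ⟨j, hj⟩ := hinf'.nonempty
      exact ⟨_, hin j hj⟩
    have hd : Metric.infDist y (lift G P x₀ ((h : G) • x₀)) ≤ ρ - σ := by
      refine le_of_forall_pos_le_add fun δ hδ => ?_
      obtain ⟨N, hN⟩ := exists_nat_one_div_lt hδ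
      obtain ⟨j, hj, hNj⟩ := hinf'.exists_gt N
      have h2 : g j = h := by
        have : f j = h := hj
        rw [← this]
      have h3 := hg j
      rw [h2] at h3
      have h4 : 1 / ((j : ℝ) + 1) ≤ 1 / ((N : ℝ) + 1) := by
        apply one_div_le_one_div_of_le (by positivity)
        have : (N : ℝ) ≤ j := by exact_mod_cast hNj.le
        linarith
      have h5 := Metric.infDist_le_dist_of_mem (x := y) (hin j hj)
      linarith
    unfold bmp
    rw [if_pos hne, ← hy]
    have h2 : 1 ≤ (ρ - Metric.infDist y (lift G P x₀ ((h : G) • x₀))) / σ := by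
      rw [le_div_iff₀ hσ]
      linarith
    rw [max_eq_right (zero_le_one.trans h2), min_eq_left h2]

end Pool.Agent.ZF
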