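import Pool.Agent.Lib.MP_8f66f0_al_ZF.Spec

/-! Project ZERO, part F: the finitely many small sets. -/

set_option autoImplicit false

namespace Pool.Agent.ZF

open MeasureTheory Set Metric

theorem t_Cov (h1 : S_Orb) (h2 : S_Ctr) : S_Cov := by
  classical
  intro G X _ _ _ _ Φ hΦ ⟨x₀⟩ n hn s K hK hper
  obtain ⟨o1, o2, o3, o4⟩ := h1 G X Φ hΦ
  have hloc : ∀ c₀ : X, ∃ ε θ : ℝ, c₀ ∈ K → 0 < ε ∧ 0 < θ ∧ θ ≤ 1 ∧
      (∀ (c : X) (t : ℝ) (g g' : G), |t| ≤ WW s n → dist c (g • c₀) ≤ 3 * ε →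
        dist (Φ t c) (g' • c₀) ≤ 3 * ε → |t| ≤ θ) ∧
      ∀ g : G, dist (g • c₀) c₀ ≤ 4 * ε + θ → g • c₀ = c₀ := by
    intro c₀
    by_cases hc : c₀ ∈ K
    · obtain ⟨ε, θ, h⟩ := h2 G X Φ hΦ (WW s n) c₀ (fun g t => hper c₀ hc g t)
      exact ⟨ε, θ, fun _ => h⟩
    · exact ⟨0, 0, fun h => absurd h hc⟩
  choose ε θ hεθ using hloc
  obtain ⟨F, hF⟩ := hK.elim_nhds_subcover' (fun c _ => ball c (ε c)) fun c hc =>
    ball_mem_nhds c (hεθ c hc).1
  set L : List K := F.toList with hL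
  set x : ℕ → X := fun k => if h : k < L.length then (L[k] : K).1 else x₀ with hx
  have hxK : ∀ k < L.length, x k ∈ K := by
    intro k hk
    simp only [hx]
    rw [dif_pos hk]
    exact (L[k] : K).2
  obtain ⟨η, hη, hηε⟩ : ∃ η : ℝ, 0 < η ∧ ∀ k < L.length, η ≤ ε (x k) := by
    rcases Nat.eq_zero_or_pos L.length with h0 | h0
    · exact ⟨1, one_pos, fun k hk => absurd hk (by omega)⟩
    · obtain ⟨k₀, hk₀, hmin⟩ := (Finset.range L.length).exists_min_image (fun k => ε (x k))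
        ⟨0, Finset.mem_range.2 h0⟩
      exact ⟨ε (x k₀), (hεθ _ (hxK k₀ (Finset.mem_range.1 hk₀))).1,
        fun k hk => hmin k (Finset.mem_range.2 hk)⟩
  obtain ⟨Q, hQ⟩ : ∃ Q : ℕ → Set X, ∀ k, Q k = K ∩ closedBall (x k) (ε (x k)) :=
    ⟨fun k => K ∩ closedBall (x k) (ε (x k)), fun _ => rfl⟩
  refine ⟨L.length, x, fun k => ε (x k), fun k => θ (x k), Q, η, hη, ?_, ?_, hηε, ?_, ?_⟩
  · intro k hk
    obtain ⟨e1, e2, e3, e4, e5⟩ := hεθ _ (hxK k hk)
    have hne : (Q k).Nonempty := by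
      rw [hQ]
      exact ⟨x k, hxK k hk, mem_closedBall_self e1.le⟩
    have key : ∀ c : X, @infDist (OX G X) _ c (Q k) ≤ η →
        ∃ g : G, dist c (g • x k) ≤ 3 * ε (x k) := by
      intro c hc
      have h3 : @infDist (OX G X) _ c (Q k) < 2 * ε (x k) := by
        have := hηε k hk
        linarith
      obtain ⟨q, hq, h4⟩ : ∃ q : X, q ∈ Q k ∧ od G c q < 2 * ε (x k) :=
        (@infDist_lt_iff (OX G X) _ _ _ _ hne).1 h3
      obtain ⟨g, hg⟩ := od_lt h4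
      refine ⟨g, ?_⟩
      have h5 : dist (g • q) (g • x k) ≤ ε (x k) := by
        rw [hΦ.iso]
        rw [hQ] at hq
        exact mem_closedBall.1 hq.2
      have h6 := dist_triangle c (g • q) (g • x k)
      linarith
    refine ⟨o3 _ ?_, hne, e2, e3, fun c t ht h3 h4 => ?_⟩
    · rw [hQ]
      exact hK.inter_right isClosed_closedBall
    · obtain ⟨g, hg⟩ := key c h3
      obtain ⟨g', hg'⟩ := key (Φ t c) h4
      exact e4 c t g g' ht hg hg'
  · intro c hc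
    have h3 := hF hc
    rw [Set.mem_iUnion₂] at h3
    obtain ⟨c', hc', h4⟩ := h3
    obtain ⟨k, hk, h5⟩ := List.getElem_of_mem (Finset.mem_toList.2 hc')
    refine ⟨k, hk, ?_⟩
    rw [hQ]
    refine ⟨hc, ?_⟩
    have h6 : x k = c'.1 := by
      simp only [hx]
      rw [dif_pos hk]
      exact congrArg Subtype.val h5
    rw [h6]
    exact ball_subset_closedBall h4
  · intro k hk c hc
    rw [hQ] at hc
    exact mem_closedBall.1 hc.2
  · intro k hk g hg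
    exact (hεθ _ (hxK k hk)).2.2.2.2 g hg

end Pool.Agent.ZF
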