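import Mathlib
import Pool.Agent.Lib.MP_8f66f0_al_ZF.Spec

/-!
# Project ZERO, part F: the radius at a point without short periods
-/

set_option autoImplicit false

namespace Pool.Agent.ZF

open MeasureTheory Set

namespace CtrAux

open Filter Topology

theorem sep {G X : Type} [Group G] [MetricSpace X] [MulAction G X] (Φ : ℝ → X → X)
    (hF : Fl G X Φ) (c₀ : X) :
    ∃ δ : ℝ, 0 < δ ∧ ∀ g : G, dist (g • c₀) c₀ < δ → g • c₀ = c₀ := by
  have hfin := hF.prp c₀ 1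
  have h : ∀ᶠ δ in 𝓝[>] (0 : ℝ), ∀ g ∈ {g : G | dist (g • c₀) c₀ ≤ 1},
      g • c₀ ≠ c₀ → δ < dist (g • c₀) c₀ := by
    rw [Filter.eventually_all_finite hfin]
    intro g _
    by_cases e : g • c₀ = c₀
    · exact Filter.Eventually.of_forall fun δ h => (h e).elim
    · have hp : 0 < dist (g • c₀) c₀ := dist_pos.2 e
      filter_upwards [Ioo_mem_nhdsGT hp] with δ hδ _ using hδ.2
  obtain ⟨δ, h1, h2⟩ := (h.and (Ioo_mem_nhdsGT (one_pos : (0 : ℝ) < 1))).exists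
  refine ⟨δ, h2.1, fun g hg => ?_⟩
  by_contra hne
  exact absurd (h1 g (hg.le.trans h2.2.le) hne) (not_lt.2 hg.le)

theorem omg {G X : Type} [Group G] [MetricSpace X] [MulAction G X] [IsIsometricSMul G X]
    (Φ : ℝ → X → X) (hF : Fl G X Φ) (hP : PFl (OX G X) Φ)
    (hmin : ∀ x y : X, ∃ g : G, od G x y = dist x (g • y)) (W : ℝ) (c₀ : X)
    (hper : ∀ (g : G) (t : ℝ), 0 < t → t ≤ W → g • c₀ ≠ Φ t c₀) (θ : ℝ) (hθ : 0 < θ) :
    ∃ ω : ℝ, 0 < ω ∧ ∀ t : ℝ, θ ≤ |t| → |t| ≤ W → ω ≤ od G (Φ t c₀) c₀ := by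
  have hcont : Continuous fun t : ℝ => od G (Φ t c₀) c₀ := by
    have hl : LipschitzWith 1 fun t : ℝ => od G (Φ t c₀) c₀ := by
      refine LipschitzWith.of_dist_le_mul fun s t => ?_
      have h1 := hP.tim s t c₀
      have h2 := @abs_dist_sub_le (OX G X) _ (Φ s c₀) (Φ t c₀) c₀
      rw [Real.dist_eq, Real.dist_eq]
      simp only [NNReal.coe_one, one_mul]
      exact h2.trans h1
    exact hl.continuous
  have hK : IsCompact {t : ℝ | θ ≤ |t| ∧ |t| ≤ W} := by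
    have e : {t : ℝ | θ ≤ |t| ∧ |t| ≤ W} = Icc (-W) W ∩ {t | θ ≤ |t|} := by
      ext t
      simp only [mem_setOf_eq, mem_inter_iff, mem_Icc, abs_le]
      tauto
    rw [e]
    exact isCompact_Icc.inter_right (isClosed_le continuous_const continuous_abs)
  rcases {t : ℝ | θ ≤ |t| ∧ |t| ≤ W}.eq_empty_or_nonempty with he | hne
  · refine ⟨1, one_pos, fun t h1 h2 => ?_⟩
    have : t ∈ {t : ℝ | θ ≤ |t| ∧ |t| ≤ W} := ⟨h1, h2⟩
    rw [he] at this
    exact this.elim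
  · obtain ⟨t₀, ht₀, hm⟩ := hK.exists_isMinOn hne hcont.continuousOn
    refine ⟨od G (Φ t₀ c₀) c₀, ?_, fun t h1 h2 => hm ⟨h1, h2⟩⟩
    refine lt_of_le_of_ne (od_nonneg _ _) fun h0 => ?_
    obtain ⟨g, hg⟩ := hmin (Φ t₀ c₀) c₀
    rw [← h0] at hg
    have e : Φ t₀ c₀ = g • c₀ := dist_eq_zero.1 hg.symm
    rcases lt_trichotomy t₀ 0 with hl | hz | hp
    · have ha : |t₀| = -t₀ := abs_of_neg hl
      refine hper g⁻¹ (-t₀) (by linarith) (by rw [← ha]; exact ht₀.2) ?_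
      have h3 : Φ (-t₀) (Φ t₀ c₀) = c₀ := by
        rw [← hF.add, neg_add_cancel, hF.zero]
      rw [e, hF.comm] at h3
      rw [inv_smul_eq_iff]
      exact h3.symm
    · have := ht₀.1
      rw [hz, abs_zero] at this
      linarith
    · have ha : |t₀| = t₀ := abs_of_pos hp
      exact hper g t₀ hp (by rw [← ha]; exact ht₀.2) e.symm

end CtrAux

theorem t_Ctr (h1 : S_Orb) : S_Ctr := by
  intro G X _ _ _ _ Φ hF W c₀ hper
  obtain ⟨hP, -, -, hmin⟩ := h1 G X Φ hF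
  obtain ⟨δ, hδ, hsep⟩ := CtrAux.sep Φ hF c₀
  have hθ : 0 < min 1 (δ / 4) := lt_min one_pos (by linarith)
  obtain ⟨ω, hω, hom⟩ := CtrAux.omg Φ hF hP hmin W c₀ hper (min 1 (δ / 4)) hθ
  obtain ⟨κ, hκ, hlip⟩ := hF.lip W
  have hk : 0 < 1 + κ := by linarith
  have hε : 0 < min (δ / 48) (ω / (6 * (1 + κ))) := lt_min (by linarith) (by positivity)
  have e1 : min (δ / 48) (ω / (6 * (1 + κ))) ≤ δ / 48 := min_le_left _ _
  have e2 : min (δ / 48) (ω / (6 * (1 + κ))) ≤ ω / (6 * (1 + κ)) := min_le_right _ _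
  generalize min (δ / 48) (ω / (6 * (1 + κ))) = ε at hε e1 e2
  have e3 : min 1 (δ / 4) ≤ δ / 4 := min_le_right _ _
  have e4 : 6 * (1 + κ) * ε ≤ ω := by
    rw [le_div_iff₀ (by positivity)] at e2
    linarith
  refine ⟨ε, min 1 (δ / 4), hε, hθ, min_le_left _ _, fun c t g g' ht hc hc' => ?_,
    fun g hg => hsep g (by linarith)⟩
  by_contra hlt
  rw [not_le] at hlt
  have k1 := hom t hlt.le ht
  have k2 : od G (Φ t c₀) c₀ ≤ dist (Φ t c₀) ((g⁻¹ * g') • c₀) := od_le _ _ _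
  have k3 : dist (Φ t c₀) ((g⁻¹ * g') • c₀) = dist (Φ t (g • c₀)) (g' • c₀) := by
    rw [← hF.iso g, smul_smul, mul_inv_cancel_left, ← hF.comm]
  have k4 : dist (Φ t (g • c₀)) (g' • c₀) ≤ dist (Φ t c) (Φ t (g • c₀)) +
      dist (Φ t c) (g' • c₀) := dist_triangle_left _ _ _
  have k5 := hlip t c (g • c₀) ht
  have k6 : κ * dist c (g • c₀) ≤ κ * (3 * ε) :=
    mul_le_mul_of_nonneg_left hc (by linarith)
  nlinarith [mul_pos hk hε]

end Pool.Agent.ZF
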