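import Mathlib
import Pool.Agent.Lib.MP_8f66f0_al_ZF.Spec

/-!
# III: long thin families on a compact set without short periods
-/

set_option autoImplicit false

namespace Pool.Agent.ZF

open MeasureTheory Set

namespace IIIAux

/-- the vertices `(μ, y)`, `G` acts on `y` -/
@[reducible] def act (G : Type) {A X : Type} [Group G] [MulAction G X] : MulAction G (A × X) where
  smul g v := (v.1, g • v.2)
  one_smul v := Prod.ext rfl (one_smul G v.2)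
  mul_smul g h v := Prod.ext rfl (mul_smul g h v.2)

/-- the action on the empty set -/
@[reducible] def actE (G : Type) [Group G] : MulAction G PEmpty.{1} where
  smul _ v := v
  one_smul v := v.elim
  mul_smul _ _ v := v.elim

theorem window (s : ℕ) (α : ℝ) (hα : 1 ≤ α) : 0 ≤ LL s α ∧ LL s α + α ≤ ((4 * s + 1 : ℕ) : ℝ) * α := by
  have hs : (0 : ℝ) ≤ (s : ℝ) := Nat.cast_nonneg s
  unfold LL
  constructor
  · positivity
  · push_cast
    nlinarith [mul_nonneg hs (by linarith : (0 : ℝ) ≤ α - 1)]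

end IIIAux

open IIIAux in
theorem t_III (h1 : S_Mrk) (h2 : S_Orb) (h3 : S_Cov) (h4 : S_Slw) (h5 : S_Cnt) (_h6 : S_Wb)
    (h7 : S_Mar) (h8 : S_Bmp) : S_III := by
  classical
  intro G X _ _ _ Φ hΦ s hnull α hα K' hK' hper
  have : IsIsometricSMul G X := ⟨fun g => Isometry.of_dist_eq (hΦ.iso g)⟩
  have hα0 : 0 < α := by linarith
  have hP : PFl X Φ := ⟨hΦ.zero, hΦ.add, fun s t c => (hΦ.geo s t c).le, hΦ.lip⟩
  rcases isEmpty_or_nonempty X with hE | hX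
  · exact ⟨PEmpty, actE G, fun v => v.elim, 0, fun v => v.elim, fun _ v => v.elim,
      fun v => v.elim, fun v => v.elim, fun c => hE.elim c, fun c => hE.elim c, fun v => v.elim⟩
  obtain ⟨o1, o2, o3, o4⟩ := h2 G X Φ hΦ
  obtain ⟨m, x, ε, θ, Q, η, hη, hQ, hcov, hηε, hQx, hsep⟩ := h3 G X Φ hΦ hX α hα s K' hK' hper
  obtain ⟨S, hS⟩ := @h1 (OX G X) _ Φ o1 α hα s (o2 s hnull) Q θ η hη m hQ
  obtain ⟨σ, hσ, hmar⟩ := @h7 (OX G X) _ Φ o1 α hα (LL s α) S K' (o3 K' hK') (fun c hc => by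
    obtain ⟨k, hk, hcQ⟩ := hcov c hc
    exact hS.cov k hk c hcQ)
  obtain ⟨hL0, hL1⟩ := window s α hα
  obtain ⟨s1, s2, s3⟩ := h4 X Φ hP (LL s α) α hL0 hα0
  set b : Mk (OX G X) → X → X → ℝ := fun μ y =>
    bmp G Φ α μ.l (μ.P : Set X) μ.ρ σ (x μ.k) y with hb
  have hb01 : ∀ μ y c, 0 ≤ b μ y c ∧ b μ y c ≤ 1 := fun μ y c =>
    (h8 G X Φ hΦ α μ.l).1 μ.P μ.ρ σ (x μ.k) y c
  set f : (S × X) → X → ℝ := fun v => slw Φ (b v.1.1 v.2) (LL s α) α with hf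
  -- one Lipschitz constant
  choose Λl hΛl0 hΛl using fun l => (h8 G X Φ hΦ α l).2.1 σ hσ
  have hΛ0 : 0 ≤ ∑ l ∈ Finset.range s, Λl l := Finset.sum_nonneg fun l _ => hΛl0 l
  obtain ⟨Λ, hΛ, hΛf⟩ := s2 _ hΛ0
  have hbsup : ∀ μ ∈ S, ∀ p : X, p ∈ (μ.P : Set X) → dist p (x μ.k) ≤ ε μ.k := fun μ hμ p hp =>
    hQx μ.k (hS.klt μ hμ) p (hS.sub μ hμ hp)
  refine ⟨S × X, act G, f, Λ, ?_, ?_, ?_, ?_, ?_, ?_, ?_⟩
  · exact fun v c => (s1 _ (hb01 v.1.1 v.2)).1 c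
  · intro g v c
    exact s3 (b v.1.1 v.2) (b v.1.1 (g • v.2)) (fun z => g • z) (fun t c => hΦ.comm g t c)
      (fun c => (h8 G X Φ hΦ α v.1.1.l).2.2.1 v.1.1.P v.1.1.ρ σ (x v.1.1.k) v.2 c g) c
  · exact fun v c t => (s1 _ (hb01 v.1.1 v.2)).2.1 c t
  · intro v c c'
    refine hΛf (b v.1.1 v.2) (hb01 v.1.1 v.2) (fun c c' => ?_) c c'
    refine (hΛl v.1.1.l v.1.1.P v.1.1.ρ (x v.1.1.k) v.2 c c').trans ?_
    refine mul_le_mul_of_nonneg_right ?_ dist_nonneg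
    exact Finset.single_le_sum (f := Λl) (fun i _ => hΛl0 i)
      (Finset.mem_range.2 (hS.llt v.1.1 v.1.2))
  · -- multiplicity
    intro c
    have hτ : ∀ v : S × X, ∃ τ : ℝ, f v c ≠ 0 → |τ| < LL s α + α ∧ 0 < b v.1.1 v.2 (Φ τ c) := by
      intro v
      by_cases h : f v c ≠ 0
      · obtain ⟨t, ht⟩ := (s1 _ (hb01 v.1.1 v.2)).2.2.1 c h
        exact ⟨t, fun _ => ht⟩
      · exact ⟨0, fun h' => absurd h' h⟩
    choose τ hτ using hτ
    have hres := h5 (S × X) {v | f v c ≠ 0} τ α (4 * s + 1) hα0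
      (fun v hv => lt_of_lt_of_le (hτ v hv).1 hL1) ?_
    · refine ⟨hres.1, hres.2.trans ?_⟩
      omega
    · intro v hv w hw hvw
      by_contra hle
      push Not at hle
      apply hvw
      obtain ⟨_, hv2⟩ := hτ v hv
      obtain ⟨_, hw2⟩ := hτ w hw
      obtain ⟨⟨μ, hμ⟩, y⟩ := v
      obtain ⟨⟨ν, hν⟩, z⟩ := w
      set τv := τ (⟨μ, hμ⟩, y) with hτv
      set τw := τ (⟨ν, hν⟩, z) with hτw
      obtain ⟨a1, a2, hy, a3⟩ := (h8 G X Φ hΦ α μ.l).2.2.2.1 μ.P μ.ρ σ (ε μ.k) (x μ.k) y (Φ τv c) hσ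
        (hbsup μ hμ) hv2
      obtain ⟨e1, e2, hz, e3⟩ := (h8 G X Φ hΦ α ν.l).2.2.2.1 ν.P ν.ρ σ (ε ν.k) (x ν.k) z (Φ τw c) hσ
        (hbsup ν hν) hw2
      have hadd : Φ (τw - τv) (Φ τv c) = Φ τw c := by
        rw [← hΦ.add]
        congr 1
        ring
      have hle' : |τw - τv| ≤ α := by
        rw [abs_sub_comm]
        exact hle
      have hse := hS.sep μ hμ ν hν (Φ τv c) (τw - τv) hle' a1.le (by rw [hadd]; exact e1.le)
      obtain ⟨hμν, hθ⟩ := hse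
      subst hμν
      -- the two points of the orbit are equal
      have hklt := hS.klt μ hμ
      have hρε : μ.ρ < ε μ.k := lt_of_lt_of_le (hS.lt μ hμ) (hηε μ.k hklt)
      have hd1 : dist (Φ (-(tt α μ.l)) (Φ τv c)) (Φ (-(tt α μ.l)) (Φ τw c)) ≤ θ μ.k := by
        rw [← hΦ.add, ← hΦ.add, hΦ.geo]
        have e4 : -(tt α μ.l) + τv - (-(tt α μ.l) + τw) = -(τw - τv) := by ring
        rw [e4, abs_neg]
        exact hθ
      have hd2 : dist y z ≤ 4 * ε μ.k + θ μ.k := by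
        have t1 := dist_triangle y (Φ (-(tt α μ.l)) (Φ τv c)) z
        have t2 := dist_triangle (Φ (-(tt α μ.l)) (Φ τv c)) (Φ (-(tt α μ.l)) (Φ τw c)) z
        rw [dist_comm y (Φ (-(tt α μ.l)) (Φ τv c))] at t1
        linarith
      have hyz : y = z := by
        rw [← a3, ← e3] at hd2 ⊢
        have t3 : dist (hy • x μ.k) (hz • x μ.k) = dist ((hz⁻¹ * hy) • x μ.k) (x μ.k) := by
          rw [← hΦ.iso hz⁻¹ (hy • x μ.k) (hz • x μ.k), inv_smul_smul, mul_smul]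
        rw [t3] at hd2
        have t4 := hsep μ.k hklt (hz⁻¹ * hy) hd2
        rw [mul_smul] at t4
        rw [inv_smul_eq_iff] at t4
        exact t4
      subst hyz
      rfl
  · intro c hc
    obtain ⟨μ, hμ, t, ht0, htL, hv⟩ := hmar c hc
    obtain ⟨y, hy⟩ := (h8 G X Φ hΦ α μ.l).2.2.2.2 μ.P μ.ρ σ (ε μ.k) (x μ.k) (Φ t c) hσ
      (hS.ne μ hμ) (hbsup μ hμ) hv
    refine ⟨(⟨μ, hμ⟩, y), ?_⟩
    have h9 := (s1 _ (hb01 μ y)).2.2.2 c t (by rwa [abs_of_nonneg ht0])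
    have h10 := ((s1 _ (hb01 μ y)).1 c).2
    have h11 : b μ y (Φ t c) = 1 := hy
    rw [h11] at h9
    exact le_antisymm h10 h9
  · intro v c _
    refine (hΦ.prp v.2 0).subset ?_
    intro g hg
    have h9 : g • v.2 = v.2 := congrArg Prod.snd hg
    change dist (g • v.2) v.2 ≤ 0
    rw [h9, dist_self]

end Pool.Agent.ZF
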