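import Mathlib
import Pool.Agent.Lib.MP_8f66f0_al_ZF.Spec

/-!
# Project ZERO, part F, block Mar: a margin in the covering property
-/

set_option autoImplicit false

namespace Pool.Agent.ZF

open MeasureTheory Set

theorem t_Mar (h1 : S_Wb) : S_Mar := by
  intro X _ Φ hΦ n hn L S K hK hcov
  obtain ⟨-, -, hlip, -⟩ := h1 X Φ hΦ n hn
  -- the property of subsets of `K`
  have key : ∃ σ : ℝ, 0 < σ ∧ ∀ c ∈ K, c ∈ K → ∃ μ ∈ S, ∃ t : ℝ, 0 ≤ t ∧ t ≤ L ∧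
      vv Φ n μ.l μ.P (Φ t c) ≤ μ.ρ - σ := by
    refine hK.induction_on (p := fun s : Set X => ∃ σ : ℝ, 0 < σ ∧ ∀ c ∈ s, c ∈ K →
      ∃ μ ∈ S, ∃ t : ℝ, 0 ≤ t ∧ t ≤ L ∧ vv Φ n μ.l μ.P (Φ t c) ≤ μ.ρ - σ) ?_ ?_ ?_ ?_
    · exact ⟨1, one_pos, fun c hc => absurd hc (Set.notMem_empty c)⟩
    · rintro s t hst ⟨σ, hσ, h⟩
      exact ⟨σ, hσ, fun c hc => h c (hst hc)⟩
    · rintro s t ⟨σ, hσ, h⟩ ⟨σ', hσ', h'⟩
      refine ⟨min σ σ', lt_min hσ hσ', fun c hc hcK => ?_⟩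
      rcases hc with hc | hc
      · obtain ⟨μ, hμ, t, h0, hL, hle⟩ := h c hc hcK
        exact ⟨μ, hμ, t, h0, hL, hle.trans (by linarith [min_le_left σ σ'])⟩
      · obtain ⟨μ, hμ, t, h0, hL, hle⟩ := h' c hc hcK
        exact ⟨μ, hμ, t, h0, hL, hle.trans (by linarith [min_le_right σ σ'])⟩
    · intro c hc
      obtain ⟨μ, hμ, t, h0, hL, hlt⟩ := hcov c hc
      obtain ⟨κ, hκ, hκ'⟩ := hlip μ.l |t|
      obtain ⟨δ, hδ⟩ : ∃ δ : ℝ, δ = (μ.ρ - vv Φ n μ.l μ.P (Φ t c)) / 2 := ⟨_, rfl⟩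
      have hδ0 : 0 < δ := by rw [hδ]; linarith
      have hκ0 : 0 < κ := by linarith
      refine ⟨Metric.ball c (δ / κ), mem_nhdsWithin_of_mem_nhds
        (Metric.ball_mem_nhds c (div_pos hδ0 hκ0)), δ, hδ0, fun c' hc' _ => ?_⟩
      refine ⟨μ, hμ, t, h0, hL, ?_⟩
      have h2 := hκ' μ.P t c' c le_rfl
      have h3 : dist c' c < δ / κ := hc'
      have h4 : κ * dist c' c ≤ δ := by
        rw [lt_div_iff₀ hκ0] at h3
        linarith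
      have h5 := (abs_le.1 (h2.trans h4)).2
      linarith
  obtain ⟨σ, hσ, h⟩ := key
  exact ⟨σ, hσ, fun c hc => h c hc hc⟩

end Pool.Agent.ZF
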