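import Mathlib
import Pool.Agent.Lib.MP_8f66f0_al_ZF.Spec

/-!
# Project ZERO, part F: the pseudo-metric `inf_g d(x, g y)`
-/

set_option autoImplicit false

namespace Pool.Agent.ZF

open MeasureTheory Set

namespace OrbAux

variable {G X : Type} [Group G] [MetricSpace X] [MulAction G X] [IsIsometricSMul G X]

theorem lip {Φ : ℝ → X → X} (h : Fl G X Φ) (T κ : ℝ) (hκ : 1 ≤ κ)
    (hl : ∀ t c c', |t| ≤ T → dist (Φ t c) (Φ t c') ≤ κ * dist c c') (t : ℝ) (c c' : X)
    (ht : |t| ≤ T) : od G (Φ t c) (Φ t c') ≤ κ * od G c c' := by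
  have hκ0 : 0 < κ := by linarith
  rw [← div_le_iff₀' hκ0]
  refine le_ciInf fun g => ?_
  rw [div_le_iff₀' hκ0]
  have h1 := od_le g (Φ t c) (Φ t c')
  rw [← h.comm] at h1
  exact h1.trans (hl t c (g • c') ht)

theorem cpt (K : Set X) (hK : IsCompact K) : @IsCompact (OX G X) _ K := by
  have hc : Continuous (fun x : X => (show OX G X from x)) := by
    refine Metric.continuous_iff.2 fun b ε hε => ⟨ε, hε, fun a ha => ?_⟩
    rw [dist_OX]
    exact (od_le_dist _ _).trans_lt ha
  have h := hK.image hc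
  have h2 : (fun x : X => (show OX G X from x)) '' K = K := Set.image_id K
  rw [h2] at h
  exact h

theorem mn {Φ : ℝ → X → X} (h : Fl G X Φ) (x y : X) : ∃ g : G, od G x y = dist x (g • y) := by
  have hF : {g : G | dist x (g • y) ≤ od G x y + 1}.Finite := by
    refine (h.prp y (od G x y + 1 + dist x y)).subset fun g hg => ?_
    have h1 : dist (g • y) y ≤ dist (g • y) x + dist x y := dist_triangle _ _ _
    rw [dist_comm (g • y) x] at h1
    have h2 : dist x (g • y) ≤ od G x y + 1 := hg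
    show dist (g • y) y ≤ _
    linarith
  have hne : {g : G | dist x (g • y) ≤ od G x y + 1}.Nonempty := by
    obtain ⟨g, hg⟩ := od_lt (G := G) (x := x) (y := y) (r := od G x y + 1) (by linarith)
    exact ⟨g, hg.le⟩
  obtain ⟨g, hg, hmin⟩ := Set.exists_min_image _ (fun g : G => dist x (g • y)) hF hne
  refine ⟨g, le_antisymm (od_le g x y) (le_ciInf fun g' => ?_)⟩
  by_cases hg' : dist x (g' • y) ≤ od G x y + 1
  · exact hmin g' hg'
  · have : dist x (g • y) ≤ od G x y + 1 := hg
    linarith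

end OrbAux

theorem t_Orb : S_Orb := by
  intro G X _ _ _ _ Φ h
  refine ⟨⟨h.zero, h.add, ?_, ?_⟩, ?_, OrbAux.cpt, OrbAux.mn h⟩
  · intro s t c
    rw [dist_OX, ← h.geo s t c]
    exact od_le_dist _ _
  · intro T
    obtain ⟨κ, hκ, hl⟩ := h.lip T
    exact ⟨κ, hκ, fun t c c' ht => OrbAux.lip h T κ hκ hl t c c' ht⟩
  · intro s hs
    cases s with
    | zero => exact hs
    | succ s =>
      intro ε hε
      obtain ⟨A, r, h1, h2, h3, h4, h5⟩ := hs ε hε
      exact ⟨A, r, h1, h2, fun i x hx y hy => (od_le_dist _ _).trans (h3 i x hx y hy), h4, h5⟩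

end Pool.Agent.ZF
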