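import Mathlib
import Pool.Agent.Lib.MP_8f66f0_al_ZF.Defs

/-! Project ZERO, part F, block IV, (1)-(3): periodic points and their classes. -/

set_option autoImplicit false

namespace Pool.Agent.ZF

section

variable {G X : Type} [Group G] [MetricSpace X] [MulAction G X] {Φ : ℝ → X → X}

/-- Powers of an element which translates a flow line. -/
theorem pow_per (hΦ : Fl G X Φ) {g : G} {c : X} {s : ℝ} (h : g • c = Φ s c) (n : ℕ) :
    g ^ n • c = Φ (n * s) c := by
  induction n with
  | zero =>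
    rw [pow_zero, one_smul, Nat.cast_zero, zero_mul, hΦ.zero]
  | succ n ih =>
    rw [pow_succ', mul_smul, ih, ← hΦ.comm, h, ← hΦ.add]
    congr 1
    push_cast
    ring

theorem inv_per (hΦ : Fl G X Φ) {g : G} {c : X} {s : ℝ} (h : g • c = Φ s c) :
    g⁻¹ • c = Φ (-s) c := by
  rw [inv_smul_eq_iff, ← hΦ.comm, h, ← hΦ.add, neg_add_cancel, hΦ.zero]

theorem conj_per (hΦ : Fl G X Φ) {g : G} {c : X} {s : ℝ} (h : g • c = Φ s c) (k : G) :
    (k * g * k⁻¹) • (k • c) = Φ s (k • c) := by
  rw [mul_smul, inv_smul_smul, mul_smul, h, hΦ.comm]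

theorem flow_per (hΦ : Fl G X Φ) {g : G} {c : X} {s : ℝ} (h : g • c = Φ s c) (t : ℝ) :
    g • Φ t c = Φ s (Φ t c) := by
  rw [← hΦ.comm, h, ← hΦ.add, ← hΦ.add, add_comm]

/-- (1) The translation length is unique. -/
theorem per_unique (hΦ : Fl G X Φ) {g : G} {c c' : X} {s s' : ℝ} (hs : 0 ≤ s) (hs' : 0 ≤ s')
    (h : g • c = Φ s c) (h' : g • c' = Φ s' c') : s = s' := by
  have key : ∀ n : ℕ, n * |s - s'| ≤ 2 * dist c c' := by
    intro n
    have h1 : dist (g ^ n • c) c = n * s := by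
      rw [pow_per hΦ h]
      have := hΦ.geo (n * s) 0 c
      rw [hΦ.zero, sub_zero, abs_of_nonneg (by positivity)] at this
      exact this
    have h2 : dist (g ^ n • c') c' = n * s' := by
      rw [pow_per hΦ h']
      have := hΦ.geo (n * s') 0 c'
      rw [hΦ.zero, sub_zero, abs_of_nonneg (by positivity)] at this
      exact this
    have h3 := hΦ.iso (g ^ n) c c'
    have h4 := dist_triangle4 (g ^ n • c) (g ^ n • c') c' c
    have h5 := dist_triangle4 (g ^ n • c') (g ^ n • c) c c'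
    rw [dist_comm c' c] at h4
    rw [dist_comm (g ^ n • c') (g ^ n • c)] at h5
    have h6 : |n * s - n * s'| ≤ 2 * dist c c' := by
      rw [abs_le]
      constructor <;> linarith
    rw [← mul_sub, abs_mul, Nat.abs_cast] at h6
    exact h6
  by_contra hne
  have h1 : 0 < |s - s'| := abs_pos.2 (sub_ne_zero.2 hne)
  obtain ⟨n, hn⟩ := exists_nat_gt (2 * dist c c' / |s - s'|)
  rw [div_lt_iff₀ h1] at hn
  exact absurd (key n) (not_le.2 hn)

/-- (2) Two elements which translate the same line forward have a common power. -/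
theorem per_common (hΦ : Fl G X Φ) {g h : G} {c : X} {s t : ℝ} (hs : 0 < s) (ht : 0 < t)
    (hg : g • c = Φ s c) (hh : h • c = Φ t c) :
    ∃ a b : ℕ, 0 < a ∧ 0 < b ∧ g ^ a = h ^ b := by
  set j : ℕ → ℕ := fun i => ⌊i * s / t⌋₊ with hj
  have h1 : ∀ i : ℕ, (g ^ i * (h ^ j i)⁻¹) • c = Φ (i * s - j i * t) c := by
    intro i
    have h2 : (h ^ j i)⁻¹ • c = Φ (-(j i * t)) c := inv_per hΦ (pow_per hΦ hh (j i))
    rw [mul_smul, h2, ← hΦ.comm, pow_per hΦ hg, ← hΦ.add]
    congr 1
    ring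
  have h2 : ∀ i : ℕ, |i * s - j i * t| ≤ t := by
    intro i
    have h3 : (j i : ℝ) ≤ i * s / t := Nat.floor_le (by positivity)
    have h4 : i * s / t < j i + 1 := Nat.lt_floor_add_one _
    rw [le_div_iff₀ ht] at h3
    rw [div_lt_iff₀ ht] at h4
    rw [abs_le]
    constructor <;> nlinarith
  have h3 : ∀ i : ℕ, g ^ i * (h ^ j i)⁻¹ ∈ {k : G | dist (k • c) c ≤ t} := by
    intro i
    have h4 := hΦ.geo (i * s - j i * t) 0 c
    rw [hΦ.zero, sub_zero] at h4
    change dist _ _ ≤ t
    rw [h1, h4]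
    exact h2 i
  obtain ⟨i, i', hii, he⟩ := (hΦ.prp c t).exists_lt_map_eq_of_forall_mem h3
  obtain ⟨d, hd⟩ : ∃ d, j i' = j i + d := by
    have hle : j i ≤ j i' := Nat.floor_mono (by
      have : (i : ℝ) ≤ i' := by exact_mod_cast hii.le
      gcongr)
    exact ⟨j i' - j i, (Nat.add_sub_cancel' hle).symm⟩
  obtain ⟨a, ha⟩ : ∃ a, i' = i + a := ⟨i' - i, (Nat.add_sub_cancel' hii.le).symm⟩
  have h4 : g ^ a = h ^ d := by
    have h5 : (h ^ j i)⁻¹ = g ^ a * (h ^ j i')⁻¹ := by
      apply mul_left_cancel (a := g ^ i)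
      rw [← mul_assoc, ← pow_add, ← ha]
      exact he
    rw [eq_mul_inv_iff_mul_eq, hd, pow_add, inv_mul_cancel_left] at h5
    exact h5.symm
  have ha0 : 0 < a := by omega
  refine ⟨a, d, ha0, ?_, h4⟩
  rcases Nat.eq_zero_or_pos d with h0 | h0
  · exfalso
    rw [h0, pow_zero] at h4
    have h5 := pow_per hΦ hg a
    rw [h4, one_smul] at h5
    have h6 := hΦ.geo (a * s) 0 c
    rw [hΦ.zero, ← h5, dist_self, sub_zero, abs_of_nonneg (by positivity)] at h6
    have : 0 < (a : ℝ) * s := by positivity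
    linarith
  · exact h0

/-- Two elements with a common power. -/
def gr (g h : G) : Prop := ∃ a b : ℕ, 0 < a ∧ 0 < b ∧ g ^ a = h ^ b

variable (G) in
/-- The equivalence relation. -/
@[reducible] def gS : Setoid G where
  r := gr
  iseqv :=
    { refl := fun g => ⟨1, 1, one_pos, one_pos, rfl⟩
      symm := fun ⟨a, b, ha, hb, h⟩ => ⟨b, a, hb, ha, h.symm⟩
      trans := by
        rintro g h k ⟨a, b, ha, hb, e⟩ ⟨c, d, hc, hd, f⟩
        refine ⟨a * c, d * b, Nat.mul_pos ha hc, Nat.mul_pos hd hb, ?_⟩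
        rw [pow_mul, e, ← pow_mul, mul_comm b c, pow_mul, f, ← pow_mul] }

/-- The classes. -/
def VP (G : Type) [Group G] : Type := Quotient (gS G)

theorem gr_conj {g h : G} (k : G) (e : gr g h) : gr (k * g * k⁻¹) (k * h * k⁻¹) := by
  obtain ⟨a, b, ha, hb, e⟩ := e
  refine ⟨a, b, ha, hb, ?_⟩
  rw [conj_pow, conj_pow, e]

/-- The class of an element. -/
def cls (g : G) : VP G := Quotient.mk (gS G) g

theorem cls_eq {g h : G} : cls g = cls h ↔ gr g h := Quotient.eq (r := gS G)

/-- The action of the group on the classes by conjugation. -/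
instance : MulAction G (VP G) where
  smul k := Quotient.map (fun g => k * g * k⁻¹) fun _ _ e => gr_conj k e
  one_smul v := by
    induction v using Quotient.inductionOn with
    | h g => exact congrArg cls (by simp)
  mul_smul k l v := by
    induction v using Quotient.inductionOn with
    | h g => exact congrArg cls (by simp [mul_assoc])

theorem smul_cls (k g : G) : k • cls g = cls (k * g * k⁻¹) := rfl

/-- (3) An element which fixes the class of `δ` commutes with a power of `δ`. -/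
theorem per_comm (hΦ : Fl G X Φ) {δ g : G} {c : X} {s : ℝ} (hs : 0 < s) (h : δ • c = Φ s c)
    (hg : g • cls δ = cls δ) : ∃ a : ℕ, 0 < a ∧ g * δ ^ a = δ ^ a * g := by
  rw [smul_cls, cls_eq] at hg
  obtain ⟨a, b, ha, hb, e⟩ := hg
  have h1 : (g * δ * g⁻¹) ^ a • (g • c) = Φ (a * s) (g • c) := pow_per hΦ (conj_per hΦ h g) a
  have h2 : δ ^ b • c = Φ (b * s) c := pow_per hΦ h b
  rw [e] at h1
  have h3 := per_unique hΦ (by positivity) (by positivity) h1 h2
  have h4 : a = b := by
    have := mul_right_cancel₀ hs.ne' h3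
    exact_mod_cast this
  subst h4
  refine ⟨a, ha, ?_⟩
  rw [conj_pow] at e
  rw [← mul_inv_eq_iff_eq_mul]
  exact e

end

end Pool.Agent.ZF
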