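import Mathlib
import Pool.Agent.Lib.MP_8f66f0_al_ZF.Per1

/-! Project ZERO, part F, block IV, (4): separation of the periodic lines. -/

set_option autoImplicit false

namespace Pool.Agent.ZF

open Set

section

variable {G X : Type} [Group G] [MetricSpace X] [MulAction G X] {Φ : ℝ → X → X}

/-- Properness, uniformly on bounded sets. -/
theorem prp_bdd (hΦ : Fl G X Φ) {K : Set X} (hK : Bornology.IsBounded K) (R : ℝ) :
    {g : G | ∃ a ∈ K, dist (g • a) a ≤ R}.Finite := by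
  rcases K.eq_empty_or_nonempty with rfl | ⟨c, hc⟩
  · refine Set.finite_empty.subset ?_
    rintro g ⟨a, ha, -⟩
    exact ha
  obtain ⟨r, hr⟩ := (Metric.isBounded_iff_subset_closedBall c).1 hK
  refine (hΦ.prp c (R + 2 * r)).subset ?_
  rintro g ⟨a, ha, h⟩
  have h1 := Metric.mem_closedBall.1 (hr ha)
  have h2 := dist_triangle4 (g • c) (g • a) a c
  rw [hΦ.iso, dist_comm c a] at h2
  change dist _ _ ≤ _
  linarith

theorem cont_smul (hΦ : Fl G X Φ) (g : G) : Continuous fun c : X => g • c :=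
  (Isometry.of_dist_eq fun x y => hΦ.iso g x y).continuous

theorem cont_fl (hΦ : Fl G X Φ) (t : ℝ) : Continuous (Φ t) := by
  obtain ⟨κ, hκ, h⟩ := hΦ.lip |t|
  refine LipschitzWith.continuous (K := Real.toNNReal κ) ?_
  refine LipschitzWith.of_dist_le_mul fun x y => ?_
  rw [Real.coe_toNNReal κ (by linarith)]
  exact h t x y le_rfl

/-- Two elements which are not equivalent. -/
theorem sep_pair (hΦ : Fl G X Φ) {K : Set X} (hK : IsCompact K) (g h : G) :
    ∃ e : ℝ, 0 < e ∧ ∀ (a b : X) (s t : ℝ), a ∈ K → 0 < s → 0 < t → g • a = Φ s a →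
      h • b = Φ t b → dist a b ≤ e → gr g h := by
  by_contra hcon
  push Not at hcon
  obtain ⟨a₀, b₀, s, t, ha₀, hs, ht, hga, hhb, -, hne⟩ := hcon 1 one_pos
  have h1 : IsCompact {a ∈ K | g • a = Φ s a} :=
    hK.inter_right (isClosed_eq (cont_smul hΦ g) (cont_fl hΦ s))
  have h2 : IsClosed {b : X | h • b = Φ t b} := isClosed_eq (cont_smul hΦ h) (cont_fl hΦ t)
  have h3 : Disjoint {a ∈ K | g • a = Φ s a} {b : X | h • b = Φ t b} := by
    rw [Set.disjoint_left]
    intro c hc hc'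
    exact hne (per_common hΦ hs ht hc.2 hc')
  obtain ⟨δ, hδ, h4⟩ := h3.exists_cthickenings h1 h2
  obtain ⟨a, b, s', t', ha, hs', ht', hga', hhb', hab, -⟩ := hcon δ hδ
  have h5 : s' = s := per_unique hΦ hs'.le hs.le hga' hga
  have h6 : t' = t := per_unique hΦ ht'.le ht.le hhb' hhb
  subst h5
  subst h6
  rw [Set.disjoint_left] at h4
  refine h4 (a := b) ?_ ?_
  · refine Metric.mem_cthickening_of_dist_le b a δ _ ⟨ha, hga'⟩ ?_
    rw [dist_comm]
    exact hab
  · exact Metric.self_subset_cthickening _ hhb'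

/-- A positive lower bound of finitely many positive numbers. -/
theorem min_pos {ι : Type*} {s : Set ι} (hs : s.Finite) (e : ι → ℝ) (he : ∀ i ∈ s, 0 < e i) :
    ∃ η : ℝ, 0 < η ∧ η ≤ 1 ∧ ∀ i ∈ s, η ≤ e i := by
  induction s, hs using Set.Finite.induction_on with
  | empty => exact ⟨1, one_pos, le_rfl, fun i hi => absurd hi (Set.notMem_empty i)⟩
  | @insert a s _ _ ih =>
    obtain ⟨η, hη, h0, h1⟩ := ih fun i hi => he i (Set.mem_insert_of_mem _ hi)
    refine ⟨min η (e a), lt_min hη (he a (Set.mem_insert _ _)), (min_le_left _ _).trans h0, ?_⟩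
    rintro i (rfl | hi)
    · exact min_le_right _ _
    · exact (min_le_left _ _).trans (h1 i hi)

/-- The periodic points with period at most `W`, in the `G`-orbits of `K`. -/
def AP (Φ : ℝ → X → X) (W : ℝ) (K : Set X) (v : VP G) : Set X :=
  {c | (∃ k : G, k • c ∈ K) ∧ ∃ (g : G) (s : ℝ), cls g = v ∧ 0 < s ∧ s ≤ W ∧ g • c = Φ s c}

/-- (4) Separation. -/
theorem sep (hΦ : Fl G X Φ) (W : ℝ) {K : Set X} (hK : IsCompact K) :
    ∃ e : ℝ, 0 < e ∧ ∀ (v : VP G), ∀ a ∈ AP Φ W K v, ∀ (b : X) (h : G) (t : ℝ), 0 < t → t ≤ W →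
      h • b = Φ t b → dist a b ≤ e → v = cls h := by
  choose e he h1 using fun p : G × G => sep_pair hΦ hK p.1 p.2
  have hf := prp_bdd hΦ hK.isBounded (W + 2)
  obtain ⟨η, hη, hη1, h2⟩ := min_pos (hf.prod hf) e fun p _ => he p
  refine ⟨η, hη, ?_⟩
  rintro v a ⟨⟨k, hk⟩, g, s, rfl, hs, hsW, hga⟩ b h t ht htW hhb hab
  rw [cls_eq]
  have hg' := conj_per hΦ hga k
  have hh' := conj_per hΦ hhb k
  have hab' : dist (k • a) (k • b) ≤ η := by rwa [hΦ.iso]
  have hd1 : dist ((k * g * k⁻¹) • (k • a)) (k • a) = s := by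
    have := hΦ.geo s 0 (k • a)
    rw [hΦ.zero, sub_zero, abs_of_pos hs, ← hg'] at this
    exact this
  have hd2 : dist ((k * h * k⁻¹) • (k • b)) (k • b) = t := by
    have := hΦ.geo t 0 (k • b)
    rw [hΦ.zero, sub_zero, abs_of_pos ht, ← hh'] at this
    exact this
  have hd3 : dist ((k * h * k⁻¹) • (k • a)) (k • a) ≤ W + 2 := by
    have h3 := dist_triangle4 ((k * h * k⁻¹) • (k • a)) ((k * h * k⁻¹) • (k • b)) (k • b) (k • a)
    rw [hΦ.iso, dist_comm (k • b) (k • a)] at h3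
    linarith
  have h4 := h1 (k * g * k⁻¹, k * h * k⁻¹) (k • a) (k • b) s t hk hs ht hg' hh'
    (hab'.trans (h2 _ ⟨⟨k • a, hk, by rw [hd1]; linarith⟩, ⟨k • a, hk, hd3⟩⟩))
  have h5 := gr_conj k⁻¹ h4
  simpa [mul_assoc] using h5

end

end Pool.Agent.ZF
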