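import Mathlib
import Pool.Agent.Lib.MP_8f66f0_al_ZF.Defs

/-! Project ZERO, part F, block IV: the statement about the periodic part (note 3758, IV). -/

set_option autoImplicit false

namespace Pool.Agent.ZF

/-- **IV.** The periodic part: a slow Lipschitz family with multiplicity one, which covers all of `K`
up to a compact set without short periods. Proof: note 3758, IV (1)-(6). -/
def S_IV : Prop :=
  ∀ (G X : Type) [Group G] [MetricSpace X] [MulAction G X] (Φ : ℝ → X → X), Fl G X Φ →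
    ∀ α : ℝ, 1 ≤ α → ∀ (W : ℝ) (K : Set X), IsCompact K →
    ∃ K' : Set X, IsCompact K' ∧
      (∀ c ∈ K', ∀ (g : G) (t : ℝ), 0 < t → t ≤ W → g • c ≠ Φ t c) ∧
      ∃ (V : Type) (_ : MulAction G V) (f : V → X → ℝ) (Λ : ℝ),
      (∀ v c, 0 ≤ f v c ∧ f v c ≤ 1) ∧ (∀ (g : G) v c, f (g • v) (g • c) = f v c) ∧
      (∀ v c t, |f v (Φ t c) - f v c| ≤ |t| / α) ∧
      (∀ v c c', |f v c - f v c'| ≤ Λ * dist c c') ∧
      (∀ c v w, f v c ≠ 0 → f w c ≠ 0 → v = w) ∧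
      (∀ c ∈ K, c ∉ K' → ∃ v, f v c = 1) ∧
      ∀ v c, f v c ≠ 0 → ∃ (δ : G) (c' : X) (τ : ℝ), 0 < τ ∧ δ • c' = Φ τ c' ∧
        ∀ g : G, g • v = v → ∃ a : ℕ, 0 < a ∧ g * δ ^ a = δ ^ a * g

end Pool.Agent.ZF
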