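import Mathlib
import Pool.Agent.Lib.MP_8f66f0_al_ZF.Per2
import Pool.Agent.Lib.MP_8f66f0_al_ZF.Spec
import Pool.Agent.Lib.MP_8f66f0_al_ZF.SpecIV

/-! Project ZERO, part F, block IV, (5), (6): the periodic family. -/

set_option autoImplicit false

namespace Pool.Agent.ZF

open Set

section

variable {X : Type} [MetricSpace X]

open Classical in
/-- the bump function of a set -/
noncomputable def uu (A : Set X) (e : ℝ) (c : X) : ℝ :=
  if A.Nonempty then max 0 (min 1 (2 - Metric.infDist c A / e)) else 0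

theorem uu_rng (A : Set X) (e : ℝ) (c : X) : 0 ≤ uu A e c ∧ uu A e c ≤ 1 := by
  unfold uu
  split_ifs
  · exact ⟨le_max_left _ _, max_le zero_le_one (min_le_left _ _)⟩
  · exact ⟨le_rfl, zero_le_one⟩

theorem uu_lip (A : Set X) {e : ℝ} (he : 0 < e) (c c' : X) :
    |uu A e c - uu A e c'| ≤ 1 / e * dist c c' := by
  unfold uu
  split_ifs with h
  · refine (abs_max_sub_max_le_max _ _ _ _).trans ?_
    rw [sub_self, abs_zero]
    refine max_le (by positivity) ((abs_min_sub_min_le_max _ _ _ _).trans ?_)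
    rw [sub_self, abs_zero]
    refine max_le (by positivity) ?_
    have h1 : |Metric.infDist c A - Metric.infDist c' A| ≤ dist c c' := by
      have h2 := (Metric.lipschitz_infDist_pt A).dist_le_mul c c'
      rw [NNReal.coe_one, one_mul, Real.dist_eq] at h2
      exact h2
    rw [show 2 - Metric.infDist c A / e - (2 - Metric.infDist c' A / e) =
      -((Metric.infDist c A - Metric.infDist c' A) / e) by ring, abs_neg, abs_div, abs_of_pos he,
      div_eq_mul_one_div, mul_comm]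
    gcongr
  · rw [sub_self, abs_zero]
    positivity

theorem uu_ne {A : Set X} {e : ℝ} (he : 0 < e) {c : X} (h : uu A e c ≠ 0) :
    A.Nonempty ∧ Metric.infDist c A < 2 * e := by
  unfold uu at h
  split_ifs at h with hA
  · refine ⟨hA, ?_⟩
    by_contra h1
    apply h
    have : 2 ≤ Metric.infDist c A / e := by
      rw [le_div_iff₀ he]
      linarith
    exact max_eq_left ((min_le_right _ _).trans (by linarith))
  · exact absurd rfl h

theorem uu_one {A : Set X} {e : ℝ} (he : 0 < e) {c : X} (hA : A.Nonempty)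
    (h : Metric.infDist c A ≤ e) : uu A e c = 1 := by
  unfold uu
  rw [if_pos hA]
  have : Metric.infDist c A / e ≤ 1 := by rwa [div_le_one he]
  rw [min_eq_left (by linarith), max_eq_right zero_le_one]

theorem uu_image {ψ : X → X} (hψ : Isometry ψ) (A : Set X) (e : ℝ) (c : X) :
    uu (ψ '' A) e (ψ c) = uu A e c := by
  unfold uu
  rw [Metric.infDist_image hψ]
  by_cases h : A.Nonempty
  · rw [if_pos h, if_pos (h.image ψ)]
  · rw [if_neg h, if_neg (fun h' => h h'.of_image)]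

end

section

variable {G X : Type} [Group G] [MetricSpace X] [MulAction G X] {Φ : ℝ → X → X}

theorem Fl.toPFl (hΦ : Fl G X Φ) : PFl X Φ :=
  ⟨hΦ.zero, hΦ.add, fun s t c => (hΦ.geo s t c).le, hΦ.lip⟩

theorem AP_smul_mem (hΦ : Fl G X Φ) {W : ℝ} {K : Set X} {v : VP G} {a : X}
    (h : a ∈ AP Φ W K v) (k : G) : k • a ∈ AP Φ W K (k • v) := by
  obtain ⟨⟨l, hl⟩, g, s, rfl, hs, hsW, hg⟩ := h
  refine ⟨⟨l * k⁻¹, by rwa [mul_smul, inv_smul_smul]⟩, k * g * k⁻¹, s, rfl, hs, hsW,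
    conj_per hΦ hg k⟩

theorem AP_smul (hΦ : Fl G X Φ) {W : ℝ} {K : Set X} (v : VP G) (k : G) :
    AP Φ W K (k • v) = (fun c => k • c) '' AP Φ W K v := by
  ext b
  constructor
  · intro h
    refine ⟨k⁻¹ • b, ?_, smul_inv_smul k b⟩
    have := AP_smul_mem hΦ h k⁻¹
    rwa [inv_smul_smul] at this
  · rintro ⟨a, ha, rfl⟩
    exact AP_smul_mem hΦ ha k

theorem s_IV_of (hSlw : S_Slw) : S_IV := by
  intro G X _ _ _ Φ hΦ α hα W K hK
  have hα0 : 0 < α := by linarith
  obtain ⟨e, he, hsep⟩ := sep hΦ W hK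
  obtain ⟨κ, hκ, hlip⟩ := hΦ.lip (2 * α)
  have hκ0 : 0 < κ := by linarith
  set η : ℝ := e / (4 * κ) with hη
  have hη0 : 0 < η := by positivity
  obtain ⟨hA, hB, hC⟩ := hSlw X Φ hΦ.toPFl 0 α le_rfl hα0
  set A : VP G → Set X := AP Φ W K with hAdef
  have hr := fun v => uu_rng (A v) η
  obtain ⟨Λ, hΛ, hΛ'⟩ := hB (1 / η) (by positivity)
  have hne : ∀ v c, slw Φ (uu (A v) η) 0 α c ≠ 0 → ∃ t : ℝ, |t| < α ∧
      (A v).Nonempty ∧ Metric.infDist (Φ t c) (A v) < 2 * η := by
    intro v c h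
    obtain ⟨t, ht, h1⟩ := (hA _ (hr v)).2.2.1 c h
    rw [zero_add] at ht
    exact ⟨t, ht, uu_ne hη0 h1.ne'⟩
  refine ⟨{c | c ∈ K ∧ ∀ v, (A v).Nonempty → η ≤ Metric.infDist c (A v)}, ?_, ?_,
    VP G, inferInstance, fun v => slw Φ (uu (A v) η) 0 α, Λ, fun v => (hA _ (hr v)).1, ?_,
    fun v => (hA _ (hr v)).2.1, ?_, ?_, ?_, ?_⟩
  · refine hK.inter_right ?_
    have : {c : X | ∀ v, (A v).Nonempty → η ≤ Metric.infDist c (A v)} =
        ⋂ v, ⋂ (_ : (A v).Nonempty), {c : X | η ≤ Metric.infDist c (A v)} := by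
      ext c
      simp
    change IsClosed {c : X | ∀ v, (A v).Nonempty → η ≤ Metric.infDist c (A v)}
    rw [this]
    refine isClosed_iInter fun v => isClosed_iInter fun _ => ?_
    exact isClosed_le continuous_const (Metric.continuous_infDist_pt _)
  · rintro c ⟨hc, h1⟩ g t ht htW hg
    have h2 : c ∈ A (cls g) := ⟨⟨1, by rwa [one_smul]⟩, g, t, rfl, ht, htW, hg⟩
    have h3 := h1 (cls g) ⟨c, h2⟩
    rw [Metric.infDist_zero_of_mem h2] at h3
    linarith
  · intro g v c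
    refine hC (uu (A v) η) (uu (A (g • v)) η) (fun c => g • c) (fun t c => hΦ.comm g t c) ?_ c
    intro c
    change uu (AP Φ W K (g • v)) η (g • c) = _
    rw [AP_smul hΦ v g]
    exact uu_image (Isometry.of_dist_eq fun x y => hΦ.iso g x y) _ _ _
  · intro v c c'
    exact hΛ' _ (hr v) (uu_lip (A v) hη0) c c'
  · intro c v w hv hw
    obtain ⟨t, ht, hvn, h1⟩ := hne v c hv
    obtain ⟨t', ht', hwn, h2⟩ := hne w c hw
    obtain ⟨a, ha, h1⟩ := (Metric.infDist_lt_iff hvn).1 h1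
    obtain ⟨a', ha', h2⟩ := (Metric.infDist_lt_iff hwn).1 h2
    obtain ⟨-, h, s, rfl, hs, hsW, hh⟩ := ha'
    refine hsep v a ha (Φ (t - t') a') h s hs hsW (flow_per hΦ hh _) ?_
    have h3 : dist (Φ t c) (Φ (t - t') a') ≤ κ * dist (Φ t' c) a' := by
      have h4 := hlip (t - t') (Φ t' c) a' (by
        have := abs_sub t t'
        linarith)
      rwa [← hΦ.add, sub_add_cancel] at h4
    have h4 : κ * dist (Φ t' c) a' ≤ κ * (2 * η) := by gcongr
    have h5 := dist_triangle_left a (Φ (t - t') a') (Φ t c)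
    have h6 : 2 * η ≤ κ * (2 * η) := by nlinarith
    have h7 : κ * (2 * η) = e / 2 := by
      rw [hη]
      field_simp
      ring
    linarith
  · intro c hc hc'
    have h1 : ∃ v, (A v).Nonempty ∧ Metric.infDist c (A v) < η := by
      by_contra hcon
      push Not at hcon
      exact hc' ⟨hc, hcon⟩
    obtain ⟨v, hv, h2⟩ := h1
    refine ⟨v, le_antisymm ((hA _ (hr v)).1 c).2 ?_⟩
    have h3 := (hA _ (hr v)).2.2.2 c 0 (by rw [abs_zero])
    rw [hΦ.zero, uu_one hη0 hv h2.le] at h3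
    exact h3
  · intro v c hv
    obtain ⟨t, -, ⟨c', -, δ, s, rfl, hs, -, hδ⟩, -⟩ := hne v c hv
    exact ⟨δ, c', s, hs, hδ, fun g hg => per_comm hΦ hs hδ hg⟩

end

end Pool.Agent.ZF
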