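import Pool.Agent.Lib.MP_8f66f0_al_ZF.Spec

/-! Project ZERO, part F: the sup-convolution along the flow. -/

set_option autoImplicit false

namespace Pool.Agent.ZF

open MeasureTheory Set

section

variable {X : Type} {Φ : ℝ → X → X} {L α : ℝ}

/-- The term of `t`. -/
private noncomputable def tm (Φ : ℝ → X → X) (b : X → ℝ) (L α : ℝ) (c : X) (t : ℝ) : ℝ :=
  max 0 (b (Φ t c) - max 0 (|t| - L) / α)

private theorem slw_eq (b : X → ℝ) (c : X) : slw Φ b L α c = sSup (Set.range (tm Φ b L α c)) := rfl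

private theorem tm_nonneg (b : X → ℝ) (c : X) (t : ℝ) : 0 ≤ tm Φ b L α c t := le_max_left _ _

private theorem tm_le (hα : 0 < α) {b : X → ℝ} (hb : ∀ c, 0 ≤ b c ∧ b c ≤ 1) (c : X) (t : ℝ) :
    tm Φ b L α c t ≤ 1 := by
  refine max_le zero_le_one ?_
  have h1 : 0 ≤ max 0 (|t| - L) / α := div_nonneg (le_max_left _ _) hα.le
  linarith [(hb (Φ t c)).2]

private theorem tm_bdd (hα : 0 < α) {b : X → ℝ} (hb : ∀ c, 0 ≤ b c ∧ b c ≤ 1) (c : X) :
    BddAbove (Set.range (tm Φ b L α c)) :=
  ⟨1, by rintro _ ⟨t, rfl⟩; exact tm_le hα hb c t⟩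

private theorem tm_slw (hα : 0 < α) {b : X → ℝ} (hb : ∀ c, 0 ≤ b c ∧ b c ≤ 1) (c : X) (t : ℝ) :
    tm Φ b L α c t ≤ slw Φ b L α c := le_csSup (tm_bdd hα hb c) ⟨t, rfl⟩

private theorem slw_le {b : X → ℝ} (c : X) {r : ℝ} (h : ∀ t, tm Φ b L α c t ≤ r) :
    slw Φ b L α c ≤ r :=
  csSup_le (Set.range_nonempty _) (by rintro _ ⟨t, rfl⟩; exact h t)

private theorem mx_lip (hα : 0 < α) (t t' : ℝ) :
    max 0 (|t| - L) / α ≤ max 0 (|t'| - L) / α + |t - t'| / α := by
  rw [← add_div]
  refine div_le_div_of_nonneg_right ?_ hα.le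
  refine max_le ?_ ?_
  · have := le_max_left 0 (|t'| - L)
    have := abs_nonneg (t - t')
    linarith
  · have h1 := le_max_right 0 (|t'| - L)
    have h2 := abs_sub_abs_le_abs_sub t t'
    linarith

private theorem tm_far (hα : 0 < α) {b : X → ℝ} (hb : ∀ c, 0 ≤ b c ∧ b c ≤ 1) (c : X) {t : ℝ}
    (ht : L + α ≤ |t|) : tm Φ b L α c t = 0 := by
  refine max_eq_left ?_
  have h1 : 1 ≤ max 0 (|t| - L) / α := by
    rw [le_div_iff₀ hα]
    exact le_trans (by linarith) (le_max_right _ _)
  linarith [(hb (Φ t c)).2]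

end

theorem t_Slw : S_Slw := by
  intro X _ Φ hΦ L α hL hα
  refine ⟨fun b hb => ⟨fun c => ⟨?_, ?_⟩, ?_, ?_, ?_⟩, ?_, ?_⟩
  · exact (tm_nonneg b c 0).trans (tm_slw hα hb c 0)
  · exact slw_le c (tm_le hα hb c)
  · intro c t
    have key : ∀ (c : X) (t : ℝ), slw Φ b L α (Φ t c) ≤ slw Φ b L α c + |t| / α := by
      intro c t
      refine slw_le _ fun u => ?_
      have h1 := tm_slw (Φ := Φ) (L := L) hα hb c (u + t)
      have h2 : tm Φ b L α (Φ t c) u ≤ tm Φ b L α c (u + t) + |t| / α := by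
        refine max_le ?_ ?_
        · have := tm_nonneg (Φ := Φ) (L := L) (α := α) b c (u + t)
          have : 0 ≤ |t| / α := div_nonneg (abs_nonneg _) hα.le
          linarith
        · have h3 : b (Φ (u + t) c) - max 0 (|u + t| - L) / α ≤ tm Φ b L α c (u + t) :=
            le_max_right _ _
          have h4 := mx_lip (L := L) hα (u + t) u
          rw [add_sub_cancel_left] at h4
          rw [← hΦ.add]
          linarith
      linarith
    have h1 := key c t
    have h2 := key (Φ t c) (-t)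
    rw [← hΦ.add, neg_add_cancel, hΦ.zero, abs_neg] at h2
    rw [abs_le]
    constructor <;> linarith
  · intro c hc
    by_contra hcon
    push Not at hcon
    refine hc (le_antisymm (slw_le c fun t => ?_) ((tm_nonneg b c 0).trans (tm_slw hα hb c 0)))
    rcases le_or_gt (L + α) |t| with ht | ht
    · exact (tm_far hα hb c ht).le
    · refine max_le le_rfl ?_
      have h1 := hcon t ht
      have h2 : 0 ≤ max 0 (|t| - L) / α := div_nonneg (le_max_left _ _) hα.le
      linarith
  · intro c t ht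
    refine le_trans ?_ (tm_slw hα hb c t)
    refine le_trans (le_of_eq ?_) (le_max_right _ _)
    rw [max_eq_left (by linarith), zero_div, sub_zero]
  · intro Λ hΛ
    obtain ⟨κ, hκ1, hκ⟩ := hΦ.lip (L + α)
    refine ⟨Λ * κ, by positivity, fun b hb hbL c c' => ?_⟩
    have key : ∀ c c' : X, slw Φ b L α c ≤ slw Φ b L α c' + Λ * κ * dist c c' := by
      intro c c'
      refine slw_le _ fun t => ?_
      have h0 : 0 ≤ Λ * κ * dist c c' := by positivity
      rcases le_or_gt (L + α) |t| with ht | ht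
      · rw [tm_far hα hb c ht]
        have := (tm_nonneg b c' 0).trans (tm_slw (Φ := Φ) (L := L) hα hb c' 0)
        linarith
      · have h1 := tm_slw (Φ := Φ) (L := L) hα hb c' t
        have h2 : tm Φ b L α c t ≤ tm Φ b L α c' t + Λ * κ * dist c c' := by
          refine max_le ?_ ?_
          · have := tm_nonneg (Φ := Φ) (L := L) (α := α) b c' t
            linarith
          · have h3 : b (Φ t c') - max 0 (|t| - L) / α ≤ tm Φ b L α c' t := le_max_right _ _
            have h4 := abs_le.1 (hbL (Φ t c) (Φ t c'))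
            have h5 : Λ * dist (Φ t c) (Φ t c') ≤ Λ * (κ * dist c c') :=
              mul_le_mul_of_nonneg_left (hκ t c c' ht.le) hΛ
            rw [← mul_assoc] at h5
            linarith [h4.2]
        linarith
    have h1 := key c c'
    have h2 := key c' c
    rw [dist_comm c' c] at h2
    rw [abs_le]
    constructor <;> linarith
  · intro b b' ψ h1 h2 c
    rw [slw_eq, slw_eq]
    congr 1
    refine congrArg Set.range ?_
    funext t
    unfold tm
    rw [h1, h2]

end Pool.Agent.ZF
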