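import Mathlib
import Pool.Agent.Lib.MP_8f66f0_al_ZF.Spec

/-!
# Project ZERO, part F, Wb: basic properties of `ww` and `vv`
-/

set_option autoImplicit false

namespace Pool.Agent.ZF

open MeasureTheory Set

namespace WbAux

variable {X : Type} [PseudoMetricSpace X] {Φ : ℝ → X → X}

theorem infLip (P : Set X) (a b : X) : |Metric.infDist a P - Metric.infDist b P| ≤ dist a b := by
  rw [abs_le]
  have h1 := Metric.infDist_le_infDist_add_dist (s := P) (x := a) (y := b)
  have h2 := Metric.infDist_le_infDist_add_dist (s := P) (x := b) (y := a)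
  rw [dist_comm b a] at h2
  constructor <;> linarith

theorem vvTim (h : PFl X Φ) (n : ℝ) (l : ℕ) (P : Set X) (c : X) (t t' : ℝ) :
    |vv Φ n l P (Φ t c) - vv Φ n l P (Φ t' c)| ≤ |t - t'| := by
  unfold vv
  refine (infLip P _ _).trans ?_
  rw [← h.add, ← h.add]
  refine (h.tim _ _ c).trans ?_
  have : -tt n l + t - (-tt n l + t') = t - t' := by ring
  rw [this]

theorem vvCont (h : PFl X Φ) (n : ℝ) (l : ℕ) (P : Set X) (c : X) :
    Continuous fun t => vv Φ n l P (Φ t c) := by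
  refine LipschitzWith.continuous (K := 1) (LipschitzWith.of_dist_le_mul fun t t' => ?_)
  rw [Real.dist_eq, Real.dist_eq]
  simpa using vvTim h n l P c t t'

theorem exMin (h : PFl X Φ) {n : ℝ} (hn : 1 ≤ n) (l : ℕ) (P : Set X) (l' : ℕ) (c : X) :
    ∃ t ∈ blk n l', vv Φ n l P (Φ t c) = ww Φ n l P l' c ∧
      ∀ t' ∈ blk n l', ww Φ n l P l' c ≤ vv Φ n l P (Φ t' c) := by
  have hne : (blk n l').Nonempty := ⟨tt n l', by unfold blk; constructor <;> linarith⟩
  have hc : IsCompact (blk n l') := isCompact_Icc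
  obtain ⟨t, ht, hmin⟩ := hc.exists_isMinOn hne (vvCont h n l P c).continuousOn
  have hbd : BddBelow ((fun t => vv Φ n l P (Φ t c)) '' blk n l') :=
    ⟨0, by rintro _ ⟨t, _, rfl⟩; exact Metric.infDist_nonneg⟩
  have key : vv Φ n l P (Φ t c) = ww Φ n l P l' c := by
    refine le_antisymm ?_ (csInf_le hbd ⟨t, ht, rfl⟩)
    refine le_csInf (hne.image _) ?_
    rintro _ ⟨t', ht', rfl⟩
    exact hmin ht'
  exact ⟨t, ht, key, fun t' ht' => key ▸ hmin ht'⟩

theorem vvLip (h : PFl X Φ) (n : ℝ) (l : ℕ) (T : ℝ) : ∃ κ : ℝ, 1 ≤ κ ∧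
    ∀ (P : Set X) (t : ℝ) (c c' : X), |t| ≤ T →
      |vv Φ n l P (Φ t c) - vv Φ n l P (Φ t c')| ≤ κ * dist c c' := by
  obtain ⟨κ, hκ, hl⟩ := h.lip (|tt n l| + T)
  refine ⟨κ, hκ, fun P t c c' ht => ?_⟩
  unfold vv
  refine (infLip P _ _).trans ?_
  rw [← h.add, ← h.add]
  refine hl _ c c' ?_
  refine (abs_add_le _ _).trans ?_
  rw [abs_neg]
  linarith

theorem blkAbs {n : ℝ} {l : ℕ} {t : ℝ} (ht : t ∈ blk n l) : |t| ≤ |tt n l| + n := by
  obtain ⟨h1, h2⟩ := ht
  have h3 := le_abs_self (tt n l)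
  have h4 := neg_abs_le (tt n l)
  rw [abs_le]
  constructor <;> linarith

end WbAux

open WbAux in
theorem t_Wb : S_Wb := by
  intro X _ Φ h n hn
  refine ⟨?_, ?_, vvLip h n, ?_, ?_, ?_⟩
  · intro l P l' c
    obtain ⟨t, ht, h1, -⟩ := exMin h hn l P l' c
    exact ⟨t, ht, h1⟩
  · intro l P l' c t ht
    obtain ⟨-, -, -, h2⟩ := exMin h hn l P l' c
    exact h2 t ht
  · intro l l'
    obtain ⟨κ, hκ, hl⟩ := vvLip h n l (|tt n l'| + n)
    refine ⟨κ, hκ, fun P c c' => ?_⟩
    obtain ⟨t, ht, h1, h2⟩ := exMin h hn l P l' c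
    obtain ⟨t', ht', h1', h2'⟩ := exMin h hn l P l' c'
    have a1 := hl P t' c c' (blkAbs ht')
    have a2 := hl P t c c' (blkAbs ht)
    have b1 := h2 t' ht'
    have b2 := h2' t ht
    rw [abs_le] at a1 a2 ⊢
    constructor <;> linarith [a1.1, a1.2, a2.1, a2.2]
  · intro s l hls t ht
    obtain ⟨h1, h2⟩ := ht
    have e1 : ((l : ℝ) + 1) ≤ s := by exact_mod_cast hls
    have e0 : (0 : ℝ) ≤ l := Nat.cast_nonneg l
    unfold tt at h1 h2
    unfold LL
    constructor
    · nlinarith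
    · nlinarith
  · intro l l' hll
    have hd : (1 : ℝ) ≤ |(l : ℝ) - l'| := by
      rcases lt_or_gt_of_ne hll with hlt | hlt
      · have : (l : ℝ) + 1 ≤ l' := by exact_mod_cast hlt
        rw [abs_sub_comm]
        exact le_trans (by linarith) (le_abs_self _)
      · have : (l' : ℝ) + 1 ≤ l := by exact_mod_cast hlt
        exact le_trans (by linarith) (le_abs_self _)
    have hT : 2 * n + 2 ≤ |tt n l - tt n l'| := by
      have : tt n l - tt n l' = (2 * n + 2) * ((l : ℝ) - l') := by unfold tt; ring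
      rw [this, abs_mul, abs_of_pos (by linarith : (0 : ℝ) < 2 * n + 2)]
      nlinarith
    refine ⟨hT, fun t ht t' ht' => ?_⟩
    have a1 : |t - tt n l| ≤ n := by
      obtain ⟨h1, h2⟩ := ht
      rw [abs_le]; constructor <;> linarith
    have a2 : |t' - tt n l'| ≤ n := by
      obtain ⟨h1, h2⟩ := ht'
      rw [abs_le]; constructor <;> linarith
    have a3 : |tt n l - tt n l'| ≤ |t - t'| + |t - tt n l| + |t' - tt n l'| := by
      have : tt n l - tt n l' = (t - t') - (t - tt n l) + (t' - tt n l') := by ring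
      rw [this]
      refine (abs_add_le _ _).trans ?_
      have := abs_sub (t - t') (t - tt n l)
      linarith
    linarith

end Pool.Agent.ZF
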