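import Mathlib
import Pool.Agent.Lib.MP_8f66f0_al_ZFM.Mkl
import Pool.Agent.Lib.MP_8f66f0_al_ZF.Orb
import Pool.Agent.Lib.MP_8f66f0_al_ZF.Ctr
import Pool.Agent.Lib.MP_8f66f0_al_ZF.Cov
import Pool.Agent.Lib.MP_8f66f0_al_ZF.Slw
import Pool.Agent.Lib.MP_8f66f0_al_ZF.Wb
import Pool.Agent.Lib.MP_8f66f0_al_ZF.Mar
import Pool.Agent.Lib.MP_8f66f0_al_ZF.Bmp
import Pool.Agent.Lib.MP_8f66f0_al_ZF.III
import Pool.Agent.Lib.MP_8f66f0_al_ZF.Per3
import Pool.Agent.Lib.MP_8f66f0_al_ZF.Fin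

/-! Project ZERO, part F: the assembly. `ZA.S_F` without hypotheses. -/

set_option autoImplicit false

namespace Pool.Agent.ZF

open Set

/-- `S_Cnt`: by the injectivity of `v ↦ ⌊τ v / n⌋`. -/
theorem cnt_FA : S_Cnt := by
  intro V A τ n N hn hb hs
  have hinj : InjOn (fun v => ⌊τ v / n⌋) A := by
    intro v hv w hw hvw
    by_contra hne
    have h1 := hs v hv w hw hne
    have h2 : |τ v / n - τ w / n| < 1 := by
      have a1 := Int.floor_le (τ v / n)
      have a2 := Int.lt_floor_add_one (τ v / n)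
      have b1 := Int.floor_le (τ w / n)
      have b2 := Int.lt_floor_add_one (τ w / n)
      have e : ((⌊τ v / n⌋ : ℤ) : ℝ) = ((⌊τ w / n⌋ : ℤ) : ℝ) := by
        exact_mod_cast hvw
      rw [abs_lt]
      constructor <;> linarith
    have h3 : |τ v / n - τ w / n| = |τ v - τ w| / n := by
      rw [← sub_div, abs_div, abs_of_pos hn]
    rw [h3, div_lt_one hn] at h2
    exact lt_asymm h1 h2
  have hmap : MapsTo (fun v => ⌊τ v / n⌋) A (Finset.Ico (-(N : ℤ)) N : Finset ℤ) := by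
    intro v hv
    have h1 := abs_lt.1 (hb v hv)
    rw [Finset.mem_coe, Finset.mem_Ico]
    constructor
    · rw [Int.le_floor, le_div_iff₀ hn]
      push_cast
      linarith [h1.1]
    · rw [Int.floor_lt, div_lt_iff₀ hn]
      push_cast
      exact h1.2
  have hfin : A.Finite := Set.Finite.of_injOn hmap hinj (Finset.finite_toSet _)
  refine ⟨hfin, ?_⟩
  have h4 := Set.ncard_le_ncard_of_injOn _ hmap hinj (Finset.finite_toSet _)
  rw [Set.ncard_coe_finset, Int.card_Ico] at h4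
  omega

/-- Part F of project ZERO. -/
theorem sF : Pool.Agent.ZA.S_F :=
  s_F (t_III Pool.Agent.ZFM.t_Mrk t_Orb (t_Cov t_Orb (t_Ctr t_Orb)) t_Slw cnt_FA t_Wb (t_Mar t_Wb)
    (t_Bmp t_Orb)) (s_IV_of t_Slw)

end Pool.Agent.ZF
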