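import Pool.Agent.Lib.MP_8f66f0_al_ZF.Defs

/-! Project ZERO, part F: null sets of (integer) dimension `s` for a distance function `d`, their
slices by Lipschitz functions, and the comparison with the Hausdorff dimension. -/

set_option autoImplicit false

namespace Pool.Agent.ZF

open MeasureTheory Metric Set
open scoped ENNReal NNReal

/-- Preimages under maps which do not decrease distances. -/
theorem nullD_comap {X Y : Type} {d : X → X → ℝ} {d' : Y → Y → ℝ} {f : Y → X}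
    (h : ∀ y y', d' y y' ≤ d (f y) (f y')) {s : ℕ} {C : Set X} (hC : NullD d s C) :
    NullD d' s (f ⁻¹' C) := by
  cases s with
  | zero =>
    change C = ∅ at hC
    change f ⁻¹' C = ∅
    rw [hC]
    rfl
  | succ s =>
    intro ε hε
    obtain ⟨A, r, h1, h2, h3, h4, h5⟩ := hC ε hε
    refine ⟨fun i => f ⁻¹' A i, r, h1, ?_, fun i x hx y hy => (h x y).trans (h3 i _ hx _ hy),
      h4, h5⟩
    intro y hy
    obtain ⟨i, hi⟩ := Set.mem_iUnion.1 (h2 hy)
    exact Set.mem_iUnion.2 ⟨i, hi⟩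

theorem nullD_mono {X : Type} {d d' : X → X → ℝ} (h : ∀ x y, d x y ≤ d' x y) {s : ℕ}
    {C C' : Set X} (hC : NullD d' s C) (hC' : C' ⊆ C) : NullD d s C' := by
  cases s with
  | zero =>
    change C = ∅ at hC
    change C' = ∅
    rw [hC] at hC'
    exact Set.subset_empty_iff.1 hC'
  | succ s =>
    intro ε hε
    obtain ⟨A, r, h1, h2, h3, h4, h5⟩ := hC ε hε
    exact ⟨A, r, h1, hC'.trans h2, fun i x hx y hy => (h x y).trans (h3 i _ hx _ hy), h4, h5⟩

/-- Almost all level sets of a Lipschitz function on a null set of dimension `s + 1` are null sets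
of dimension `s`. -/
theorem nullD_slice {X : Type} {d : X → X → ℝ} {s : ℕ} {C : Set X} (hC : NullD d (s + 1) C)
    {h : X → ℝ} {Lc : ℝ} (hLc : 0 < Lc) (hh : ∀ x y, |h x - h y| ≤ Lc * d x y) :
    volume {ρ : ℝ | ¬ NullD d s (C ∩ {x | h x = ρ})} = 0 := by
  classical
  have hε : ∀ k : ℕ, (0 : ℝ) < 1 / ((k : ℝ) + 1) := fun k => by positivity
  choose A r hr hA1 hA2 hsm hts using fun k : ℕ => hC (1 / ((k : ℝ) + 1)) (hε k)
  set B : ℕ → ℕ → Set ℝ := fun k i => if hn : (A k i ∩ C).Nonempty then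
    closedBall (h hn.some) (Lc * r k i) else ∅ with hBdef
  have hB : ∀ k i x, x ∈ A k i → x ∈ C → h x ∈ B k i := by
    intro k i x hx hxC
    have hn : (A k i ∩ C).Nonempty := ⟨x, hx, hxC⟩
    simp only [hBdef]
    rw [dif_pos hn, mem_closedBall, Real.dist_eq]
    exact (hh _ _).trans (mul_le_mul_of_nonneg_left (hA2 k i x hx _ hn.some_mem.1) hLc.le)
  have hBm : ∀ k i, MeasurableSet (B k i) := by
    intro k i
    simp only [hBdef]
    split_ifs
    · exact isClosed_closedBall.measurableSet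
    · exact MeasurableSet.empty
  have hBv : ∀ k i, ENNReal.ofReal (r k i ^ s) * volume (B k i) ≤
      ENNReal.ofReal (2 * Lc) * ENNReal.ofReal (r k i ^ (s + 1)) := by
    intro k i
    by_cases hn : (A k i ∩ C).Nonempty
    · simp only [hBdef]
      rw [dif_pos hn, Real.volume_closedBall, ← ENNReal.ofReal_mul (pow_nonneg (hr k i) _),
        ← ENNReal.ofReal_mul (by positivity)]
      apply le_of_eq
      congr 1
      ring
    · simp only [hBdef]
      rw [dif_neg hn, measure_empty, mul_zero]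
      exact zero_le
  set w : ℕ → ℝ → ℝ≥0∞ := fun k ρ =>
    ∑' i, (B k i).indicator (fun _ => ENNReal.ofReal (r k i ^ s)) ρ with hw
  have hwm : ∀ k, Measurable (w k) := fun k =>
    Measurable.tsum fun i => measurable_const.indicator (hBm k i)
  have hwi : ∀ k : ℕ, ∫⁻ ρ, w k ρ ≤ ENNReal.ofReal (2 * Lc * (1 / ((k : ℝ) + 1))) := by
    intro k
    calc ∫⁻ ρ, w k ρ
        = ∑' i, ∫⁻ ρ, (B k i).indicator (fun _ => ENNReal.ofReal (r k i ^ s)) ρ :=
          lintegral_tsum fun i => (measurable_const.indicator (hBm k i)).aemeasurable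
      _ = ∑' i, ENNReal.ofReal (r k i ^ s) * volume (B k i) := by
          congr 1
          funext i
          rw [lintegral_indicator_const (hBm k i)]
      _ ≤ ∑' i, ENNReal.ofReal (2 * Lc) * ENNReal.ofReal (r k i ^ (s + 1)) :=
          ENNReal.tsum_le_tsum (hBv k)
      _ = ENNReal.ofReal (2 * Lc) * ∑' i, ENNReal.ofReal (r k i ^ (s + 1)) :=
          ENNReal.tsum_mul_left
      _ = ENNReal.ofReal (2 * Lc) * ENNReal.ofReal (∑' i, r k i ^ (s + 1)) := by
          rw [ENNReal.ofReal_tsum_of_nonneg (fun i => pow_nonneg (hr k i) _) (hsm k)]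
      _ ≤ ENNReal.ofReal (2 * Lc) * ENNReal.ofReal (1 / ((k : ℝ) + 1)) :=
          mul_le_mul' le_rfl (ENNReal.ofReal_le_ofReal (hts k))
      _ = _ := (ENNReal.ofReal_mul (by positivity)).symm
  have hw0 : ∫⁻ ρ, ⨅ k, w k ρ = 0 := by
    have h1 : ∀ k : ℕ, ∫⁻ ρ, ⨅ k, w k ρ ≤ ENNReal.ofReal (2 * Lc * (1 / ((k : ℝ) + 1))) :=
      fun k => (lintegral_mono fun ρ => iInf_le _ k).trans (hwi k)
    have h2 : Filter.Tendsto (fun k : ℕ => ENNReal.ofReal (2 * Lc * (1 / ((k : ℝ) + 1))))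
        Filter.atTop (nhds (ENNReal.ofReal (2 * Lc * 0))) :=
      ENNReal.tendsto_ofReal ((tendsto_one_div_add_atTop_nhds_zero_nat (𝕜 := ℝ)).const_mul _)
    rw [mul_zero, ENNReal.ofReal_zero] at h2
    exact le_antisymm (ge_of_tendsto' h2 h1) zero_le
  rw [lintegral_eq_zero_iff (Measurable.iInf hwm)] at hw0
  change ∀ᵐ ρ ∂(volume : Measure ℝ), NullD d s (C ∩ {x | h x = ρ})
  filter_upwards [hw0] with ρ hρ
  change (⨅ k, w k ρ) = 0 at hρ
  have hk : ∀ ε : ℝ≥0∞, 0 < ε → ∃ k, w k ρ < ε := by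
    intro ε hε
    have h1 : ⨅ k, w k ρ < ε := by
      rw [hρ]
      exact hε
    exact iInf_lt_iff.1 h1
  have hmem : ∀ k i x, x ∈ A k i → x ∈ C → h x = ρ → ρ ∈ B k i := by
    intro k i x h1 h2 h3
    have := hB k i x h1 h2
    rwa [h3] at this
  cases s with
  | zero =>
    change C ∩ {x | h x = ρ} = ∅
    refine Set.eq_empty_of_forall_notMem fun x hx => ?_
    obtain ⟨k, hk⟩ := hk 1 one_pos
    obtain ⟨i, hi⟩ := Set.mem_iUnion.1 (hA1 k hx.1)
    have h1 := hmem k i x hi hx.1 hx.2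
    have h2 := ENNReal.le_tsum
      (f := fun i => (B k i).indicator (fun _ => ENNReal.ofReal (r k i ^ 0)) ρ) i
    change _ ≤ w k ρ at h2
    rw [Set.indicator_of_mem h1, pow_zero, ENNReal.ofReal_one] at h2
    exact absurd (lt_of_le_of_lt h2 hk) (lt_irrefl _)
  | succ s =>
    intro ε hε
    obtain ⟨k, hk⟩ := hk (ENNReal.ofReal ε) (ENNReal.ofReal_pos.2 hε)
    set r' : ℕ → ℝ := fun i => if ρ ∈ B k i then r k i else 0 with hr'
    have h0 : ∀ i, 0 ≤ r' i := by
      intro i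
      simp only [hr']
      split_ifs
      · exact hr k i
      · exact le_rfl
    have h1 : ∀ i, ENNReal.ofReal (r' i ^ (s + 1)) =
        (B k i).indicator (fun _ => ENNReal.ofReal (r k i ^ (s + 1))) ρ := by
      intro i
      simp only [hr']
      split_ifs with h
      · rw [Set.indicator_of_mem h]
      · rw [Set.indicator_of_notMem h, zero_pow (Nat.succ_ne_zero s), ENNReal.ofReal_zero]
    have h2 : ∑' i, ENNReal.ofReal (r' i ^ (s + 1)) = w k ρ := by
      simp only [h1]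
      rfl
    have h3 : Summable fun i => r' i ^ (s + 1) := by
      have h4 : ∑' i, ENNReal.ofReal (r' i ^ (s + 1)) ≠ ⊤ := by
        rw [h2]
        exact (hk.trans ENNReal.ofReal_lt_top).ne
      have h5 := ENNReal.summable_toReal h4
      refine h5.congr fun i => ?_
      rw [ENNReal.toReal_ofReal (pow_nonneg (h0 i) _)]
    refine ⟨fun i => A k i ∩ (C ∩ {x | h x = ρ}), r', h0, ?_, ?_, h3, ?_⟩
    · intro x hx
      obtain ⟨i, hi⟩ := Set.mem_iUnion.1 (hA1 k hx.1)
      exact Set.mem_iUnion.2 ⟨i, hi, hx⟩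
    · intro i x hx y hy
      have h4 : r' i = r k i := by
        simp only [hr']
        rw [if_pos (hmem k i x hx.1 hx.2.1 hx.2.2)]
      rw [h4]
      exact hA2 k i x hx.1 y hy.1
    · rw [← ENNReal.ofReal_tsum_of_nonneg (fun i => pow_nonneg (h0 i) _) h3] at h2
      rw [← h2] at hk
      exact ((ENNReal.ofReal_lt_ofReal_iff hε).1 hk).le

/-- Hausdorff dimension at most `D` gives null sets of dimension `D + 1`. -/
theorem nullD_of_dimH {X : Type} [MetricSpace X] {D : ℕ} {C : Set X} (h : dimH C ≤ D) :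
    NullD (dist : X → X → ℝ) (D + 1) C := by
  borelize X
  have h1 : dimH C < ((D + 1 : ℝ≥0) : ℝ≥0∞) := by
    refine lt_of_le_of_lt h ?_
    have : (D : ℝ≥0) < (D : ℝ≥0) + 1 := lt_add_one _
    exact_mod_cast this
  have h2 := hausdorffMeasure_of_dimH_lt h1
  rw [Measure.hausdorffMeasure_apply] at h2
  have h3 := le_of_eq h2
  rw [iSup₂_le_iff] at h3
  have h4 := h3 1 zero_lt_one
  intro ε hε
  have h5 : (⨅ (t : ℕ → Set X) (_ : C ⊆ ⋃ n, t n) (_ : ∀ n, ediam (t n) ≤ 1),
      ∑' n, ⨆ _ : (t n).Nonempty, ediam (t n) ^ ((D + 1 : ℝ≥0) : ℝ)) < ENNReal.ofReal ε :=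
    lt_of_le_of_lt h4 (ENNReal.ofReal_pos.2 hε)
  simp only [iInf_lt_iff] at h5
  obtain ⟨t, ht1, ht2, ht3⟩ := h5
  have h6 : ∀ i, ediam (t i) ≠ ⊤ := fun i => ((ht2 i).trans_lt ENNReal.one_lt_top).ne
  have h7 : ∀ i, ENNReal.ofReal ((ediam (t i)).toReal ^ (D + 1)) =
      ⨆ _ : (t i).Nonempty, ediam (t i) ^ ((D + 1 : ℝ≥0) : ℝ) := by
    intro i
    have h8 : ((D + 1 : ℝ≥0) : ℝ) = ((D + 1 : ℕ) : ℝ) := by push_cast; rfl
    rw [h8, ENNReal.rpow_natCast, ENNReal.ofReal_pow ENNReal.toReal_nonneg,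
      ENNReal.ofReal_toReal (h6 i)]
    rcases (t i).eq_empty_or_nonempty with h0 | h0
    · rw [h0, iSup_neg Set.not_nonempty_empty, ediam_empty, zero_pow (Nat.succ_ne_zero D)]
      rfl
    · rw [iSup_pos h0]
  have h9 : ∑' i, ENNReal.ofReal ((ediam (t i)).toReal ^ (D + 1)) < ENNReal.ofReal ε := by
    simp only [h7]
    exact ht3
  have h10 : Summable fun i => (ediam (t i)).toReal ^ (D + 1) := by
    have h11 := ENNReal.summable_toReal (h9.trans ENNReal.ofReal_lt_top).ne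
    refine h11.congr fun i => ?_
    rw [ENNReal.toReal_ofReal (pow_nonneg ENNReal.toReal_nonneg _)]
  refine ⟨t, fun i => (ediam (t i)).toReal, fun i => ENNReal.toReal_nonneg, ht1, ?_, h10, ?_⟩
  · intro i x hx y hy
    rw [dist_edist]
    exact ENNReal.toReal_mono (h6 i) (edist_le_ediam_of_mem hx hy)
  · rw [← ENNReal.ofReal_tsum_of_nonneg (fun i => pow_nonneg ENNReal.toReal_nonneg _) h10] at h9
    exact ((ENNReal.ofReal_lt_ofReal_iff hε).1 h9).le

/-- The whole of a subspace. -/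
theorem nullD_subtype {X : Type} [MetricSpace X] {D : ℕ} (h : dimH (Set.univ : Set X) ≤ D)
    (p : X → Prop) : NullD (fun a b : {x // p x} => dist a.1 b.1) (D + 1) Set.univ :=
  nullD_comap (f := Subtype.val) (fun _ _ => le_rfl) (nullD_of_dimH h)

end Pool.Agent.ZF
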