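import Mathlib
import Pool.Agent.Lib.MP_8f66f0_al_ZA.Defs
import Pool.Agent.Lib.MP_8f66f0_al_ZF.Null

/-! Project ZERO, part F: the bridge from `ZA.Geo` to the abstract flow spaces `Fl`, and the
statement `S_TF` which gives `ZA.S_F`. -/

set_option autoImplicit false

namespace Pool.Agent.ZF

open Set Pool.Agent.ZA
open scoped Pointwise

/-- The abstract Theorem F: long thin families over compact sets of a flow space. -/
def S_TF : Prop :=
  ∀ (G X : Type) [Group G] [MetricSpace X] [MulAction G X] (Φ : ℝ → X → X), Fl G X Φ →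
    ∀ s : ℕ, NullD (fun x y : X => dist x y) s Set.univ → ∃ n : ℕ, ∀ K : Set X, IsCompact K →
      ∀ α : ℝ, 1 ≤ α → ∃ U : Fam G X (fun g c => g • c)
        (fun V => Finite V ∨ ∃ (δ : G) (c : X) (τ : ℝ), 0 < τ ∧ δ • c = Φ τ c ∧
          ∀ g ∈ V, ∃ a : ℕ, 0 < a ∧ g * δ ^ a = δ ^ a * g) n,
        U.UC ∧ (∀ j c t, |U.u j (Φ t c) - U.u j c| ≤ |t| / α) ∧ ∀ c ∈ K, ∃ j, U.u j c = 1

section

variable {G Y : Type} [Group G] [MetricSpace Y] [MulAction G Y]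

theorem dist_SY (c c' : SY Y) :
    dist c c' = max (dist c.1.1 c'.1.1) (dist c.1.2 c'.1.2) := rfl

/-- The action of the group on the unit tangent vectors. -/
@[reducible] def actSY (Γ : Geo G Y) : MulAction G (SY Y) where
  smul := Γ.gs
  one_smul c := Subtype.ext (Prod.ext (one_smul G c.1.1) (one_smul G c.1.2))
  mul_smul g h c := Subtype.ext (Prod.ext (mul_smul g h c.1.1) (mul_smul g h c.1.2))

theorem fl_fst (Γ : Geo G Y) (t : ℝ) (c : SY Y) : (Γ.fl t c).1.1 = Γ.ln c.1.1 c.1.2 t := rfl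

theorem fl_snd (Γ : Geo G Y) (t : ℝ) (c : SY Y) : (Γ.fl t c).1.2 = Γ.ln c.1.1 c.1.2 (t + 1) := rfl

theorem fl_geo (Γ : Geo G Y) (s t : ℝ) (c : SY Y) : dist (Γ.fl s c) (Γ.fl t c) = |s - t| := by
  rw [dist_SY, fl_fst, fl_fst, fl_snd, fl_snd, Γ.dln, Γ.dln, c.2, mul_one, mul_one,
    add_sub_add_right_eq_sub, max_self]

theorem fl_zero (Γ : Geo G Y) (c : SY Y) : Γ.fl 0 c = c := by
  apply Subtype.ext
  refine Prod.ext ?_ ?_
  · exact Γ.ln0 _ _
  · rw [fl_snd, zero_add]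
    exact Γ.ln1 _ _

theorem fl_add (Γ : Geo G Y) (s t : ℝ) (c : SY Y) : Γ.fl (s + t) c = Γ.fl s (Γ.fl t c) := by
  apply Subtype.ext
  refine Prod.ext ?_ ?_
  · rw [fl_fst, fl_fst, fl_fst, fl_snd, Γ.lnln]
    congr 1
    ring
  · rw [fl_snd, fl_snd, fl_fst, fl_snd, Γ.lnln]
    congr 1
    ring

theorem fl_lip (Γ : Geo G Y) (T : ℝ) : ∃ κ : ℝ, 1 ≤ κ ∧ ∀ t (c c' : SY Y), |t| ≤ T →
    dist (Γ.fl t c) (Γ.fl t c') ≤ κ * dist c c' := by
  obtain ⟨C, δ, hC, hδ, h⟩ := Γ.lip (|T| + 1) (by positivity)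
  refine ⟨max 1 (max C (1 + 2 * |T| / δ)), le_max_left _ _, fun t c c' ht => ?_⟩
  have hT : |t| ≤ |T| := ht.trans (le_abs_self T)
  have hd : 0 ≤ dist c c' := dist_nonneg
  have ht0 : 0 ≤ |T| := abs_nonneg T
  rcases le_or_gt (dist c c') δ with h1 | h1
  · have h2 : dist c.1.1 c'.1.1 ≤ δ := (le_max_left _ _).trans h1
    have h3 : dist c.1.2 c'.1.2 ≤ δ := (le_max_right _ _).trans h1
    have h4 := h c.1.1 c.1.2 c'.1.1 c'.1.2 c.2 c'.2 h2 h3
    have h5 : dist (Γ.fl t c) (Γ.fl t c') ≤ C * dist c c' := by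
      refine max_le (h4 t (by linarith)) (h4 (t + 1) ?_)
      have := abs_add_le t 1
      rw [abs_one] at this
      linarith
    refine h5.trans ?_
    gcongr
    exact (le_max_left _ _).trans (le_max_right _ _)
  · have h2 : dist (Γ.fl t c) (Γ.fl t c') ≤ |t| + dist c c' + |t| := by
      have h3 := dist_triangle4 (Γ.fl t c) (Γ.fl 0 c) (Γ.fl 0 c') (Γ.fl t c')
      rw [fl_geo, fl_geo, fl_zero, fl_zero, sub_zero, zero_sub, abs_neg] at h3
      exact h3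
    have h3 : |t| * δ ≤ |T| * dist c c' := by
      calc |t| * δ ≤ |T| * δ := by gcongr
        _ ≤ |T| * dist c c' := by gcongr
    have h4 : |t| ≤ |T| / δ * dist c c' := by
      rw [div_mul_eq_mul_div, le_div_iff₀ hδ]
      exact h3
    calc dist (Γ.fl t c) (Γ.fl t c') ≤ |t| + dist c c' + |t| := h2
      _ ≤ |T| / δ * dist c c' + dist c c' + |T| / δ * dist c c' := by linarith
      _ = (1 + 2 * |T| / δ) * dist c c' := by ring
      _ ≤ max 1 (max C (1 + 2 * |T| / δ)) * dist c c' := by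
        gcongr
        exact (le_max_right _ _).trans (le_max_right _ _)

theorem gs_prp (Γ : Geo G Y) (c : SY Y) (R : ℝ) : {g : G | dist (Γ.gs g c) c ≤ R}.Finite := by
  refine (Γ.act _ (Γ.cpt c.1.1 |R|)).subset ?_
  intro g hg
  have h1 : dist (g • c.1.1) c.1.1 ≤ R := (le_max_left _ _).trans hg
  refine ⟨g • c.1.1, ⟨c.1.1, ?_, rfl⟩, ?_⟩
  · simp
  · rw [Metric.mem_closedBall]
    exact h1.trans (le_abs_self R)

theorem toFl (Γ : Geo G Y) : letI := actSY Γ; Fl G (SY Y) Γ.fl := by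
  let := actSY Γ
  refine ⟨?_, fl_zero Γ, fl_add Γ, ?_, fl_geo Γ, fl_lip Γ, gs_prp Γ⟩
  · intro g x y
    change max (dist (g • x.1.1) (g • y.1.1)) (dist (g • x.1.2) (g • y.1.2)) = _
    rw [Γ.gdist, Γ.gdist]
    rfl
  · intro g t c
    apply Subtype.ext
    refine Prod.ext ?_ ?_
    · exact (Γ.gln g c.1.1 c.1.2 t).symm
    · exact (Γ.gln g c.1.1 c.1.2 (t + 1)).symm

theorem isCompact_SY (Γ : Geo G Y) {K : Set Y} (hK : IsCompact K) :
    IsCompact {c : SY Y | c.1.1 ∈ K} := by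
  have h1 : Topology.IsClosedEmbedding (Subtype.val : SY Y → Y × Y) := by
    refine Topology.IsClosedEmbedding.subtypeVal ?_
    exact isClosed_eq (continuous_fst.dist continuous_snd) continuous_const
  rcases K.eq_empty_or_nonempty with rfl | ⟨y₀, hy₀⟩
  · simp
  obtain ⟨R, hR⟩ := (Metric.isBounded_iff_subset_closedBall y₀).1 hK.isBounded
  have h2 : IsCompact (K ×ˢ Metric.closedBall y₀ (R + 1)) := hK.prod (Γ.cpt y₀ (R + 1))
  refine (h1.isCompact_preimage h2).of_isClosed_subset ?_ ?_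
  · exact hK.isClosed.preimage (continuous_fst.comp h1.continuous)
  · intro c hc
    refine ⟨hc, ?_⟩
    have h3 := hR hc
    rw [Metric.mem_closedBall] at h3 ⊢
    have h4 := dist_triangle_left c.1.2 y₀ c.1.1
    have h5 := c.2
    linarith

theorem null_SY (Γ : Geo G Y) :
    ∃ s : ℕ, NullD (fun x y : SY Y => dist x y) s Set.univ := by
  obtain ⟨D, hD⟩ := Γ.dim
  exact ⟨D + 1, nullD_subtype hD _⟩

theorem s_F_of (h : S_TF) : S_F := by
  intro G Y _ _ _ Γ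
  obtain ⟨s, hs⟩ := null_SY Γ
  obtain ⟨n, hn⟩ := @h G (SY Y) _ _ (actSY Γ) Γ.fl (toFl Γ) s hs
  refine ⟨n, fun Z hZ α hα => ?_⟩
  obtain ⟨-, -, K, hK, hKZ⟩ := hZ
  obtain ⟨U, hU1, hU2, hU3⟩ := hn _ (isCompact_SY Γ hK) (max 1 α) (le_max_left _ _)
  refine ⟨U, hU1, fun j c t => (hU2 j c t).trans ?_, fun c hc => ?_⟩
  · gcongr
    exact le_max_right _ _
  · obtain ⟨g, hg⟩ := hKZ _ hc
    obtain ⟨j, hj⟩ := hU3 (Γ.gs g c) hg
    let := U.act
    refine ⟨g⁻¹ • j, ?_⟩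
    rw [← hj, ← U.inv g (g⁻¹ • j) c, smul_inv_smul]
    rfl

end

end Pool.Agent.ZF
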