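import Mathlib
import Pool.Agent.Lib.MP_8f66f0_al_ZF.Spec

/-! # Adding one marker for every `l < s`, with small `ρ` (`S_Add`) -/

set_option autoImplicit false

namespace Pool.Agent.ZF

open MeasureTheory Set

private theorem AddAux_step (h1 : S_GPx) (X : Type) [PseudoMetricSpace X] (Φ : ℝ → X → X)
    (hΦ : PFl X Φ) (n : ℝ) (hn : 1 ≤ n) (s : ℕ) (S : Set (Mk X)) (hS : S.Finite)
    (hG : GP Φ n s S) (k : ℕ) (P : ℕ → Set X) (δ : ℝ) (hδ : 0 < δ) (j : ℕ) :
    ∃ ρ : ℕ → ℝ, (∀ l, 0 < ρ l ∧ ρ l < δ) ∧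
      (S ∪ {μ | ∃ l < j, (P l).Nonempty ∧ μ = ⟨k, l, P l, ρ l⟩}).Finite ∧
      GP Φ n s (S ∪ {μ | ∃ l < j, (P l).Nonempty ∧ μ = ⟨k, l, P l, ρ l⟩}) := by
  classical
  induction j with
  | zero =>
    refine ⟨fun _ => δ / 2, fun l => ⟨by positivity, by linarith⟩, ?_, ?_⟩
    · have : (S ∪ {μ : Mk X | ∃ l < 0, (P l).Nonempty ∧ μ = ⟨k, l, P l, δ / 2⟩}) = S := by
        ext μ
        simp
      rw [this]
      exact hS
    · have : (S ∪ {μ : Mk X | ∃ l < 0, (P l).Nonempty ∧ μ = ⟨k, l, P l, δ / 2⟩}) = S := by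
        ext μ
        simp
      rw [this]
      exact hG
  | succ j ih =>
    obtain ⟨ρ, hρ, hf, hg⟩ := ih
    by_cases hP : (P j).Nonempty
    · obtain ⟨r, hr, hr2⟩ : ∃ r ∈ Ioo (0 : ℝ) δ,
          GP Φ n s (insert ⟨k, j, P j, r⟩
            (S ∪ {μ | ∃ l < j, (P l).Nonempty ∧ μ = ⟨k, l, P l, ρ l⟩})) := by
        by_contra hcon
        push Not at hcon
        have h0 := h1 X Φ hΦ n hn s _ hf hg k j (P j)
        have hsub : Ioo (0 : ℝ) δ ⊆ {r : ℝ | ¬ GP Φ n s (insert ⟨k, j, P j, r⟩
            (S ∪ {μ | ∃ l < j, (P l).Nonempty ∧ μ = ⟨k, l, P l, ρ l⟩}))} := fun r hr => hcon r hr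
        have h2 : volume (Ioo (0 : ℝ) δ) = 0 := measure_mono_null hsub h0
        rw [Real.volume_Ioo, ENNReal.ofReal_eq_zero] at h2
        linarith
      have key : (S ∪ {μ : Mk X | ∃ l < j + 1, (P l).Nonempty ∧
          μ = ⟨k, l, P l, Function.update ρ j r l⟩}) = insert ⟨k, j, P j, r⟩
            (S ∪ {μ | ∃ l < j, (P l).Nonempty ∧ μ = ⟨k, l, P l, ρ l⟩}) := by
        ext μ
        simp only [mem_union, mem_ofPred_eq, mem_insert_iff]
        constructor
        · rintro (h | ⟨l, hl, hne, rfl⟩)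
          · exact Or.inr (Or.inl h)
          · by_cases hlj : l = j
            · subst hlj
              left
              simp
            · right
              right
              refine ⟨l, by omega, hne, ?_⟩
              rw [Function.update_of_ne hlj]
        · rintro (h | h | ⟨l, hl, hne, rfl⟩)
          · right
            refine ⟨j, by omega, hP, ?_⟩
            rw [h, Function.update_self]
          · exact Or.inl h
          · right
            refine ⟨l, by omega, hne, ?_⟩
            rw [Function.update_of_ne (by omega)]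
      refine ⟨Function.update ρ j r, fun l => ?_, ?_, ?_⟩
      · by_cases hlj : l = j
        · subst hlj
          rw [Function.update_self]
          exact hr
        · rw [Function.update_of_ne hlj]
          exact hρ l
      · rw [key]
        exact hf.insert _
      · rw [key]
        exact hr2
    · have key : (S ∪ {μ : Mk X | ∃ l < j + 1, (P l).Nonempty ∧ μ = ⟨k, l, P l, ρ l⟩}) =
          (S ∪ {μ | ∃ l < j, (P l).Nonempty ∧ μ = ⟨k, l, P l, ρ l⟩}) := by
        ext μ
        simp only [mem_union, mem_ofPred_eq]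
        constructor
        · rintro (h | ⟨l, hl, hne, rfl⟩)
          · exact Or.inl h
          · right
            have hlj : l ≠ j := by
              rintro rfl
              exact hP hne
            exact ⟨l, by omega, hne, rfl⟩
        · rintro (h | ⟨l, hl, hne, rfl⟩)
          · exact Or.inl h
          · exact Or.inr ⟨l, by omega, hne, rfl⟩
      refine ⟨ρ, hρ, ?_, ?_⟩
      · rw [key]
        exact hf
      · rw [key]
        exact hg

theorem t_Add (h1 : S_GPx) : S_Add := by
  intro X _ Φ hΦ n hn s S hS hG k P δ hδ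
  obtain ⟨ρ, hρ, -, hg⟩ := AddAux_step h1 X Φ hΦ n hn s S hS hG k P δ hδ s
  exact ⟨ρ, hρ, hg⟩

end Pool.Agent.ZF
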