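import Pool.Agent.Lib.MP_8f66f0_al_ZA.Defs

/-! Project ZERO, part F (note 3754): lines, flow, basic facts. -/

set_option autoImplicit false

namespace Pool.Agent.ZF

open Pool.Agent.ZA

variable {G Y : Type} [Group G] [MetricSpace Y] [MulAction G Y] (Γ : Geo G Y)

/-- The point `c(t)` of the line `c`. -/
noncomputable def ev (c : SY Y) (t : ℝ) : Y := Γ.ln c.1.1 c.1.2 t

theorem fl_fst (t : ℝ) (c : SY Y) : (Γ.fl t c).1.1 = ev Γ c t := rfl

theorem fl_snd (t : ℝ) (c : SY Y) : (Γ.fl t c).1.2 = ev Γ c (t + 1) := rfl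

theorem ev_zero (c : SY Y) : ev Γ c 0 = c.1.1 := Γ.ln0 _ _

theorem ev_one (c : SY Y) : ev Γ c 1 = c.1.2 := Γ.ln1 _ _

theorem ev_fl (s t : ℝ) (c : SY Y) : ev Γ (Γ.fl s c) t = ev Γ c (s + t) := by
  change Γ.ln (Γ.ln c.1.1 c.1.2 s) (Γ.ln c.1.1 c.1.2 (s + 1)) t = Γ.ln c.1.1 c.1.2 (s + t)
  rw [Γ.lnln]
  congr 1
  ring

theorem sy_ext {c c' : SY Y} (h : c.1.1 = c'.1.1) (h' : c.1.2 = c'.1.2) : c = c' :=
  Subtype.ext (Prod.ext h h')

theorem fl_fl (s t : ℝ) (c : SY Y) : Γ.fl s (Γ.fl t c) = Γ.fl (t + s) c := by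
  apply sy_ext
  · rw [fl_fst, fl_fst, ev_fl]
  · rw [fl_snd, fl_snd, ev_fl, add_assoc]

theorem fl_zero (c : SY Y) : Γ.fl 0 c = c := by
  apply sy_ext
  · rw [fl_fst, ev_zero]
  · rw [fl_snd, zero_add, ev_one]

theorem dist_ev (c : SY Y) (s t : ℝ) : dist (ev Γ c s) (ev Γ c t) = |s - t| := by
  unfold ev
  rw [Γ.dln, c.2, mul_one]

theorem dist_sy (c c' : SY Y) : dist c c' = max (dist c.1.1 c'.1.1) (dist c.1.2 c'.1.2) := rfl

theorem dist_fl (c : SY Y) (s t : ℝ) : dist (Γ.fl s c) (Γ.fl t c) = |s - t| := by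
  rw [dist_sy, fl_fst, fl_fst, fl_snd, fl_snd, dist_ev, dist_ev, add_sub_add_right_eq_sub, max_self]

theorem dist_ev_le (c c' : SY Y) : dist (ev Γ c 0) (ev Γ c' 0) ≤ dist c c' := by
  rw [ev_zero, ev_zero, dist_sy]
  exact le_max_left _ _

theorem dist_ev_fl_le (c c' : SY Y) (s t : ℝ) :
    dist (ev Γ c s) (ev Γ c' t) ≤ dist (Γ.fl s c) (Γ.fl t c') := by
  rw [dist_sy]
  exact le_max_left _ _

theorem ln_const (p : Y) (t : ℝ) : Γ.ln p p t = p := by
  have h := Γ.dln p p t 0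
  rw [dist_self, mul_zero, Γ.ln0] at h
  exact dist_eq_zero.1 h

theorem ev_seg (c : SY Y) (a b r : ℝ) :
    ev Γ c (a + r * (b - a)) = Γ.ln (ev Γ c a) (ev Γ c b) r := (Γ.lnln _ _ _ _ _).symm

/-- Convexity of the distance of two lines. -/
theorem cvx_ev (c c' : SY Y) :
    ConvexOn ℝ Set.univ fun t => dist (ev Γ c t) (ev Γ c' t) := by
  refine ⟨convex_univ, fun a _ b _ s r hs hr hsr => ?_⟩
  have h1 : s • a + r • b = a + r * (b - a) := by
    have h0 : s = 1 - r := by linarith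
    rw [smul_eq_mul, smul_eq_mul, h0]
    ring
  rw [h1]
  beta_reduce
  rw [ev_seg, ev_seg]
  have h2 := Γ.cvx (ev Γ c a) (ev Γ c b) (ev Γ c' a) (ev Γ c' b) r hr (by linarith)
  rw [smul_eq_mul, smul_eq_mul]
  have h3 : s = 1 - r := by linarith
  rw [h3]
  exact h2

/-- Convexity of the distance of a line and a point. -/
theorem cvx_pt (c : SY Y) (p : Y) : ConvexOn ℝ Set.univ fun t => dist (ev Γ c t) p := by
  refine ⟨convex_univ, fun a _ b _ s r hs hr hsr => ?_⟩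
  have h1 : s • a + r • b = a + r * (b - a) := by
    have h0 : s = 1 - r := by linarith
    rw [smul_eq_mul, smul_eq_mul, h0]
    ring
  rw [h1]
  beta_reduce
  rw [ev_seg]
  have h2 := Γ.cvx (ev Γ c a) (ev Γ c b) p p r hr (by linarith)
  rw [ln_const] at h2
  rw [smul_eq_mul, smul_eq_mul]
  have h3 : s = 1 - r := by linarith
  rw [h3]
  exact h2

theorem gs_fl (g : G) (t : ℝ) (c : SY Y) : Γ.gs g (Γ.fl t c) = Γ.fl t (Γ.gs g c) := by
  apply sy_ext
  · exact Γ.gln g _ _ _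
  · exact Γ.gln g _ _ _

theorem ev_gs (g : G) (c : SY Y) (t : ℝ) : ev Γ (Γ.gs g c) t = g • ev Γ c t :=
  (Γ.gln g _ _ _).symm

theorem gs_mul (g h : G) (c : SY Y) : Γ.gs (g * h) c = Γ.gs g (Γ.gs h c) :=
  sy_ext (mul_smul _ _ _) (mul_smul _ _ _)

theorem gs_one (c : SY Y) : Γ.gs 1 c = c := sy_ext (one_smul _ _) (one_smul _ _)

theorem gs_inv_gs (g : G) (c : SY Y) : Γ.gs g⁻¹ (Γ.gs g c) = c := by
  rw [← gs_mul, inv_mul_cancel, gs_one]

theorem gs_gs_inv (g : G) (c : SY Y) : Γ.gs g (Γ.gs g⁻¹ c) = c := by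
  rw [← gs_mul, mul_inv_cancel, gs_one]

theorem dist_gs (g : G) (c c' : SY Y) : dist (Γ.gs g c) (Γ.gs g c') = dist c c' := by
  rw [dist_sy, dist_sy]
  change max (dist (g • c.1.1) (g • c'.1.1)) (dist (g • c.1.2) (g • c'.1.2)) = _
  rw [Γ.gdist, Γ.gdist]

theorem dist_gs_left (g : G) (c c' : SY Y) : dist (Γ.gs g c) c' = dist c (Γ.gs g⁻¹ c') := by
  rw [← dist_gs Γ g⁻¹, gs_inv_gs]

/-- The flow is uniformly Lipschitz at small scales, for bounded times. -/
theorem lipf (W : ℝ) : ∃ C δ : ℝ, 1 ≤ C ∧ 0 < δ ∧ ∀ c c' : SY Y, dist c c' ≤ δ → ∀ t : ℝ, |t| ≤ W →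
    dist (Γ.fl t c) (Γ.fl t c') ≤ C * dist c c' := by
  obtain ⟨C, δ, hC, hδ, h⟩ := Γ.lip (max W 0 + 1) (by positivity)
  refine ⟨max C 1, δ, le_max_right _ _, hδ, fun c c' hcc t ht => ?_⟩
  have h1 : dist c.1.1 c'.1.1 ≤ δ := (le_max_left _ _).trans hcc
  have h2 : dist c.1.2 c'.1.2 ≤ δ := (le_max_right _ _).trans hcc
  have h3 : |t| ≤ max W 0 + 1 := by
    have := le_max_left W 0
    linarith
  have h4 : |t + 1| ≤ max W 0 + 1 := by
    have := le_max_left W 0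
    have h5 := abs_add_le t 1
    rw [abs_one] at h5
    linarith
  have h5 : C * max (dist c.1.1 c'.1.1) (dist c.1.2 c'.1.2) ≤ max C 1 * dist c c' := by
    rw [dist_sy]
    exact mul_le_mul_of_nonneg_right (le_max_left _ _) (le_max_of_le_left dist_nonneg)
  rw [dist_sy (Γ.fl t c)]
  exact max_le ((h _ _ _ _ c.2 c'.2 h1 h2 t h3).trans h5) ((h _ _ _ _ c.2 c'.2 h1 h2 _ h4).trans h5)

theorem continuous_flow : Continuous fun p : ℝ × SY Y => Γ.fl p.1 p.2 := by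
  rw [Metric.continuous_iff]
  rintro ⟨t, c⟩ ε hε
  obtain ⟨C, δ, hC, hδ, h⟩ := lipf Γ |t|
  have hC0 : 0 < C := by linarith
  refine ⟨min δ (min (ε / (2 * C)) (ε / 2)), lt_min hδ (lt_min (by positivity) (by positivity)), ?_⟩
  rintro ⟨t', c'⟩ hd
  have hd1 : dist t' t < min δ (min (ε / (2 * C)) (ε / 2)) :=
    (le_max_left _ _).trans_lt hd
  have hd2 : dist c' c < min δ (min (ε / (2 * C)) (ε / 2)) :=
    (le_max_right _ _).trans_lt hd
  have h1 : dist (Γ.fl t' c') (Γ.fl t c') < ε / 2 := by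
    rw [dist_fl, ← Real.dist_eq]
    exact hd1.trans_le ((min_le_right _ _).trans (min_le_right _ _))
  have h2 : dist (Γ.fl t c') (Γ.fl t c) ≤ C * dist c' c :=
    h c' c (hd2.le.trans (min_le_left _ _)) t le_rfl
  have h3 : dist c' c < ε / (2 * C) :=
    hd2.trans_le ((min_le_right _ _).trans (min_le_left _ _))
  have h4 : C * dist c' c < ε / 2 := by
    calc C * dist c' c < C * (ε / (2 * C)) := mul_lt_mul_of_pos_left h3 hC0
      _ = ε / 2 := by field_simp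
  calc dist (Γ.fl t' c') (Γ.fl t c) ≤ dist (Γ.fl t' c') (Γ.fl t c') + dist (Γ.fl t c') (Γ.fl t c) :=
        dist_triangle _ _ _
    _ < ε := by linarith

theorem continuous_fl (t : ℝ) : Continuous (Γ.fl t) :=
  (continuous_flow Γ).comp (continuous_const.prodMk continuous_id)

theorem continuous_ev (c : SY Y) : Continuous (ev Γ c) := by
  have h : Continuous fun t : ℝ => (Γ.fl t c).1.1 :=
    (continuous_fst.comp continuous_subtype_val).comp
      ((continuous_flow Γ).comp (continuous_id.prodMk continuous_const))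
  exact h

include Γ in
/-- Bounded closed sets of lines are compact. -/
theorem isCompact_of (K : Set (SY Y)) (hK : IsClosed K) (p : Y) (r : ℝ)
    (h : ∀ c ∈ K, dist c.1.1 p ≤ r) : IsCompact K := by
  have h1 : IsCompact (Metric.closedBall p r ×ˢ Metric.closedBall p (r + 1)) :=
    (Γ.cpt p r).prod (Γ.cpt p (r + 1))
  have hcl : IsClosed {c : Y × Y | dist c.1 c.2 = 1} :=
    isClosed_eq (continuous_fst.dist continuous_snd) continuous_const
  have h2 : IsCompact ((fun c : SY Y => c.1) ⁻¹' (Metric.closedBall p r ×ˢ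
      Metric.closedBall p (r + 1))) :=
    hcl.isClosedEmbedding_subtypeVal.isCompact_preimage h1
  refine h2.of_isClosed_subset hK fun c hc => ?_
  refine ⟨h c hc, ?_⟩
  have h3 := h c hc
  have h4 := dist_triangle c.1.2 c.1.1 p
  have h5 := c.2
  rw [dist_comm] at h5
  rw [Metric.mem_closedBall]
  change dist c.1.2 p ≤ r + 1
  linarith

/-- Only finitely many elements of the group move a line in a bounded set to a bounded set. -/
theorem finite_gs (p : Y) (r : ℝ) :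
    {g : G | ∃ c : SY Y, dist c.1.1 p ≤ r ∧ dist (Γ.gs g c).1.1 p ≤ r}.Finite := by
  refine (Γ.act _ (Γ.cpt p r)).subset ?_
  rintro g ⟨c, hc, hgc⟩
  exact ⟨g • c.1.1, Set.smul_mem_smul_set hc, hgc⟩

end Pool.Agent.ZF
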