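import Mathlib
import Pool.Agent.Lib.MP_8f66f0_al_ZF.Spec

/-!
# Project ZERO, part F: an uncovered point has a free block (module Clm)
-/

set_option autoImplicit false

namespace Pool.Agent.ZF

open MeasureTheory Set

namespace ClmAux

/-- the same marker is not hit exactly in two different blocks -/
private theorem inj (h1 : S_Wb) {X : Type} [PseudoMetricSpace X] {Φ : ℝ → X → X} (hΦ : PFl X Φ)
    {n : ℝ} (hn : 1 ≤ n) {s : ℕ} {Q : ℕ → Set X} {θ : ℕ → ℝ} {η : ℝ} {m : ℕ} {S : Set (Mk X)}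
    (hQ : ∀ k < m, HQ Φ n s (Q k) (θ k) η) (hG : Gd Φ n s Q θ η m S) {c : X} {μ : Mk X}
    (hμ : μ ∈ S) {l l' : ℕ} (hl : l < s) (hl' : l' < s) (e : ww Φ n μ.l μ.P l c = μ.ρ)
    (e' : ww Φ n μ.l μ.P l' c = μ.ρ) : l = l' := by
  by_contra hne
  obtain ⟨w1, -, -, -, w5, w6⟩ := h1 X Φ hΦ n hn
  obtain ⟨t, ht, et⟩ := w1 μ.l μ.P l c
  obtain ⟨t', ht', et'⟩ := w1 μ.l μ.P l' c
  have h2 := (w6 l l' hne).2 t ht t' ht'
  obtain ⟨a1, a2⟩ := w5 s l hl t ht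
  obtain ⟨b1, b2⟩ := w5 s l' hl' t' ht'
  have hsub : ∀ x : X, Metric.infDist x μ.P ≤ η → Metric.infDist x (Q μ.k) ≤ η := fun x hx =>
    (Metric.infDist_le_infDist_of_subset (hG.sub μ hμ) (hG.ne μ hμ)).trans hx
  have hη : μ.ρ ≤ η := (hG.lt μ hμ).le
  have d1 : Metric.infDist (Φ (-(tt n μ.l)) (Φ t c)) (Q μ.k) ≤ η := by
    refine hsub _ ?_
    change vv Φ n μ.l μ.P (Φ t c) ≤ η
    rw [et, e]
    exact hη
  have e2 : Φ (t' - t) (Φ (-(tt n μ.l)) (Φ t c)) = Φ (-(tt n μ.l)) (Φ t' c) := by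
    rw [← hΦ.add, ← hΦ.add, ← hΦ.add]
    congr 1
    ring
  have d2 : Metric.infDist (Φ (t' - t) (Φ (-(tt n μ.l)) (Φ t c))) (Q μ.k) ≤ η := by
    rw [e2]
    refine hsub _ ?_
    change vv Φ n μ.l μ.P (Φ t' c) ≤ η
    rw [et', e']
    exact hη
  have hq := hQ μ.k (hG.klt μ hμ)
  have hW : |t' - t| ≤ WW s n := by
    rw [WW, abs_le]
    constructor <;> linarith
  have h3 := (hq.nr _ _ hW d1 d2).trans hq.le
  rw [abs_sub_comm] at h3
  linarith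

end ClmAux

theorem t_Clm (h1 : S_Wb) : S_Clm := by
  classical
  intro X _ Φ hΦ n hn s Q θ η m S hQ hG c hc
  by_contra hcon
  push Not at hcon
  have hcon' : ∀ l : ℕ, ∃ μ : Mk X, l < s → μ ∈ S ∧ ww Φ n μ.l μ.P l c = μ.ρ := by
    intro l
    by_cases hl : l < s
    · obtain ⟨μ, hμ, h⟩ := hcon l hl
      exact ⟨μ, fun _ => ⟨hμ, le_antisymm h (hc μ hμ l hl)⟩⟩
    · exact ⟨⟨0, 0, ∅, 0⟩, fun h => absurd h hl⟩
  choose f hf using hcon'
  have hinj : ∀ l < s, ∀ l' < s, f l = f l' → l = l' := by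
    intro l hl l' hl' h
    refine ClmAux.inj h1 hΦ hn hQ hG (hf l hl).1 hl hl' (hf l hl).2 ?_
    rw [h]
    exact (hf l' hl').2
  let J : Finset (Mk X × ℕ) := (Finset.range s).image fun l => (f l, l)
  have hJ : ∀ x ∈ J, ∃ l < s, x = (f l, l) := by
    intro x hx
    obtain ⟨l, hl, rfl⟩ := Finset.mem_image.1 hx
    exact ⟨l, Finset.mem_range.1 hl, rfl⟩
  have hcard : J.card = s := by
    rw [Finset.card_image_of_injective _ (fun a b h => (Prod.mk.inj h).2), Finset.card_range]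
  have hgp := hG.gp J (fun x hx => by
      obtain ⟨l, hl, rfl⟩ := hJ x hx
      exact (hf l hl).1) (fun x hx => by
      obtain ⟨l, hl, rfl⟩ := hJ x hx
      exact hl) (fun x hx y hy h => by
      obtain ⟨l, hl, rfl⟩ := hJ x hx
      obtain ⟨l', hl', rfl⟩ := hJ y hy
      have := hinj l hl l' hl' h
      rw [this]) hcard.le
  rw [hcard, Nat.sub_self] at hgp
  have hmem : c ∈ {c | ∀ x ∈ J, ww Φ n x.1.l x.1.P x.2 c = x.1.ρ} := by
    intro x hx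
    obtain ⟨l, hl, rfl⟩ := hJ x hx
    exact (hf l hl).2
  have hgp' : {c | ∀ x ∈ J, ww Φ n x.1.l x.1.P x.2 c = x.1.ρ} = ∅ := hgp
  rw [hgp'] at hmem
  exact hmem

end Pool.Agent.ZF
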