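import Mathlib
import Pool.Agent.Lib.MP_8f66f0_al_ZF.Ad
import Pool.Agent.Lib.MP_8f66f0_al_ZF.Spec
import Pool.Agent.Lib.MP_8f66f0_al_ZF.SpecIV
import Pool.Agent.Lib.MP_8f66f0_al_ZA.Asm

/-! Project ZERO, part F: `S_III` and `S_IV` imply `S_TF`, so `ZA.S_F`. -/

set_option autoImplicit false

namespace Pool.Agent.ZF

open Set Pool.Agent.ZA
open scoped Pointwise

section

variable {G J : Type} [Group G] [MulAction G J]

/-- A group which permutes a finite set with finite stabilizers is finite. -/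
theorem fin_of_perm {A : Set J} (hA : A.Finite) (hne : A.Nonempty)
    (hs : ∀ j ∈ A, {g : G | g • j = j}.Finite) (V : Subgroup G) (hV : ∀ g ∈ V, g • A = A) :
    Finite V := by
  obtain ⟨j, hj⟩ := hne
  have h1 : (V : Set G) ⊆ ⋃ a ∈ A, {g : G | g • j = a} := by
    intro g hg
    refine Set.mem_iUnion₂.2 ⟨g • j, ?_, rfl⟩
    rw [← hV g hg]
    exact Set.smul_mem_smul_set hj
  refine ((hA.biUnion fun a _ => ?_).subset h1).to_subtype
  rcases {g : G | g • j = a}.eq_empty_or_nonempty with h | ⟨g₀, hg₀⟩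
  · rw [h]
    exact Set.finite_empty
  · refine ((hs j hj).image fun g => g₀ * g).subset ?_
    intro g hg
    refine ⟨g₀⁻¹ * g, ?_, mul_inv_cancel_left g₀ g⟩
    change (g₀⁻¹ * g) • j = j
    rw [mul_smul, show g • j = a from hg, ← show g₀ • j = a from hg₀, inv_smul_smul]

end

/-- The family of the non-periodic part. -/
theorem fam_of_III {G X : Type} [Group G] [MetricSpace X] [MulAction G X] {Φ : ℝ → X → X}
    {α Λ : ℝ} {n : ℕ} {K : Set X}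
    (V : Type) [MulAction G V] (f : V → X → ℝ) (h1 : ∀ v c, 0 ≤ f v c ∧ f v c ≤ 1)
    (h2 : ∀ (g : G) v c, f (g • v) (g • c) = f v c)
    (h3 : ∀ v c t, |f v (Φ t c) - f v c| ≤ |t| / α)
    (h4 : ∀ v c c', |f v c - f v c'| ≤ Λ * dist c c')
    (h5 : ∀ c, {v | f v c ≠ 0}.Finite ∧ {v | f v c ≠ 0}.ncard ≤ n)
    (h6 : ∀ c ∈ K, ∃ v, f v c = 1) {Sm : Subgroup G → Prop}
    (h7 : ∀ (x : X) (A : Set V), A.Nonempty → (∀ j ∈ A, f j x ≠ 0) → ∀ V' : Subgroup G,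
      (∀ g ∈ V', g • A = A) → Sm V') :
    ∃ U : Fam G X (fun g c => g • c) Sm n, U.UC ∧
      (∀ j c t, |U.u j (Φ t c) - U.u j c| ≤ |t| / α) ∧ ∀ c ∈ K, ∃ j, U.u j c = 1 := by
  refine ⟨⟨V, f, fun v c => (h1 v c).1, fun v c => (h1 v c).2, h2, fun c => (h5 c).1,
    fun c => (h5 c).2, h7⟩, ?_, h3, h6⟩
  refine Fam.uc_of_lip (le_max_left 0 Λ) ?_
  intro x y j
  refine (h4 j x y).trans ?_
  gcongr
  exact le_max_right _ _

theorem s_TF_of (hIII : S_III) (hIV : S_IV) : S_TF := by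
  intro G X _ _ _ Φ hΦ s hs
  refine ⟨8 * s + 12 + 1, fun K hK α hα => ?_⟩
  obtain ⟨K', hK', hper, V₁, _, f₁, Λ₁, a1, a2, a3, a4, a5, a6, a7⟩ :=
    hIV G X Φ hΦ α hα (WW s α) K hK
  obtain ⟨V₂, _, f₂, Λ₂, b1, b2, b3, b4, b5, b6, b7⟩ := hIII G X Φ hΦ s hs α hα K' hK' hper
  obtain ⟨U₁, c1, c2, c3⟩ := fam_of_III (n := 1) (K := {c | c ∈ K ∧ c ∉ K'})
    (Sm := fun V => ∃ (δ : G) (c : X) (τ : ℝ), 0 < τ ∧ δ • c = Φ τ c ∧
          ∀ g ∈ V, ∃ a : ℕ, 0 < a ∧ g * δ ^ a = δ ^ a * g)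
    V₁ f₁ a1 a2 a3 a4 (fun c => by
      have h : {v | f₁ v c ≠ 0}.Subsingleton := fun v hv w hw => a5 c v w hv hw
      have hf : Finite ↑{v | f₁ v c ≠ 0} := h.finite.to_subtype
      exact ⟨h.finite, Set.ncard_le_one_iff_subsingleton.2 h⟩)
    (fun c hc => a6 c hc.1 hc.2) (fun x A hA hx V' hV' => by
      obtain ⟨j, hj⟩ := hA
      obtain ⟨δ, c', τ, h1, h2, h3⟩ := a7 j x (hx j hj)
      refine ⟨δ, c', τ, h1, h2, fun g hg => h3 g ?_⟩
      have h4 : g • j ∈ A := by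
        rw [← hV' g hg]
        exact Set.smul_mem_smul_set hj
      exact a5 x _ _ (hx _ h4) (hx _ hj))
  obtain ⟨U₂, d1, d2, d3⟩ := fam_of_III (n := 8 * s + 12) (K := K') (Sm := fun V => Finite V)
    V₂ f₂ b1 b2 b3 b4 b5 b6 (fun x A hA hx V' hV' => by
      exact fin_of_perm ((b5 x).1.subset fun j hj => hx j hj) hA
        (fun j hj => b7 j x (hx j hj)) V' hV')
  refine ⟨(U₂.sum U₁).mono (fun V h => h) le_rfl, Fam.uc_sum d1 c1, ?_, ?_⟩
  · intro j c t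
    rcases j with j | j
    · exact d2 j c t
    · exact c2 j c t
  · intro c hc
    by_cases h : c ∈ K'
    · obtain ⟨j, hj⟩ := d3 c h
      exact ⟨Sum.inl j, hj⟩
    · obtain ⟨j, hj⟩ := c3 c ⟨hc, h⟩
      exact ⟨Sum.inr j, hj⟩

theorem s_F (hIII : S_III) (hIV : S_IV) : ZA.S_F := s_F_of (s_TF_of hIII hIV)

end Pool.Agent.ZF
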