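import Mathlib
import Pool.Agent.Lib.MP_8f66f0_al_ZF.Spec

/-!
# Project ZERO, part F: `S_GPx` (general position after adding one marker)
-/

set_option autoImplicit false

namespace Pool.Agent.ZF

open MeasureTheory Set

/-- The bad values of `ρ` for the finset `J` and the block number `l'`. -/
private def gpBad {X : Type} [PseudoMetricSpace X] (Φ : ℝ → X → X) (n : ℝ) (s l : ℕ) (P : Set X)
    (J : Finset (Mk X × ℕ)) (l' : ℕ) : Set ℝ :=
  {ρ | ((∀ x ∈ J, ∀ y ∈ J, x.1 = y.1 → x = y) ∧ J.card + 1 ≤ s) ∧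
    ¬ NullD (fun x y : X => dist x y) (s - J.card - 1)
      ({c | ∀ x ∈ J, ww Φ n x.1.l x.1.P x.2 c = x.1.ρ} ∩ {c | ww Φ n l P l' c = ρ})}

private theorem gpBad_sub {X : Type} [PseudoMetricSpace X] (Φ : ℝ → X → X) (n : ℝ) (s : ℕ)
    (S : Set (Mk X)) (hS : S.Finite) (hGP : GP Φ n s S) (k l : ℕ) (P : Set X)
    [DecidableEq (Mk X × ℕ)] :
    {ρ : ℝ | ¬ GP Φ n s (insert ⟨k, l, P, ρ⟩ S)} ⊆
      ⋃ J ∈ (((hS.toFinset ×ˢ Finset.range s).powerset : Finset (Finset (Mk X × ℕ))) :
        Set (Finset (Mk X × ℕ))),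
        ⋃ l' ∈ ((Finset.range s : Finset ℕ) : Set ℕ), gpBad Φ n s l P J l' := by
  intro ρ hρ
  rw [Set.mem_ofPred_eq, GP] at hρ
  push Not at hρ
  obtain ⟨J, hJ1, hJ2, hJ3, hJ4, hJ5⟩ := hρ
  by_cases hex : ∃ x ∈ J, x.1 = (⟨k, l, P, ρ⟩ : Mk X)
  · obtain ⟨x, hx, hx1⟩ := hex
    have hcard : (J.erase x).card + 1 = J.card := Finset.card_erase_add_one hx
    have hS' : ∀ y ∈ J.erase x, y.1 ∈ S := by
      intro y hy
      rw [Finset.mem_erase] at hy
      rcases hJ1 y hy.2 with h | h
      · exact absurd (hJ3 y hy.2 x hx (h.trans hx1.symm)) hy.1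
      · exact h
    simp only [Set.mem_iUnion]
    refine ⟨J.erase x, ?_, x.2, ?_, ⟨⟨?_, ?_⟩, ?_⟩⟩
    · rw [Finset.mem_coe, Finset.mem_powerset]
      intro y hy
      rw [Finset.mem_product, Set.Finite.mem_toFinset, Finset.mem_range]
      exact ⟨hS' y hy, hJ2 y (Finset.mem_of_mem_erase hy)⟩
    · rw [Finset.mem_coe, Finset.mem_range]
      exact hJ2 x hx
    · intro y hy z hz
      exact hJ3 y (Finset.mem_of_mem_erase hy) z (Finset.mem_of_mem_erase hz)
    · omega
    · have e1 : s - (J.erase x).card - 1 = s - J.card := by omega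
      have e2 : ({c | ∀ y ∈ J.erase x, ww Φ n y.1.l y.1.P y.2 c = y.1.ρ} ∩
          {c | ww Φ n l P x.2 c = ρ} : Set X) =
          {c | ∀ y ∈ J, ww Φ n y.1.l y.1.P y.2 c = y.1.ρ} := by
        ext c
        constructor
        · rintro ⟨hc1, hc2⟩ y hy
          by_cases hyx : y = x
          · rw [hyx, hx1]
            exact hc2
          · exact hc1 y (Finset.mem_erase.2 ⟨hyx, hy⟩)
        · intro hc
          refine ⟨fun y hy => hc y (Finset.mem_of_mem_erase hy), ?_⟩
          have h := hc x hx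
          rw [hx1] at h
          exact h
      rw [e1, e2]
      exact hJ5
  · exfalso
    push Not at hex
    refine hJ5 (hGP J (fun x hx => ?_) hJ2 hJ3 hJ4)
    rcases hJ1 x hx with h | h
    · exact absurd h (hex x hx)
    · exact h

/-- **GPx**. General position after adding one marker. -/
theorem t_GPx (h1 : S_Slice) (h2 : S_Wb) : S_GPx := by
  classical
  intro X _ Φ hΦ n hn s S hS hGP k l P
  obtain ⟨-, -, -, h4, -, -⟩ := h2 X Φ hΦ n hn
  refine measure_mono_null (gpBad_sub Φ n s S hS hGP k l P) ?_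
  rw [measure_biUnion_null_iff (Finset.countable_toSet _)]
  intro J hJ
  rw [measure_biUnion_null_iff (Finset.countable_toSet _)]
  intro l' _
  rw [Finset.mem_coe, Finset.mem_powerset] at hJ
  by_cases hc : (∀ x ∈ J, ∀ y ∈ J, x.1 = y.1 → x = y) ∧ J.card + 1 ≤ s
  · obtain ⟨κ, hκ1, hκ2⟩ := h4 l l'
    have hnull : NullD (fun x y : X => dist x y) (s - J.card)
        {c | ∀ x ∈ J, ww Φ n x.1.l x.1.P x.2 c = x.1.ρ} := by
      refine hGP J (fun x hx => ?_) (fun x hx => ?_) hc.1 (by omega)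
      · have h := hJ hx
        rw [Finset.mem_product, Set.Finite.mem_toFinset] at h
        exact h.1
      · have h := hJ hx
        rw [Finset.mem_product, Finset.mem_range] at h
        exact h.2
    have e1 : s - J.card = (s - J.card - 1) + 1 := by omega
    rw [e1] at hnull
    have h := h1 X (fun x y => dist x y) (s - J.card - 1) _ hnull (ww Φ n l P l') κ
      (by linarith) (fun x y => hκ2 P x y)
    refine measure_mono_null (fun ρ hρ => ?_) h
    exact hρ.2
  · have he : gpBad Φ n s l P J l' = ∅ := by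
      ext ρ
      simp only [Set.mem_empty_iff_false, iff_false]
      exact fun hρ => hc hρ.1
    rw [he]
    exact measure_empty

end Pool.Agent.ZF
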