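import Pool.Agent.Lib.MP_8f66f0_al_ZF.Defs
import Pool.Agent.Lib.MP_8f66f0_al_ZF.SpecIV

/-! Project ZERO, part F, block IV (periodic part, note 3758 IV (1)-(3)): periods, classes. -/

set_option autoImplicit false

namespace Pool.Agent.ZF

namespace IV

variable {G X : Type} [Group G] [MetricSpace X] [MulAction G X] {Φ : ℝ → X → X}

theorem pow_per (hF : Fl G X Φ) {g : G} {c : X} {s : ℝ} (h : g • c = Φ s c) (n : ℕ) :
    g ^ n • c = Φ (n * s) c := by
  induction n with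
  | zero => rw [pow_zero, one_smul, Nat.cast_zero, zero_mul, hF.zero]
  | succ n ih =>
    rw [pow_succ', mul_smul, ih, ← hF.comm, h, ← hF.add]
    congr 1
    push_cast
    ring

theorem inv_per (hF : Fl G X Φ) {g : G} {c : X} {s : ℝ} (h : g • c = Φ s c) :
    g⁻¹ • c = Φ (-s) c := by
  rw [inv_smul_eq_iff, ← hF.comm, h, ← hF.add, neg_add_cancel, hF.zero]

theorem dist_per (hF : Fl G X Φ) (s : ℝ) (c : X) : dist (Φ s c) c = |s| := by
  have h := hF.geo s 0 c
  rwa [hF.zero, sub_zero] at h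

theorem per_inj (hF : Fl G X Φ) {c : X} {s t : ℝ} (h : Φ s c = Φ t c) : s = t := by
  have h1 := hF.geo s t c
  rw [h, dist_self] at h1
  exact sub_eq_zero.1 (abs_eq_zero.1 h1.symm)

/-- (1) The translation length does not depend on the point. -/
theorem len_le (hF : Fl G X Φ) {g : G} {c c' : X} {s s' : ℝ} (hs : 0 ≤ s) (hs' : 0 ≤ s')
    (h : g • c = Φ s c) (h' : g • c' = Φ s' c') : s ≤ s' := by
  by_contra hlt
  push Not at hlt
  obtain ⟨n, hn⟩ := exists_nat_gt (2 * dist c c' / (s - s'))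
  rw [div_lt_iff₀ (by linarith)] at hn
  have h1 : dist (g ^ n • c) c = n * s := by
    rw [pow_per hF h, dist_per hF, abs_of_nonneg (by positivity)]
  have h2 : dist (g ^ n • c') c' = n * s' := by
    rw [pow_per hF h', dist_per hF, abs_of_nonneg (by positivity)]
  have h3 : dist (g ^ n • c) (g ^ n • c') = dist c c' := hF.iso _ _ _
  have h4 := dist_triangle4 (g ^ n • c) (g ^ n • c') c' c
  rw [dist_comm c' c] at h4
  nlinarith

theorem len_eq (hF : Fl G X Φ) {g : G} {c c' : X} {s s' : ℝ} (hs : 0 ≤ s) (hs' : 0 ≤ s')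
    (h : g • c = Φ s c) (h' : g • c' = Φ s' c') : s = s' :=
  le_antisymm (len_le hF hs hs' h h') (len_le hF hs' hs h' h)

/-- Commensurable elements. -/
def R (g h : G) : Prop := ∃ a b : ℕ, 0 < a ∧ 0 < b ∧ g ^ a = h ^ b

theorem R.refl (g : G) : R g g := ⟨1, 1, one_pos, one_pos, rfl⟩

theorem R.symm {g h : G} (H : R g h) : R h g := by
  obtain ⟨a, b, ha, hb, e⟩ := H
  exact ⟨b, a, hb, ha, e.symm⟩

theorem R.trans {g h k : G} (H : R g h) (H' : R h k) : R g k := by
  obtain ⟨a, b, ha, hb, e⟩ := H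
  obtain ⟨a', b', ha', hb', e'⟩ := H'
  refine ⟨a * a', b' * b, Nat.mul_pos ha ha', Nat.mul_pos hb' hb, ?_⟩
  rw [pow_mul, e, ← pow_mul, mul_comm b a', pow_mul, e', ← pow_mul]

theorem R.conj {g h : G} (u : G) (H : R g h) : R (u * g * u⁻¹) (u * h * u⁻¹) := by
  obtain ⟨a, b, ha, hb, e⟩ := H
  exact ⟨a, b, ha, hb, by rw [conj_pow, conj_pow, e]⟩

/-- (2) Two elements which translate the same point are commensurable. -/
theorem comm_of (hF : Fl G X Φ) {g h : G} {c : X} {s t : ℝ} (hs : 0 < s) (ht : 0 < t)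
    (hg : g • c = Φ s c) (hh : h • c = Φ t c) : R g h := by
  let x : ℕ → G := fun i => g ^ i * (h ^ ⌊i * s / t⌋₊)⁻¹
  have hx : ∀ i, x i ∈ {g : G | dist (g • c) c ≤ t} := by
    intro i
    have h1 : (h ^ ⌊i * s / t⌋₊)⁻¹ • c = Φ (-(⌊i * s / t⌋₊ * t)) c := inv_per hF (pow_per hF hh _)
    have h2 : x i • c = Φ (i * s - ⌊i * s / t⌋₊ * t) c := by
      change (g ^ i * (h ^ ⌊i * s / t⌋₊)⁻¹) • c = _
      rw [mul_smul, h1, ← hF.comm, pow_per hF hg, ← hF.add]
      congr 1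
      ring
    change dist (x i • c) c ≤ t
    rw [h2, dist_per hF]
    have h3 : (⌊i * s / t⌋₊ : ℝ) ≤ i * s / t := Nat.floor_le (by positivity)
    have h4 : i * s / t < ⌊i * s / t⌋₊ + 1 := Nat.lt_floor_add_one _
    rw [le_div_iff₀ ht] at h3
    rw [div_lt_iff₀ ht] at h4
    rw [abs_of_nonneg (by linarith)]
    linarith
  have hni : ¬ Function.Injective x := by
    intro hinj
    exact (Set.infinite_range_of_injective hinj) ((hF.prp c t).subset (by
      rintro _ ⟨i, rfl⟩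
      exact hx i))
  obtain ⟨i, i', hii, hne⟩ : ∃ i i', x i = x i' ∧ i ≠ i' := by
    by_contra hcon
    push Not at hcon
    exact hni fun i i' h => by
      by_contra hne
      exact absurd (hcon i i' h) (fun h' => hne h')
  wlog hlt : i < i' generalizing i i'
  · exact this i' i hii.symm hne.symm (lt_of_le_of_ne (not_lt.1 hlt) hne.symm)
  set j := ⌊i * s / t⌋₊
  set j' := ⌊i' * s / t⌋₊
  have hjj : j ≤ j' := Nat.floor_mono (by
    apply div_le_div_of_nonneg_right _ ht.le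
    have : (i : ℝ) ≤ i' := by exact_mod_cast hlt.le
    exact mul_le_mul_of_nonneg_right this hs.le)
  have e1 : g ^ i * (h ^ j)⁻¹ = g ^ i' * (h ^ j')⁻¹ := hii
  have e2 : h ^ (j' - j) = g ^ (i' - i) := by
    have e3 : g ^ i' = g ^ i * g ^ (i' - i) := by rw [← pow_add, Nat.add_sub_of_le hlt.le]
    have e4 : h ^ j' = h ^ (j' - j) * h ^ j := by rw [← pow_add, Nat.sub_add_cancel hjj]
    rw [e3, e4, mul_inv_rev, mul_assoc, mul_right_inj] at e1
    have e5 : (h ^ j)⁻¹ = g ^ (i' - i) * (h ^ j)⁻¹ * (h ^ (j' - j))⁻¹ := by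
      rw [mul_assoc]; exact e1
    have e6 : (h ^ j)⁻¹ * h ^ (j' - j) = g ^ (i' - i) * (h ^ j)⁻¹ := by
      calc (h ^ j)⁻¹ * h ^ (j' - j)
          = g ^ (i' - i) * (h ^ j)⁻¹ * (h ^ (j' - j))⁻¹ * h ^ (j' - j) := by rw [← e5]
        _ = _ := by group
    have e7 : (h ^ j)⁻¹ * h ^ (j' - j) = h ^ (j' - j) * (h ^ j)⁻¹ :=
      ((Commute.pow_pow_self h (j' - j) j).inv_right).symm.eq
    rw [e7] at e6
    exact mul_right_cancel e6
  have hi : 0 < i' - i := Nat.sub_pos_of_lt hlt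
  have hj : 0 < j' - j := by
    rcases Nat.eq_zero_or_pos (j' - j) with h0 | h0
    · exfalso
      rw [h0, pow_zero] at e2
      have h5 := pow_per hF hg (i' - i)
      rw [← e2, one_smul] at h5
      have h6 : (0 : ℝ) = ((i' - i : ℕ) : ℝ) * s := per_inj hF (c := c) (by
        rw [hF.zero, ← h5])
      have h7 : (0 : ℝ) < ((i' - i : ℕ) : ℝ) * s := by
        have : (0 : ℝ) < ((i' - i : ℕ) : ℝ) := by exact_mod_cast hi
        positivity
      linarith
    · exact h0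
  exact ⟨i' - i, j' - j, hi, hj, e2.symm⟩

/-- Sets of elements, with the conjugation action. -/
structure Cls (G : Type) where
  S : Set G

omit [Group G] in
theorem Cls.ext' {A B : Cls G} (h : ∀ x, x ∈ A.S ↔ x ∈ B.S) : A = B := by
  cases A
  cases B
  congr 1
  exact Set.ext h

instance : MulAction G (Cls G) where
  smul g A := ⟨{x | g⁻¹ * x * g ∈ A.S}⟩
  one_smul A := Cls.ext' fun x => by
    change (1 : G)⁻¹ * x * 1 ∈ A.S ↔ _
    rw [inv_one, one_mul, mul_one]
  mul_smul g h A := Cls.ext' fun x => by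
    change (g * h)⁻¹ * x * (g * h) ∈ A.S ↔ h⁻¹ * (g⁻¹ * x * g) * h ∈ A.S
    rw [mul_inv_rev]
    simp only [mul_assoc]

theorem Cls.mem_smul (g : G) (A : Cls G) (x : G) : x ∈ (g • A).S ↔ g⁻¹ * x * g ∈ A.S := Iff.rfl

/-- The class of an element. -/
def cls (g : G) : Cls G := ⟨{x | R g x}⟩

theorem cls_eq {g h : G} : cls g = cls h ↔ R g h := by
  refine ⟨fun e => ?_, fun H => Cls.ext' fun x => ⟨fun h' => H.symm.trans h', fun h' => H.trans h'⟩⟩
  have h1 : h ∈ (cls h).S := R.refl h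
  rw [← e] at h1
  exact h1

theorem smul_cls (u g : G) : u • cls g = cls (u * g * u⁻¹) := by
  refine Cls.ext' fun x => ?_
  rw [Cls.mem_smul]
  change R g (u⁻¹ * x * u) ↔ R (u * g * u⁻¹) x
  constructor
  · intro H
    have h1 := H.conj u
    have h2 : u * (u⁻¹ * x * u) * u⁻¹ = x := by group
    rwa [h2] at h1
  · intro H
    have h1 := H.conj u⁻¹
    have h2 : u⁻¹ * (u * g * u⁻¹) * u⁻¹⁻¹ = g := by group
    rw [h2, inv_inv] at h1
    exact h1

/-- The stabilizer of the class of an element which translates a point. -/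
theorem stab_cls (hF : Fl G X Φ) {δ : G} {c : X} {τ : ℝ} (hτ : 0 < τ) (h : δ • c = Φ τ c) {g : G}
    (hg : g • cls δ = cls δ) : ∃ a : ℕ, 0 < a ∧ g * δ ^ a = δ ^ a * g := by
  rw [smul_cls, cls_eq] at hg
  obtain ⟨a, b, ha, hb, e⟩ := hg
  rw [conj_pow] at e
  have h1 : (g * δ ^ a * g⁻¹) • (g • c) = Φ (a * τ) (g • c) := by
    rw [← mul_smul]
    have : g * δ ^ a * g⁻¹ * g = g * δ ^ a := by group
    rw [this, mul_smul, pow_per hF h, ← hF.comm]
  rw [e] at h1
  have h2 := pow_per hF h b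
  have h3 := len_eq hF (by positivity) (by positivity) h1 h2
  have h4 : (a : ℝ) = b := mul_right_cancel₀ hτ.ne' h3
  have h5 : a = b := by exact_mod_cast h4
  refine ⟨a, ha, ?_⟩
  rw [← h5] at e
  calc g * δ ^ a = g * δ ^ a * g⁻¹ * g := by group
    _ = δ ^ a * g := by rw [e]

end IV

end Pool.Agent.ZF
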