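import Pool.Agent.Lib.MP_8f66f0_al_ZF.IVa
import Pool.Agent.Lib.MP_8f66f0_al_ZF.Spec

/-! Project ZERO, part F, block IV (periodic part, note 3758 IV (4)-(6)). -/

set_option autoImplicit false

namespace Pool.Agent.ZF

namespace IV

variable {G X : Type} [Group G] [MetricSpace X] [MulAction G X] {Φ : ℝ → X → X}

theorem cont_smul (hF : Fl G X Φ) (g : G) : Continuous fun c : X => g • c :=
  (Isometry.of_dist_eq (hF.iso g)).continuous

theorem cont_fl (hF : Fl G X Φ) (t : ℝ) : Continuous (Φ t) := by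
  obtain ⟨κ, hκ, h⟩ := hF.lip |t|
  exact (LipschitzWith.of_dist_le_mul (K := ⟨κ, by linarith⟩) fun x y => h t x y le_rfl).continuous

/-- The points which are translated by `g` by a positive time at most `W`. -/
def Per (Φ : ℝ → X → X) (W : ℝ) (g : G) : Set X := {c | ∃ s, 0 < s ∧ s ≤ W ∧ g • c = Φ s c}

theorem isClosed_per (hF : Fl G X Φ) (W : ℝ) (g : G) : IsClosed (Per Φ W g) := by
  rcases (Per Φ W g).eq_empty_or_nonempty with h0 | ⟨c0, s0, hs0, hsW, h0⟩
  · rw [h0]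
    exact isClosed_empty
  · have h : Per Φ W g = {c | g • c = Φ s0 c} := by
      ext c
      constructor
      · rintro ⟨s, hs, -, h⟩
        have := len_eq hF hs.le hs0.le h h0
        rw [this] at h
        exact h
      · intro h
        exact ⟨s0, hs0, hsW, h⟩
    rw [h]
    exact isClosed_eq (cont_smul hF g) (cont_fl hF s0)

theorem per_R (hF : Fl G X Φ) {W : ℝ} {g h : G} {c : X} (hg : c ∈ Per Φ W g)
    (hh : c ∈ Per Φ W h) : R g h := by
  obtain ⟨s, hs, -, e⟩ := hg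
  obtain ⟨t, ht, -, e'⟩ := hh
  exact comm_of hF hs ht e e'

theorem per_smul (hF : Fl G X Φ) {W : ℝ} {g : G} {c : X} (hg : c ∈ Per Φ W g) (u : G) :
    u • c ∈ Per Φ W (u * g * u⁻¹) := by
  obtain ⟨s, hs, hs', e⟩ := hg
  refine ⟨s, hs, hs', ?_⟩
  rw [← mul_smul, inv_mul_cancel_right, mul_smul, e, hF.comm]

theorem per_fl (hF : Fl G X Φ) {W : ℝ} {g : G} {c : X} (hg : c ∈ Per Φ W g) (t : ℝ) :
    Φ t c ∈ Per Φ W g := by
  obtain ⟨s, hs, hs', e⟩ := hg
  refine ⟨s, hs, hs', ?_⟩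
  rw [← hF.comm, e, ← hF.add, ← hF.add, add_comm]

theorem finite_mem (hF : Fl G X Φ) (c0 : X) (ρ W : ℝ) :
    {g : G | ∃ c, dist c c0 ≤ ρ ∧ c ∈ Per Φ W g}.Finite := by
  refine (hF.prp c0 (2 * ρ + W)).subset ?_
  rintro g ⟨c, hc, s, hs, hsW, e⟩
  change dist (g • c0) c0 ≤ 2 * ρ + W
  have h1 : dist (g • c0) (g • c) ≤ ρ := by rw [hF.iso, dist_comm]; exact hc
  have h2 : dist (g • c) c ≤ W := by rw [e, dist_per hF, abs_of_pos hs]; exact hsW
  have h3 := dist_triangle4 (g • c0) (g • c) c c0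
  linarith

/-- (4) Separation for points of `K`. -/
theorem sep_K (hF : Fl G X Φ) (W : ℝ) {K : Set X} (hK : IsCompact K) :
    ∃ e : ℝ, 0 < e ∧ ∀ a ∈ K, ∀ (b : X) (g h : G), a ∈ Per Φ W g → b ∈ Per Φ W h →
      dist a b ≤ e → R g h := by
  classical
  rcases K.eq_empty_or_nonempty with h0 | ⟨c0, hc0⟩
  · exact ⟨1, one_pos, fun a ha => by rw [h0] at ha; exact absurd ha (Set.notMem_empty a)⟩
  obtain ⟨ρ, hρ⟩ := (hK.isBounded).subset_closedBall c0
  have hF1 := finite_mem hF (G := G) c0 ρ W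
  have hF2 := finite_mem hF (G := G) c0 (ρ + 1) W
  have key : ∀ p : G × G, ∃ e : ℝ, 0 < e ∧ (¬ R p.1 p.2 → ∀ a ∈ K, ∀ b : X, a ∈ Per Φ W p.1 →
      b ∈ Per Φ W p.2 → e < dist a b) := by
    intro p
    by_cases hR : R p.1 p.2
    · exact ⟨1, one_pos, fun h => absurd hR h⟩
    · have hc : IsCompact (K ∩ Per Φ W p.1) := hK.inter_right (isClosed_per hF W p.1)
      have hd : Disjoint (K ∩ Per Φ W p.1) (Per Φ W p.2) := by
        rw [Set.disjoint_left]
        rintro c ⟨-, h1⟩ h2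
        exact hR (per_R hF h1 h2)
      obtain ⟨r, hr, h⟩ := Metric.exists_pos_forall_lt_edist hc (isClosed_per hF W p.2) hd
      refine ⟨r, by exact_mod_cast hr, fun _ a ha b h1 h2 => ?_⟩
      have h3 := h a ⟨ha, h1⟩ b h2
      rw [edist_nndist, ENNReal.coe_lt_coe] at h3
      rw [← coe_nndist]
      exact_mod_cast h3
  choose e he hes using key
  have hfin : (hF1.toFinset ×ˢ hF2.toFinset : Finset (G × G)).Nonempty ∨
      (hF1.toFinset ×ˢ hF2.toFinset : Finset (G × G)) = ∅ := by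
    rcases (hF1.toFinset ×ˢ hF2.toFinset : Finset (G × G)).eq_empty_or_nonempty with h | h
    · exact Or.inr h
    · exact Or.inl h
  obtain ⟨e0, he0, hle⟩ : ∃ e0 : ℝ, 0 < e0 ∧ ∀ p ∈ (hF1.toFinset ×ˢ hF2.toFinset :
      Finset (G × G)), e0 ≤ e p := by
    rcases hfin with h | h
    · obtain ⟨q, -, hq⟩ := Finset.exists_min_image _ e h
      exact ⟨e q, he q, hq⟩
    · exact ⟨1, one_pos, fun p hp => by rw [h] at hp; exact absurd hp (Finset.notMem_empty p)⟩
  refine ⟨min 1 e0, lt_min one_pos he0, fun a ha b g h hag hbh hab => ?_⟩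
  by_contra hR
  have hac : dist a c0 ≤ ρ := hρ ha
  have hbc : dist b c0 ≤ ρ + 1 := by
    have h1 := dist_triangle b a c0
    have h2 : dist b a ≤ 1 := by rw [dist_comm]; exact hab.trans (min_le_left _ _)
    linarith
  have hp : (g, h) ∈ (hF1.toFinset ×ˢ hF2.toFinset : Finset (G × G)) := by
    rw [Finset.mem_product, Set.Finite.mem_toFinset, Set.Finite.mem_toFinset]
    exact ⟨⟨a, hac, hag⟩, ⟨b, hbc, hbh⟩⟩
  have h1 := hes (g, h) hR a ha b hag hbh
  have h2 := hle _ hp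
  have h3 := hab.trans (min_le_right _ _)
  linarith

/-- (4) Separation. -/
theorem sep (hF : Fl G X Φ) (W : ℝ) {K : Set X} (hK : IsCompact K) :
    ∃ e : ℝ, 0 < e ∧ ∀ a b : X, (∃ u : G, u • a ∈ K) → ∀ g h : G, a ∈ Per Φ W g →
      b ∈ Per Φ W h → dist a b ≤ e → R g h := by
  obtain ⟨e, he, h⟩ := sep_K hF W hK (G := G)
  refine ⟨e, he, fun a b ⟨u, hu⟩ g k ha hb hab => ?_⟩
  have h1 := h _ hu _ _ _ (per_smul hF ha u) (per_smul hF hb u) (by rw [hF.iso]; exact hab)
  have h2 := h1.conj u⁻¹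
  have h3 : ∀ x : G, u⁻¹ * (u * x * u⁻¹) * u⁻¹⁻¹ = x := fun x => by group
  rwa [h3, h3] at h2

/-- The periodic points of a class, over `G K`. -/
def Ak (Φ : ℝ → X → X) (W : ℝ) (K : Set X) (A : Cls G) : Set X :=
  {c | (∃ u : G, u • c ∈ K) ∧ ∃ g : G, A = cls g ∧ c ∈ Per Φ W g}

theorem mem_Ak_smul (hF : Fl G X Φ) {W : ℝ} {K : Set X} {A : Cls G} {c : X}
    (h : c ∈ Ak Φ W K A) (u : G) : u • c ∈ Ak Φ W K (u • A) := by
  obtain ⟨⟨w, hw⟩, g, e, hg⟩ := h
  refine ⟨⟨w * u⁻¹, ?_⟩, u * g * u⁻¹, by rw [e, smul_cls], per_smul hF hg u⟩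
  rw [← mul_smul, inv_mul_cancel_right]
  exact hw

theorem mem_Ak_smul_iff (hF : Fl G X Φ) {W : ℝ} {K : Set X} {A : Cls G} {c : X} (u : G) :
    u • c ∈ Ak Φ W K (u • A) ↔ c ∈ Ak Φ W K A := by
  refine ⟨fun h => ?_, fun h => mem_Ak_smul hF h u⟩
  have h1 := mem_Ak_smul hF h u⁻¹
  rwa [inv_smul_smul, inv_smul_smul] at h1

open Classical in
/-- The bump function of a set. -/
noncomputable def bp (e : ℝ) (A : Set X) (c : X) : ℝ :=
  if A.Nonempty then min 1 (max 0 (2 - Metric.infDist c A / e)) else 0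

omit [Group G] [MulAction G X] in
theorem bp_bd (e : ℝ) (A : Set X) (c : X) : 0 ≤ bp e A c ∧ bp e A c ≤ 1 := by
  unfold bp
  split_ifs
  · exact ⟨le_min zero_le_one (le_max_left _ _), min_le_left _ _⟩
  · exact ⟨le_rfl, zero_le_one⟩

theorem bp_lip {e : ℝ} (he : 0 < e) (A : Set X) (c c' : X) :
    |bp e A c - bp e A c'| ≤ 1 / e * dist c c' := by
  unfold bp
  split_ifs with h
  · have h1 : |Metric.infDist c A - Metric.infDist c' A| ≤ dist c c' := by
      rw [abs_sub_le_iff]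
      constructor
      · have := Metric.infDist_le_infDist_add_dist (s := A) (x := c) (y := c')
        linarith
      · have := Metric.infDist_le_infDist_add_dist (s := A) (x := c') (y := c)
        rw [dist_comm] at this
        linarith
    have h2 : |(2 - Metric.infDist c A / e) - (2 - Metric.infDist c' A / e)| ≤
        1 / e * dist c c' := by
      have : (2 - Metric.infDist c A / e) - (2 - Metric.infDist c' A / e) =
          -(1 / e * (Metric.infDist c A - Metric.infDist c' A)) := by ring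
      rw [this, abs_neg, abs_mul, abs_of_pos (by positivity : (0 : ℝ) < 1 / e)]
      exact mul_le_mul_of_nonneg_left h1 (by positivity)
    have h3 : ∀ x y : ℝ, |min 1 (max 0 x) - min 1 (max 0 y)| ≤ |x - y| := fun x y =>
      (abs_min_sub_min_le_max 1 (max 0 x) 1 (max 0 y)).trans (by
        rw [sub_self, abs_zero]
        refine max_le (abs_nonneg _) ((abs_max_sub_max_le_max 0 x 0 y).trans ?_)
        rw [sub_self, abs_zero]
        exact max_le (abs_nonneg _) le_rfl)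
    exact (h3 _ _).trans h2
  · rw [sub_self, abs_zero]
    exact mul_nonneg (by positivity) dist_nonneg

theorem bp_pos {e : ℝ} (he : 0 < e) {A : Set X} {c : X} (h : 0 < bp e A c) :
    ∃ a ∈ A, dist c a < 2 * e := by
  unfold bp at h
  split_ifs at h with hA
  · rw [lt_min_iff, lt_max_iff] at h
    rcases h.2 with h1 | h1
    · exact absurd h1 (lt_irrefl _)
    · have h2 : Metric.infDist c A < 2 * e := by
        rw [sub_pos, div_lt_iff₀ he] at h1
        exact h1
      exact (Metric.infDist_lt_iff hA).1 h2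
  · exact absurd h (lt_irrefl _)

theorem bp_one {e : ℝ} (he : 0 < e) {A : Set X} {c : X} (hA : A.Nonempty)
    (h : Metric.infDist c A < e) : bp e A c = 1 := by
  unfold bp
  rw [if_pos hA]
  have h1 : Metric.infDist c A / e < 1 := by rw [div_lt_one he]; exact h
  rw [min_eq_left]
  exact le_max_of_le_right (by linarith)

theorem bp_smul (hF : Fl G X Φ) (e : ℝ) (A B : Set X) (u : G) (h : ∀ c, u • c ∈ B ↔ c ∈ A)
    (c : X) : bp e B (u • c) = bp e A c := by
  have h1 : B = (fun c => u • c) '' A := by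
    ext x
    constructor
    · intro hx
      refine ⟨u⁻¹ • x, ?_, smul_inv_smul u x⟩
      rw [← h, smul_inv_smul]
      exact hx
    · rintro ⟨a, ha, rfl⟩
      exact (h a).2 ha
  have h2 : B.Nonempty ↔ A.Nonempty := by rw [h1, Set.image_nonempty]
  unfold bp
  by_cases hA : A.Nonempty
  · rw [if_pos (h2.2 hA), if_pos hA, h1, Metric.infDist_image (Isometry.of_dist_eq (hF.iso u))]
  · rw [if_neg (fun hB => hA (h2.1 hB)), if_neg hA]

end IV

open IV in
/-- **IV.** -/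
theorem t_IV (hS : S_Slw) : S_IV := by
  intro G X _ _ _ Φ hF α hα W K hK
  have hα0 : 0 < α := by linarith
  have hP : PFl X Φ := ⟨hF.zero, hF.add, fun s t c => (hF.geo s t c).le, hF.lip⟩
  obtain ⟨S1, S2, S3⟩ := hS X Φ hP 0 α le_rfl hα0
  obtain ⟨e1, he1, hsep⟩ := sep hF W hK (G := G)
  obtain ⟨κ, hκ1, hκ⟩ := hF.lip (2 * α)
  have hκ0 : 0 < κ := by linarith
  set e4 : ℝ := e1 / (8 * κ) with he4
  have he40 : 0 < e4 := by positivity
  have h4 : 4 * κ * e4 < e1 := by
    rw [he4]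
    have : 4 * κ * (e1 / (8 * κ)) = e1 / 2 := by field_simp; ring
    rw [this]
    linarith
  obtain ⟨Λ', hΛ', hlip⟩ := S2 (1 / e4) (by positivity)
  refine ⟨{c | c ∈ K ∧ ∀ A : Cls G, (Ak Φ W K A).Nonempty → e4 ≤ Metric.infDist c (Ak Φ W K A)},
    ?_, ?_, Cls G, inferInstance, fun A => slw Φ (bp e4 (Ak Φ W K A)) 0 α, Λ', ?_, ?_, ?_, ?_, ?_,
    ?_, ?_⟩
  · have h1 : IsClosed {c : X | ∀ A : Cls G, (Ak Φ W K A).Nonempty →
        e4 ≤ Metric.infDist c (Ak Φ W K A)} := by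
      rw [Set.ofPred_forall]
      refine isClosed_iInter fun A => ?_
      by_cases hA : (Ak Φ W K A).Nonempty
      · have : {c : X | (Ak Φ W K A).Nonempty → e4 ≤ Metric.infDist c (Ak Φ W K A)} =
            {c : X | e4 ≤ Metric.infDist c (Ak Φ W K A)} := by
          ext c
          exact ⟨fun h => h hA, fun h _ => h⟩
        rw [this]
        exact isClosed_le continuous_const (Metric.continuous_infDist_pt _)
      · have : {c : X | (Ak Φ W K A).Nonempty → e4 ≤ Metric.infDist c (Ak Φ W K A)} =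
            Set.univ := by
          ext c
          exact ⟨fun _ => trivial, fun _ h => absurd h hA⟩
        rw [this]
        exact isClosed_univ
    exact hK.inter_right h1
  · rintro c ⟨hc, hA⟩ g t ht htW hgc
    have hm : c ∈ Ak Φ W K (cls g) := ⟨⟨1, by rwa [one_smul]⟩, g, rfl, t, ht, htW, hgc⟩
    have h1 := hA (cls g) ⟨c, hm⟩
    rw [Metric.infDist_zero_of_mem hm] at h1
    linarith
  · exact fun A c => (S1 _ (bp_bd e4 _)).1 c
  · intro g A c
    exact S3 (bp e4 (Ak Φ W K A)) (bp e4 (Ak Φ W K (g • A))) (fun c => g • c)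
      (fun t c => hF.comm g t c)
      (fun c => bp_smul hF e4 _ _ g (fun c => mem_Ak_smul_iff hF g) c) c
  · intro A c t
    exact (S1 _ (bp_bd e4 _)).2.1 c t
  · intro A c c'
    exact hlip _ (bp_bd e4 _) (bp_lip he40 _) c c'
  · intro c A B hA hB
    obtain ⟨t, ht, hpt⟩ := (S1 _ (bp_bd e4 _)).2.2.1 c hA
    obtain ⟨t', ht', hpt'⟩ := (S1 _ (bp_bd e4 _)).2.2.1 c hB
    obtain ⟨a, ha, hda⟩ := bp_pos he40 hpt
    obtain ⟨b, hb, hdb⟩ := bp_pos he40 hpt'
    obtain ⟨hu, g, eg, hag⟩ := ha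
    obtain ⟨-, h, eh, hbh⟩ := hb
    rw [eg, eh, cls_eq]
    refine hsep a (Φ (t - t') b) hu g h hag (per_fl hF hbh _) ?_
    have h1 : dist (Φ (t - t') (Φ t' c)) (Φ (t - t') b) ≤ κ * dist (Φ t' c) b := by
      refine hκ _ _ _ ?_
      rw [abs_lt] at ht ht'
      rw [abs_le]
      constructor <;> linarith
    rw [← hF.add, sub_add_cancel] at h1
    have h2 := dist_triangle a (Φ t c) (Φ (t - t') b)
    have h3 : dist a (Φ t c) < 2 * e4 := by rw [dist_comm]; exact hda
    have h5 : κ * dist (Φ t' c) b ≤ κ * (2 * e4) := mul_le_mul_of_nonneg_left hdb.le hκ0.le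
    have h6 : 2 * e4 ≤ κ * (2 * e4) := le_mul_of_one_le_left (by positivity) hκ1
    linarith
  · intro c hc hc'
    by_contra hcon
    push Not at hcon
    apply hc'
    refine ⟨hc, fun A hA => ?_⟩
    by_contra hlt
    push Not at hlt
    have h1 := (S1 _ (bp_bd e4 (Ak Φ W K A))).2.2.2 c 0 (by rw [abs_zero])
    rw [hF.zero, bp_one he40 hA hlt] at h1
    exact hcon A (le_antisymm ((S1 _ (bp_bd e4 _)).1 c).2 h1)
  · intro A c hA
    obtain ⟨t, ht, hpt⟩ := (S1 _ (bp_bd e4 _)).2.2.1 c hA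
    obtain ⟨a, ha, -⟩ := bp_pos he40 hpt
    obtain ⟨-, g, eg, τ, hτ, -, e⟩ := ha
    refine ⟨g, a, τ, hτ, e, fun k hk => ?_⟩
    rw [eg] at hk
    exact stab_cls hF hτ e hk

end Pool.Agent.ZF
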