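import Mathlib
import Pool.Agent.Lib.MP_8f66f0_al_ZF.Spec

/-! Project ZERO, part F: **Kap** (compactness). -/

set_option autoImplicit false

namespace Pool.Agent.ZF

open MeasureTheory Set Filter Topology

private theorem cont_ww (h1 : S_Wb) {X : Type} [PseudoMetricSpace X] {Φ : ℝ → X → X}
    (hΦ : PFl X Φ) {n : ℝ} (hn : 1 ≤ n) (l : ℕ) (P : Set X) (l' : ℕ) :
    Continuous (ww Φ n l P l') := by
  obtain ⟨-, -, -, hlip, -, -⟩ := h1 X Φ hΦ n hn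
  obtain ⟨κ, hκ, h⟩ := hlip l l'
  have hL : LipschitzWith (⟨κ, by linarith⟩ : NNReal) (ww Φ n l P l') := by
    refine LipschitzWith.of_dist_le_mul fun c c' => ?_
    rw [Real.dist_eq]
    exact h P c c'
  exact hL.continuous

theorem t_Kap (h1 : S_Wb) : S_Kap := by
  intro X _ Φ hΦ n hn s S hS Q' hQ hc
  refine hQ.induction_on (p := fun E => ∃ κ : ℝ, 0 < κ ∧ ∀ c ∈ E, ∃ l < s, ∀ μ ∈ S,
    μ.ρ + κ ≤ ww Φ n μ.l μ.P l c) ?_ ?_ ?_ ?_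
  · exact ⟨1, one_pos, fun c hc => absurd hc (Set.notMem_empty c)⟩
  · rintro E F hEF ⟨κ, hκ, h⟩
    exact ⟨κ, hκ, fun c hc => h c (hEF hc)⟩
  · rintro E F ⟨κ, hκ, h⟩ ⟨κ', hκ', h'⟩
    refine ⟨min κ κ', lt_min hκ hκ', ?_⟩
    rintro c (hcE | hcF)
    · obtain ⟨l, hl, hm⟩ := h c hcE
      exact ⟨l, hl, fun μ hμ => by linarith [hm μ hμ, min_le_left κ κ']⟩
    · obtain ⟨l, hl, hm⟩ := h' c hcF
      exact ⟨l, hl, fun μ hμ => by linarith [hm μ hμ, min_le_right κ κ']⟩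
  · intro c hcQ
    obtain ⟨l, hl, hm⟩ := hc c hcQ
    have h2 : ∀ᶠ κ in 𝓝[>] (0 : ℝ), ∀ μ ∈ S, μ.ρ + κ < ww Φ n μ.l μ.P l c := by
      rw [Filter.eventually_all_finite hS]
      intro μ hμ
      have h3 : Tendsto (fun κ : ℝ => μ.ρ + κ) (𝓝[>] (0 : ℝ)) (𝓝 (μ.ρ + 0)) :=
        ((continuous_const.add continuous_id).tendsto (0 : ℝ)).mono_left nhdsWithin_le_nhds
      rw [add_zero] at h3
      exact h3.eventually_lt_const (hm μ hμ)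
    obtain ⟨κ, hκ1, hκ2⟩ := (h2.and self_mem_nhdsWithin).exists
    have h4 : ∀ᶠ c' in 𝓝 c, ∀ μ ∈ S, μ.ρ + κ < ww Φ n μ.l μ.P l c' := by
      rw [Filter.eventually_all_finite hS]
      intro μ hμ
      exact ((cont_ww h1 hΦ hn μ.l μ.P l).tendsto c).eventually_const_lt (hκ1 μ hμ)
    exact ⟨_, mem_nhdsWithin_of_mem_nhds h4, κ, hκ2,
      fun c' hc' => ⟨l, hl, fun μ hμ => (hc' μ hμ).le⟩⟩

end Pool.Agent.ZF
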