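import Mathlib
import Pool.Agent.Lib.MP_8f66f0_al_ZF.Spec

/-!
# Project ZERO, part F: the marker lemma
-/

set_option autoImplicit false

namespace Pool.Agent.ZF

open MeasureTheory Set

private theorem mrk_gp_empty {X : Type} [PseudoMetricSpace X] (Φ : ℝ → X → X) (n : ℝ) (s : ℕ)
    (h : NullD (fun x y : X => dist x y) s univ) : GP Φ n s ∅ := by
  intro J hJ _ _ _
  have hJ0 : J = ∅ := Finset.eq_empty_of_forall_notMem fun x hx => hJ x hx
  subst hJ0
  have e : {c : X | ∀ x ∈ (∅ : Finset (Mk X × ℕ)), ww Φ n x.1.l x.1.P x.2 c = x.1.ρ} = univ :=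
    Set.eq_univ_of_forall fun c x hx => absurd hx (Finset.notMem_empty x)
  rw [e, Finset.card_empty, Nat.sub_zero]
  exact h

theorem t_Mrk (h1 : S_Stp) : S_Mrk := by
  intro X _ Φ hΦ n hn s hnull Q θ η hη m
  induction m with
  | zero =>
    intro _
    exact ⟨∅, ⟨Set.finite_empty, fun μ h => absurd h (Set.notMem_empty μ),
      fun μ h => absurd h (Set.notMem_empty μ), fun μ h => absurd h (Set.notMem_empty μ),
      fun μ h => absurd h (Set.notMem_empty μ), fun μ h => absurd h (Set.notMem_empty μ),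
      fun μ h => absurd h (Set.notMem_empty μ), fun μ h => absurd h (Set.notMem_empty μ),
      mrk_gp_empty Φ n s hnull, fun k hk => absurd hk (Nat.not_lt_zero k)⟩⟩
  | succ m ih =>
    intro hQ
    obtain ⟨S, hS⟩ := ih fun k hk => hQ k (by omega)
    exact h1 X Φ hΦ n hn s Q θ η hη m S hQ hS

end Pool.Agent.ZF
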