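import Pool.Agent.Lib.MP_8f66f0_al_ZF.Base

/-! Project ZERO, part F (note 3754): definitions and the two halves `S_per` (periodic part) and
`S_mark` (markers). -/

set_option autoImplicit false

namespace Pool.Agent.ZF

open Pool.Agent.ZA

/-- Families with a common Lipschitz constant. -/
def Lf {J M : Type} [MetricSpace M] (u : J → M → ℝ) : Prop :=
  ∃ C : ℝ, 0 ≤ C ∧ ∀ (x y : M) (j : J), |u j x - u j y| ≤ C * dist x y

/-- Clamping to `[0, 1]`. -/
noncomputable def cl (x : ℝ) : ℝ := max 0 (min 1 x)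

variable {G Y : Type} [Group G] [MetricSpace Y] [MulAction G Y] (Γ : Geo G Y)

/-- Slow functions along the flow. -/
def Slow (β : ℝ) (w : SY Y → ℝ) : Prop := ∀ c t, |w (Γ.fl t c) - w c| ≤ |t| / β

/-- The sup-convolution along the flow. -/
noncomputable def SL (β : ℝ) (w : SY Y → ℝ) (c : SY Y) : ℝ :=
  ⨆ t : ℝ, max 0 (w (Γ.fl t c) - |t| / β)

/-- The distance of `y` from the orbit of `c`. -/
noncomputable def rho (y c : SY Y) : ℝ := ⨅ t : ℝ, dist (Γ.fl t c) y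

/-- The last exit time of `c` from the unit ball at `y(-1)`. -/
noncomputable def TT (y c : SY Y) : ℝ := sSup {t : ℝ | dist (ev Γ c t) (ev Γ y (-1)) ≤ 1}

/-- The maximum of `s` on the segment from `c` to its hit of `y`. -/
noncomputable def SS (s : SY Y → ℝ) (y c : SY Y) : ℝ :=
  sSup ((fun t => s (Γ.fl t c)) '' Set.uIcc 0 (TT Γ y c))

/-- The constant `κ`: small enough. -/
structure Sc (κ : ℝ) : Prop where
  pos : 0 < κ
  le : κ ≤ 1 / 8
  back : ∀ c c' : SY Y, dist c c' ≤ κ → dist (ev Γ c (-1)) (ev Γ c' (-1)) ≤ 1 / 8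

theorem exists_sc : ∃ κ : ℝ, Sc Γ κ := by
  obtain ⟨C, δ, hC, hδ, h⟩ := lipf Γ 1
  refine ⟨min (1 / 8) (min δ (1 / (8 * C))), by positivity, min_le_left _ _, fun c c' hc => ?_⟩
  have h1 : dist (Γ.fl (-1) c) (Γ.fl (-1) c') ≤ C * dist c c' :=
    h c c' (hc.trans ((min_le_right _ _).trans (min_le_left _ _))) (-1) (by norm_num)
  have h2 : dist c c' ≤ 1 / (8 * C) := hc.trans ((min_le_right _ _).trans (min_le_right _ _))
  have h3 : C * dist c c' ≤ 1 / 8 := by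
    calc C * dist c c' ≤ C * (1 / (8 * C)) := mul_le_mul_of_nonneg_left h2 (by linarith)
      _ = 1 / 8 := by field_simp
  exact (dist_ev_fl_le Γ c c' (-1) (-1)).trans (h1.trans h3)

/-- The function `s` of note 3754: `{s ≤ 3}` is cocompact and contains no periodic line of period
at most `4 α + 2`. -/
structure SF (α : ℝ) (s : SY Y → ℝ) : Prop where
  nonneg : ∀ c, 0 ≤ s c
  lip : Lf (fun (_ : Unit) c => s c)
  slow : Slow Γ (4 * α) s
  inv : ∀ (g : G) c, s (Γ.gs g c) = s c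
  coc : ∃ K : Set (SY Y), IsCompact K ∧ ∀ c, s c ≤ 3 → ∃ g : G, Γ.gs g c ∈ K
  per : ∀ c, s c ≤ 3 → ∀ (g : G) (t : ℝ), |t| ≤ 4 * α + 2 → Γ.gs g c = Γ.fl t c → t = 0

end Pool.Agent.ZF

namespace Pool.Agent.ZF

open Pool.Agent.ZA

/-- **The periodic half** (Step 1 of note 3754). -/
def S_per : Prop :=
  ∀ (G Y : Type) [Group G] [MetricSpace Y] [MulAction G Y] (Γ : Geo G Y) (Z : Set Y),
    CoCpt G Z → Z.Nonempty → ∀ α : ℝ, 0 < α →
      ∃ (s : SY Y → ℝ) (U : Fam G (SY Y) Γ.gs (SmP Γ) 1), SF Γ α s ∧ Lf U.u ∧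
        (∀ j, Slow Γ α (U.u j)) ∧ ∀ c : SY Y, c.1.1 ∈ Z → s c ≤ 1 ∨ ∃ j, U.u j c = 1

/-- **The marker half** (Steps 2 to 6 of note 3754). -/
def S_mark : Prop :=
  ∀ (G Y : Type) [Group G] [MetricSpace Y] [MulAction G Y] (Γ : Geo G Y) (D : ℕ),
    dimH (Set.univ : Set (Y × Y)) ≤ D → ∀ (α : ℝ) (s : SY Y → ℝ), 0 < α → SF Γ α s →
      ∃ U : Fam G (SY Y) Γ.gs (fun V => Finite V) (2 * (D + 1)), Lf U.u ∧
        (∀ j, Slow Γ α (U.u j)) ∧ ∀ c : SY Y, s c ≤ 1 → ∃ j, U.u j c = 1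

end Pool.Agent.ZF
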