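import Mathlib
import Pool.Agent.Lib.MP_8f66f0_al_ZF.Spec

/-!
# Stp: the inductive step of the marker lemma
-/

set_option autoImplicit false

namespace Pool.Agent.ZF

open MeasureTheory Set

namespace StpAux

theorem cont_of_lip {X : Type} [PseudoMetricSpace X] (f : X → ℝ) (κ : ℝ) (hκ : 1 ≤ κ)
    (h : ∀ c c', |f c - f c'| ≤ κ * dist c c') : Continuous f := by
  have h0 : (0 : ℝ) ≤ κ := by linarith
  have h1 : LipschitzWith ⟨κ, h0⟩ f := LipschitzWith.of_dist_le_mul fun x y => by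
    rw [Real.dist_eq]
    exact h x y
  exact h1.continuous

/-- one Lipschitz constant for all `l < s` -/
theorem bigLam {X : Type} [PseudoMetricSpace X] (Φ : ℝ → X → X) (n : ℝ) (T : ℝ)
    (w3 : ∀ (l : ℕ) (T : ℝ), ∃ κ : ℝ, 1 ≤ κ ∧ ∀ (P : Set X) (t : ℝ) (c c' : X), |t| ≤ T →
      |vv Φ n l P (Φ t c) - vv Φ n l P (Φ t c')| ≤ κ * dist c c') (s : ℕ) :
    ∃ Λ : ℝ, 1 ≤ Λ ∧ ∀ l < s, ∀ (P : Set X) (t : ℝ) (c c' : X), |t| ≤ T →
      |vv Φ n l P (Φ t c) - vv Φ n l P (Φ t c')| ≤ Λ * dist c c' := by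
  choose κ hκ1 hκ using fun l => w3 l T
  refine ⟨1 + ∑ l ∈ Finset.range s, κ l, ?_, ?_⟩
  · have : 0 ≤ ∑ l ∈ Finset.range s, κ l :=
      Finset.sum_nonneg fun l _ => le_trans zero_le_one (hκ1 l)
    linarith
  · intro l hl P t c c' ht
    have h1 : κ l ≤ ∑ l ∈ Finset.range s, κ l :=
      Finset.single_le_sum (f := κ) (fun i _ => le_trans zero_le_one (hκ1 i))
        (Finset.mem_range.2 hl)
    refine (hκ l P t c c' ht).trans ?_
    exact mul_le_mul_of_nonneg_right (by linarith) dist_nonneg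

end StpAux

open StpAux in
theorem t_Stp (h1 : S_Wb) (h2 : S_Add) (h3 : S_Kap) (h4 : S_Clm) : S_Stp := by
  intro X _ Φ hΦ n hn s Q θ η hη m S hQ hS
  obtain ⟨w1, w2, w3, w4, w5, w6⟩ := h1 X Φ hΦ n hn
  have hwc : ∀ (l : ℕ) (P : Set X) (l' : ℕ), Continuous (ww Φ n l P l') := by
    intro l P l'
    obtain ⟨κ, k1, k2⟩ := w4 l l'
    exact cont_of_lip _ κ k1 fun c c' => k2 P c c'
  have hQm := hQ m (Nat.lt_succ_self m)
  -- the uncovered part
  set Q' : Set X := {c | c ∈ Q m ∧ ∀ μ ∈ S, ∀ l < s, μ.ρ ≤ ww Φ n μ.l μ.P l c} with hQ'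
  have hQ'c : IsCompact Q' := by
    have e : Q' = Q m ∩ {c | ∀ μ ∈ S, ∀ l < s, μ.ρ ≤ ww Φ n μ.l μ.P l c} := rfl
    rw [e]
    refine hQm.cpt.inter_right ?_
    have e2 : {c : X | ∀ μ ∈ S, ∀ l < s, μ.ρ ≤ ww Φ n μ.l μ.P l c} =
        ⋂ μ ∈ S, ⋂ l, ⋂ (_ : l < s), {c | μ.ρ ≤ ww Φ n μ.l μ.P l c} := by
      ext c
      simp only [mem_ofPred_eq, mem_iInter]
    rw [e2]
    refine isClosed_biInter fun μ _ => isClosed_iInter fun l => isClosed_iInter fun _ => ?_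
    exact isClosed_le continuous_const (hwc _ _ _)
  obtain ⟨κ, hκ, hκQ⟩ := h3 X Φ hΦ n hn s S hS.fin Q' hQ'c fun c hc =>
    h4 X Φ hΦ n hn s Q θ η m S (fun k hk => hQ k (Nat.lt_succ_of_lt hk)) hS c hc.2
  set P : ℕ → Set X := fun l => {c | c ∈ Q' ∧ ∀ μ ∈ S, μ.ρ + κ ≤ ww Φ n μ.l μ.P l c} with hP
  obtain ⟨Λ, hΛ1, hΛ⟩ := bigLam Φ n (LL s n + n) w3 s
  set δ : ℝ := min η (κ / (Λ + 1)) with hδ
  have hΛ0 : 0 < Λ + 1 := by linarith
  have hδ0 : 0 < δ := lt_min hη (div_pos hκ hΛ0)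
  have hδη : δ ≤ η := min_le_left _ _
  have hδκ : δ ≤ κ / (Λ + 1) := min_le_right _ _
  obtain ⟨ρ, hρ, hGP⟩ := h2 X Φ hΦ n hn s S hS.fin hS.gp m P δ hδ0
  set N : Set (Mk X) := {μ | ∃ l < s, (P l).Nonempty ∧ μ = ⟨m, l, P l, ρ l⟩} with hN
  have hPQ : ∀ l, P l ⊆ Q m := fun l c hc => hc.1.1
  have hLL : ∀ l < s, 0 ≤ tt n l ∧ tt n l ≤ LL s n := by
    intro l hl
    have h5 := w5 s l hl (tt n l) ⟨by linarith, by linarith⟩
    exact ⟨by linarith, by linarith⟩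
  have hΦΦ : ∀ (a b : ℝ) (c : X), Φ a (Φ b c) = Φ (a + b) c := fun a b c => (hΦ.add a b c).symm
  -- a new marker and an old marker
  have hsepNO : ∀ l < s, (P l).Nonempty → ∀ ν ∈ S, ∀ (c : X) (t : ℝ), |t| ≤ n →
      vv Φ n l (P l) c ≤ ρ l → vv Φ n ν.l ν.P (Φ t c) ≤ ν.ρ → False := by
    intro l hl hne ν hν c t ht hv1 hv2
    have hv3 : Metric.infDist (Φ (-(tt n l)) c) (P l) < κ / (Λ + 1) :=
      lt_of_le_of_lt hv1 (lt_of_lt_of_le (hρ l).2 hδκ)
    obtain ⟨c₂, hc₂, hd⟩ := (Metric.infDist_lt_iff hne).1 hv3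
    set c₁ := Φ (-(tt n l)) c with hc₁
    have htb : tt n l + t ∈ blk n l := by
      have := abs_le.1 ht
      exact ⟨by linarith, by linarith⟩
    have e1 : Φ t c = Φ (tt n l + t) c₁ := by
      rw [hc₁, hΦΦ]
      congr 1
      ring
    have h5 : ν.ρ + κ ≤ vv Φ n ν.l ν.P (Φ (tt n l + t) c₂) :=
      (hc₂.2 ν hν).trans (w2 ν.l ν.P l c₂ _ htb)
    have h6 := w5 s l hl _ htb
    have h7 : |tt n l + t| ≤ LL s n + n := by
      rw [abs_of_nonneg (by linarith)]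
      linarith
    have h8 := hΛ ν.l (hS.llt ν hν) ν.P (tt n l + t) c₁ c₂ h7
    have h9 : Λ * dist c₁ c₂ ≤ Λ * (κ / (Λ + 1)) :=
      mul_le_mul_of_nonneg_left hd.le (by linarith)
    have h10 : Λ * (κ / (Λ + 1)) < κ := by
      rw [← mul_div_assoc, div_lt_iff₀ hΛ0]
      nlinarith
    rw [e1] at hv2
    have h11 := (abs_le.1 h8).1
    linarith
  refine ⟨S ∪ N, ?_⟩
  have hNfin : N.Finite := by
    have : N ⊆ (fun l : ℕ => (⟨m, l, P l, ρ l⟩ : Mk X)) '' (Set.Iio s) := by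
      rintro μ ⟨l, hl, _, rfl⟩
      exact ⟨l, hl, rfl⟩
    exact ((Set.finite_Iio s).image _).subset this
  constructor
  · exact hS.fin.union hNfin
  · rintro μ (hμ | ⟨l, hl, _, rfl⟩)
    · exact Nat.lt_succ_of_lt (hS.klt μ hμ)
    · exact Nat.lt_succ_self m
  · rintro μ (hμ | ⟨l, hl, _, rfl⟩)
    · exact hS.llt μ hμ
    · exact hl
  · rintro μ (hμ | ⟨l, hl, _, rfl⟩)
    · exact hS.sub μ hμ
    · exact hPQ l
  · rintro μ (hμ | ⟨l, hl, hne, rfl⟩)
    · exact hS.ne μ hμ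
    · exact hne
  · rintro μ (hμ | ⟨l, hl, hne, rfl⟩)
    · exact hS.pos μ hμ
    · exact (hρ l).1
  · rintro μ (hμ | ⟨l, hl, hne, rfl⟩)
    · exact hS.lt μ hμ
    · exact lt_of_lt_of_le (hρ l).2 hδη
  · rintro μ (hμ | ⟨l, hl, hne, rfl⟩) ν (hν | ⟨l', hl', hne', rfl⟩) c t ht hv1 hv2
    · exact hS.sep μ hμ ν hν c t ht hv1 hv2
    · exfalso
      have e1 : Φ (-t) (Φ t c) = c := by
        rw [hΦΦ]
        have : -t + t = 0 := by ring
        rw [this, hΦ.zero]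
      refine hsepNO l' hl' hne' μ hμ (Φ t c) (-t) (by rwa [abs_neg]) hv2 ?_
      rw [e1]
      exact hv1
    · exact (hsepNO l hl hne ν hν c t ht hv1 hv2).elim
    · -- both new
      set c₁ := Φ (-(tt n l)) c with hc₁
      have e1 : Φ (-(tt n l')) (Φ t c) = Φ (t + tt n l - tt n l') c₁ := by
        rw [hc₁, hΦΦ, hΦΦ]
        congr 1
        ring
      have ha : Metric.infDist c₁ (Q m) ≤ η := by
        have h5 : Metric.infDist c₁ (Q m) ≤ Metric.infDist c₁ (P l) :=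
          Metric.infDist_le_infDist_of_subset (hPQ l) hne
        have h6 : Metric.infDist c₁ (P l) ≤ ρ l := hv1
        have h7 := (hρ l).2
        linarith
      have hb : Metric.infDist (Φ (t + tt n l - tt n l') c₁) (Q m) ≤ η := by
        have h5 : Metric.infDist (Φ (t + tt n l - tt n l') c₁) (Q m) ≤
            Metric.infDist (Φ (t + tt n l - tt n l') c₁) (P l') :=
          Metric.infDist_le_infDist_of_subset (hPQ l') hne'
        have h6 : Metric.infDist (Φ (-(tt n l')) (Φ t c)) (P l') ≤ ρ l' := hv2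
        rw [e1] at h6
        have h7 := (hρ l').2
        linarith
      have hW : |t + tt n l - tt n l'| ≤ WW s n := by
        have h5 := hLL l hl
        have h6 := hLL l' hl'
        have h7 := abs_le.1 ht
        unfold WW
        rw [abs_le]
        constructor <;> linarith
      have hθ := hQm.nr c₁ _ hW ha hb
      have hθ1 := hQm.le
      by_cases hll : l = l'
      · subst hll
        refine ⟨rfl, ?_⟩
        have e2 : t + tt n l - tt n l = t := by ring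
        rw [e2] at hθ
        exact hθ
      · exfalso
        have h5 := (w6 l l' hll).1
        have h6 : |tt n l - tt n l'| ≤ |t + tt n l - tt n l'| + |t| := by
          have h7 : tt n l - tt n l' = (t + tt n l - tt n l') - t := by ring
          rw [h7]
          have h8 := abs_sub (t + tt n l - tt n l') t
          have h9 : (t + tt n l - tt n l') - t = (t + tt n l - tt n l') - t := rfl
          linarith
        linarith
  · exact hGP
  · intro k hk c hc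
    rcases Nat.lt_succ_iff_lt_or_eq.1 hk with hk | rfl
    · obtain ⟨μ, hμ, t, h5, h6, h7⟩ := hS.cov k hk c hc
      exact ⟨μ, Or.inl hμ, t, h5, h6, h7⟩
    · by_cases hcQ : ∀ μ ∈ S, ∀ l < s, μ.ρ ≤ ww Φ n μ.l μ.P l c
      · obtain ⟨l, hl, h5⟩ := hκQ c ⟨hc, hcQ⟩
        have hcP : c ∈ P l := ⟨⟨hc, hcQ⟩, h5⟩
        refine ⟨⟨k, l, P l, ρ l⟩, Or.inr ⟨l, hl, ⟨c, hcP⟩, rfl⟩, tt n l, (hLL l hl).1,
          (hLL l hl).2, ?_⟩
        change Metric.infDist (Φ (-(tt n l)) (Φ (tt n l) c)) (P l) < ρ l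
        have e1 : Φ (-(tt n l)) (Φ (tt n l) c) = c := by
          rw [hΦΦ]
          have : -(tt n l) + tt n l = 0 := by ring
          rw [this, hΦ.zero]
        rw [e1, Metric.infDist_zero_of_mem hcP]
        exact (hρ l).1
      · push Not at hcQ
        obtain ⟨μ, hμ, l, hl, h5⟩ := hcQ
        obtain ⟨t, ht, h6⟩ := w1 μ.l μ.P l c
        have h7 := w5 s l hl t ht
        exact ⟨μ, Or.inl hμ, t, by linarith, by linarith, by rw [h6]; exact h5⟩

end Pool.Agent.ZF
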